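import Pool.Agent.SYS.US.Defs
import Pool.Agent.SYS.CO.Defs

/-!
# Project SYS, block US, second part (transfer of the rank from the triangulation with two discs to the triangulation with the seed): definitions.  DO NOT CHANGE.

`star T u`: the faces at the tail of `u`; `dg T u`: the degree of the tail of `u`.
`Tame T x y m v`: every connected set `Y` of faces which contains `x` and `y`, with at most `m` boundary darts and at most `v` darts has rank `0`, even with the faces at any one vertex of `Y`.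
`Rare θ P`: only an arbitrarily small fraction of the triples (triangulation, `x`, `y`) has the property `P`.
`B2`, `B3` (syst_star_43, section 4): the two bad events for pairs.
`Tw S U T T' χ`: the part of `T` outside the region `S` is the part of `T'` outside the region `U`; `χ` identifies the darts of `S.X` (hidden or boundary) and of `U.X`.
`Out T Z m` (hypothesis of block TOPS): connected set of faces of positive genus with at most `m` boundary darts, of rank at most `2`, even with the faces at any one of its vertices.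
-/

namespace SYS.US

open SST Part Num XP

/-- The faces at the tail of `u`. -/
def star {D : Type} (T : Tri D) (u : D) : Set D :=
  {d | T.tl d = T.tl u ∨ T.tl (T.f d) = T.tl u ∨ T.tl (T.f (T.f d)) = T.tl u}

/-- The degree of the tail of `u`. -/
noncomputable def dg {D : Type} (T : Tri D) (u : D) : ℕ := {d | T.tl d = T.tl u}.ncard

def Tame {D : Type} (T : Tri D) (x y : D) (m v : ℝ) : Prop :=
  ∀ Y : Set D, Fs T Y → DC T Y → x ∈ Y → y ∈ Y → ((bdy T Y).ncard : ℝ) ≤ m → (Y.ncard : ℝ) ≤ v →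
    ∀ u ∈ Y, CO.rk T (CO.ins T (Y ∪ star T u)) = 0

def Rare (θ : ℝ) (P : ∀ p : ℕ × ℕ, Tri (Fin (6 * p.1)) → Fin (6 * p.1) → Fin (6 * p.1) → Prop) : Prop :=
  ∀ η : ℝ, 0 < η → ∀ᶠ p in Num.Fth θ,
    (({q : Tri (Fin (6 * p.1)) × Fin (6 * p.1) × Fin (6 * p.1) | q.1 ∈ Trn p.1 p.2 ∧
      P p q.1 q.2.1 q.2.2}.ncard : ℕ) : ℝ) ≤ η * (6 * (p.1 : ℝ)) ^ 2 * ((Trn p.1 p.2).ncard : ℕ)

/-- (B2): few pairs are in a small connected set of faces of positive rank. -/
def B2 (θ s C : ℝ) : Prop := Rare θ fun p T x y => ∃ Y : Set (Fin (6 * p.1)), Fs T Y ∧ DC T Y ∧ x ∈ Y ∧ y ∈ Y ∧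
  ((bdy T Y).ncard : ℝ) ≤ s * Real.log p.1 ∧ (Y.ncard : ℝ) ≤ C * Real.log p.1 ∧ 1 ≤ CO.rk T (CO.ins T Y)

/-- (B3): few pairs are in a small connected set of faces with a vertex of large degree. -/
def B3 (θ s C e : ℝ) : Prop := Rare θ fun p T x y => ∃ Y : Set (Fin (6 * p.1)), Fs T Y ∧ DC T Y ∧ x ∈ Y ∧ y ∈ Y ∧
  ((bdy T Y).ncard : ℝ) ≤ s * Real.log p.1 ∧ (Y.ncard : ℝ) ≤ C * Real.log p.1 ∧
    ∃ u ∈ Y, e * Real.log p.1 ≤ (dg T u : ℝ)

/-- Almost all pairs are tame. -/
def TameW (θ s C : ℝ) : Prop := Rare θ fun p T x y => ¬ Tame T x y (s * Real.log p.1) (C * Real.log p.1)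

structure Tw {D E : Type} [Finite D] [Finite E] (S : Part D) (U : Part E) (T : Tri D) (T' : Tri E) (χ : D → E) : Prop where
  le : S.Le T
  le' : U.Le T'
  inj : Set.InjOn χ S.X
  hR : ∀ d, d ∉ S.R → χ d ∉ U.R
  hRR : ∀ e, e ∉ U.R → ∃ d, d ∉ S.R ∧ χ d = e
  hB : χ '' S.B = U.B
  nx : ∀ d ∈ S.B, U.nx (χ d) = χ (S.nx d)
  hf : ∀ d, d ∉ S.R → T'.f (χ d) = χ (T.f d)
  ha : ∀ d ∈ S.X, T'.a (χ d) = χ (T.a d)

/-- `U` consists of two discs (of `x` and of `y`) with the holes of `w` and of `w'`. -/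
structure Two {E : Type} (U : Part E) (x y w w' : E) : Prop where
  hl : U.HL [w, w']
  hx : x ∈ U.R
  hy : y ∈ U.R
  hxw : U.Cn x w
  hyw : U.Cn y w'
  hxy : ¬ U.Cn x y
  gen : ∀ d ∈ U.R, U.Cn x d ∨ U.Cn y d

/-- The face set over `S` which corresponds to the face set `Y` over `U`. -/
def lft {D E : Type} (S : Part D) (χ : D → E) (Y : Set E) : Set D := {d | d ∈ S.R ∨ χ d ∈ Y}

structure Out {D : Type} (T : Tri D) (Z : Set D) (m : ℝ) : Prop where
  fs : Fs T Z
  dc : DC T Z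
  per : ((bdy T Z).ncard : ℝ) ≤ m
  gen : 12 ≤ (cut T Z fs).gen12
  rk : ∀ u ∈ Z, CO.rk T (CO.ins T (Z ∪ star T u)) ≤ 2

end SYS.US
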