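import Pool.Agent.SYS.US.Defs

/-!
# SYS-US-Grw: output of block GRW (growth by blocks from a source), definition.  DO NOT CHANGE.

`Grw θ β C e`: for all but a fraction `η` of the pairs (triangulation, source `x`) there is a connected set of faces with at least `n ^ (1 - 2 e)` darts, every dart of which has a link to `x` with `m = β log n`, `v = C log n`.
-/

namespace SYS.US

open SST Part Num XP

def Grw (θ β C e : ℝ) : Prop := ∀ η : ℝ, 0 < η → ∀ᶠ p in Num.Fth θ,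
  (({q : Tri (Fin (6 * p.1)) × Fin (6 * p.1) | q.1 ∈ Trn p.1 p.2 ∧
    ¬ ∃ Y : Set (Fin (6 * p.1)), Fs q.1 Y ∧ DC q.1 Y ∧ (p.1 : ℝ) ^ (1 - 2 * e) ≤ Y.ncard ∧
      ∀ d ∈ Y, Link q.1 q.2 d (β * Real.log p.1) (C * Real.log p.1)}.ncard : ℕ) : ℝ) ≤
    η * (6 * (p.1 : ℝ)) * ((Trn p.1 p.2).ncard : ℕ)

end SYS.US
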