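import Pool.Agent.SYS.T1
import Pool.Agent.SYS.RB.Win

/-!
# SYS-US-Star: the limit of sepsys* from bounds with relative error `ε`
-/

namespace SYS.US

open SST Filter Topology

theorem fth_neBot {θ : ℝ} (h0 : 0 ≤ θ) : (Num.Fth θ).NeBot := by
  have ht : Tendsto (fun n : ℕ => ((n, ⌊θ * (n : ℝ)⌋₊) : ℕ × ℕ)) atTop (Num.Fth θ) := by
    rw [Num.Fth, tendsto_inf, tendsto_comap_iff, tendsto_comap_iff]
    refine ⟨tendsto_id, ?_⟩
    exact (tendsto_nat_floor_mul_div_atTop h0).comp tendsto_natCast_atTop_atTop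
  exact ht.neBot

theorem star_lim {θ : ℝ} (h0 : 0 ≤ θ)
    (h : ∀ ε : ℝ, 0 < ε → ε < 1 → ∃ β : ℝ, 0 < β ∧ (∀ c : ℝ, c < (1 - ε) * β → Tendsto (PSS c) (Num.Fth θ) (𝓝 0)) ∧
      ∀ c : ℝ, (1 + ε) * β < c → Tendsto (PSS c) (Num.Fth θ) (𝓝 1)) :
    ∃ S : ℝ, 0 < S ∧ (∀ ε : ℝ, 0 < ε → Tendsto (PSS (S + ε)) (Num.Fth θ) (𝓝 1)) ∧
      ∀ ε : ℝ, 0 < ε → Tendsto (PSS (S - ε)) (Num.Fth θ) (𝓝 0) := by
  have hne := fth_neBot h0
  set A : Set ℝ := {c | Tendsto (PSS c) (Num.Fth θ) (𝓝 0)} with hA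
  have hup : ∀ ε β : ℝ, (∀ c : ℝ, (1 + ε) * β < c → Tendsto (PSS c) (Num.Fth θ) (𝓝 1)) → ∀ c ∈ A, c ≤ (1 + ε) * β := by
    intro ε β h1 c hc
    by_contra hlt
    exact zero_ne_one (tendsto_nhds_unique hc (h1 c (not_le.1 hlt)))
  obtain ⟨β0, hβ0, hl0, hu0⟩ := h (1 / 2) (by norm_num) (by norm_num)
  have hbdd : BddAbove A := ⟨(1 + 1 / 2) * β0, fun c hc => hup _ _ hu0 c hc⟩
  have hSle : ∀ ε β : ℝ, (∀ c : ℝ, c < (1 - ε) * β → Tendsto (PSS c) (Num.Fth θ) (𝓝 0)) → (1 - ε) * β ≤ sSup A := by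
    intro ε β h1
    refine le_of_forall_lt fun c hc => ?_
    obtain ⟨c', h2, h3⟩ := exists_between hc
    exact lt_of_lt_of_le h2 (le_csSup hbdd (h1 c' h3))
  have hAne : A.Nonempty := ⟨0, hl0 0 (by positivity)⟩
  have hSge : ∀ ε β : ℝ, (∀ c : ℝ, (1 + ε) * β < c → Tendsto (PSS c) (Num.Fth θ) (𝓝 1)) → sSup A ≤ (1 + ε) * β :=
    fun ε β h1 => csSup_le hAne fun c hc => hup ε β h1 c hc
  have hSpos : 0 < sSup A := lt_of_lt_of_le (by positivity) (hSle _ _ hl0)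
  refine ⟨sSup A, hSpos, ?_, ?_⟩
  · intro ε hε
    set S := sSup A with hS
    set e : ℝ := min (1 / 2) (ε / (8 * S)) with he
    have he0 : 0 < e := lt_min (by norm_num) (by positivity)
    have he1 : e ≤ 1 / 2 := min_le_left _ _
    have he2 : e * S ≤ ε / 8 := by
      have h1 : e ≤ ε / (8 * S) := min_le_right _ _
      calc e * S ≤ ε / (8 * S) * S := mul_le_mul_of_nonneg_right h1 hSpos.le
        _ = ε / 8 := by field_simp
    obtain ⟨β, hβ, hl, hu⟩ := h e he0 (by linarith)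
    refine hu _ ?_
    have h1 := hSle e β hl
    have h2 : (1 + e) * β ≤ S + 4 * (e * S) := by
      have h3 : β ≤ (1 + 2 * e) * S := by
        have h4 : (1 + 2 * e) * ((1 - e) * β) ≤ (1 + 2 * e) * S := mul_le_mul_of_nonneg_left h1 (by linarith)
        have h5 : β ≤ (1 + 2 * e) * ((1 - e) * β) := by
          have h6 : 0 ≤ e * (1 - 2 * e) * β := by
            apply mul_nonneg _ hβ.le
            exact mul_nonneg he0.le (by linarith)
          nlinarith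
        linarith
      have h7 : (1 + e) * β ≤ (1 + e) * ((1 + 2 * e) * S) := mul_le_mul_of_nonneg_left h3 (by linarith)
      have h8 : (1 + e) * ((1 + 2 * e) * S) = S + 3 * (e * S) + 2 * e * (e * S) := by ring
      have h9 : 2 * e * (e * S) ≤ 1 * (e * S) := mul_le_mul_of_nonneg_right (by linarith) (by positivity)
      linarith
    linarith
  · intro ε hε
    set S := sSup A with hS
    set e : ℝ := min (1 / 2) (ε / (8 * S)) with he
    have he0 : 0 < e := lt_min (by norm_num) (by positivity)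
    have he1 : e ≤ 1 / 2 := min_le_left _ _
    have he2 : e * S ≤ ε / 8 := by
      have h1 : e ≤ ε / (8 * S) := min_le_right _ _
      calc e * S ≤ ε / (8 * S) * S := mul_le_mul_of_nonneg_right h1 hSpos.le
        _ = ε / 8 := by field_simp
    obtain ⟨β, hβ, hl, hu⟩ := h e he0 (by linarith)
    refine hl _ ?_
    have h1 := hSge e β hu
    have h2 : S - 2 * (e * S) ≤ (1 - e) * β := by
      have h4 : (1 - e) * S ≤ (1 - e) * ((1 + e) * β) := mul_le_mul_of_nonneg_left h1 (by linarith)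
      have h5 : (1 - e) * ((1 - e) * S) ≤ (1 - e) * β := by
        have h6 : (1 - e) * S ≤ β := by
          have h7 : 0 ≤ e * e * β := by positivity
          nlinarith
        exact mul_le_mul_of_nonneg_left h6 (by linarith)
      have h8 : (1 - e) * ((1 - e) * S) = S - 2 * (e * S) + e * (e * S) := by ring
      have h9 : 0 ≤ e * (e * S) := by positivity
      linarith
    linarith

theorem star_ssc {θ : ℝ} (h0 : 0 ≤ θ)
    (h : ∀ ε : ℝ, 0 < ε → ε < 1 → ∃ β : ℝ, 0 < β ∧ (∀ c : ℝ, c < (1 - ε) * β → Tendsto (PSS c) (Num.Fth θ) (𝓝 0)) ∧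
      ∀ c : ℝ, (1 + ε) * β < c → Tendsto (PSS c) (Num.Fth θ) (𝓝 1)) : ∃ S : ℝ, 0 < S ∧ SSCLim θ S := by
  obtain ⟨S, hS, h1, h2⟩ := star_lim h0 h
  exact ⟨S, hS, sscLim h1 h2⟩

end SYS.US
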