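import Pool.Agent.SYS.US.Up3
import Pool.Agent.SYS.US.Star

/-!
# SYS-US-T2: the limit of the simple separating systole from GRW, (B2), (B3) and the lower bound

`β` is `(1 + C ε) S_M` of syst_star_43.
-/

namespace SYS.US

open SST Part Num XP UP Filter Topology

theorem t2_of {θ x : ℝ} (h : Par θ x)
    (H : ∀ ε : ℝ, 0 < ε → ε < 1 → ∃ β C β2 C2 e : ℝ, 0 < β ∧ β < β2 ∧ C < C2 ∧
      (∀ e' : ℝ, 0 < e' → e' < 1 / 2 → Grw θ β C e') ∧ B2 θ (β2 + e) (C2 + 3 * e) ∧ B3 θ β2 C2 e ∧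
      ∀ c : ℝ, c < (1 - ε) * β → Tendsto (PSS c) (Num.Fth θ) (𝓝 0)) : ∃ S : ℝ, 0 < S ∧ SSCLim θ S := by
  refine star_ssc h.1.le fun ε hε hε1 => ?_
  obtain ⟨β, C, β2, C2, e, h1, h2, h3, h4, h5, h6, h7⟩ := H ε hε hε1
  refine ⟨β, h1, h7, fun c hc => up_star3 h h1 h2 h3 h4 h5 h6 ?_⟩
  nlinarith

theorem t2_lim {θ x : ℝ} (h : Par θ x)
    (H : ∀ ε : ℝ, 0 < ε → ε < 1 → ∃ β C β2 C2 e : ℝ, 0 < β ∧ β < β2 ∧ C < C2 ∧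
      (∀ e' : ℝ, 0 < e' → e' < 1 / 2 → Grw θ β C e') ∧ B2 θ (β2 + e) (C2 + 3 * e) ∧ B3 θ β2 C2 e ∧
      ∀ c : ℝ, c < (1 - ε) * β → Tendsto (PSS c) (Num.Fth θ) (𝓝 0)) :
    ∃ S : ℝ, 0 < S ∧ (∀ ε : ℝ, 0 < ε → Tendsto (PSS (S + ε)) (Num.Fth θ) (𝓝 1)) ∧
      ∀ ε : ℝ, 0 < ε → Tendsto (PSS (S - ε)) (Num.Fth θ) (𝓝 0) := by
  refine star_lim h.1.le fun ε hε hε1 => ?_
  obtain ⟨β, C, β2, C2, e, h1, h2, h3, h4, h5, h6, h7⟩ := H ε hε hε1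
  refine ⟨β, h1, h7, fun c hc => up_star3 h h1 h2 h3 h4 h5 h6 ?_⟩
  nlinarith

end SYS.US
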