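import Pool.Agent.SYS.US.Up4
import Pool.Agent.SYS.US.Star

/-!
# SYS-US-T3: the limit of the simple separating systole from GRW, (B2), (B3) and the lower bound

`β` is `(1 + C ε) S_M` of syst_star_43, `L` an upper bound for all perimeters in question (divided by `log n`), for example `2 / κ₀`.
-/

namespace SYS.US

open SST Part Num XP UP Filter Topology

/-- GRW, (B2), (B3) and the lower bound for `sepsys*`, with relative error `ε`. -/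
def T2In (θ : ℝ) : Prop := ∃ L : ℝ, 0 < L ∧ ∀ C1 : ℝ, 0 < C1 → ∀ ε : ℝ, 0 < ε → ε < 1 → ∃ β β2 e : ℝ, 0 < β ∧ β < β2 ∧
  0 ≤ e ∧ β2 + e ≤ L ∧ (∀ e' : ℝ, 0 < e' → e' < 1 / 2 → ∃ C : ℝ, Grw θ β C e') ∧ B2 θ (β2 + e) C1 ∧ B3 θ β2 C1 e ∧
  ∀ c : ℝ, c < (1 - ε) * β → Tendsto (PSS c) (Num.Fth θ) (𝓝 0)

theorem t2_fin {θ x : ℝ} (h : Par θ x) (H : T2In θ) :
    ∃ S : ℝ, 0 < S ∧ (∀ ε : ℝ, 0 < ε → Tendsto (PSS (S + ε)) (Num.Fth θ) (𝓝 1)) ∧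
      ∀ ε : ℝ, 0 < ε → Tendsto (PSS (S - ε)) (Num.Fth θ) (𝓝 0) := by
  obtain ⟨L, hL, H⟩ := H
  obtain ⟨C1, hC1, hup⟩ := up_star4 h L hL
  refine star_lim h.1.le fun ε hε hε1 => ?_
  obtain ⟨β, β2, e, h1, h2, h3, h4, h5, h6, h7, h8⟩ := H C1 hC1 ε hε hε1
  refine ⟨β, h1, h8, fun c hc => hup β β2 e h1 h2 h3 h4 h5 h6 h7 c ?_⟩
  nlinarith

end SYS.US
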