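import Pool.Agent.SYS.XP.Defs
import Pool.Agent.SYS.UP.EvD

/-!
# Project SYS, block US (SEED and assembly of the upper bound for the simple separating systole): definitions.  DO NOT CHANGE.

`Link T x y m v`: there is a connected set of faces which contains `x` and `y`, with at most `m` boundary darts and at most `v` darts.
`Thin θ β C` (= TYP*): for all but a fraction `η` of the triples (triangulation, `x`, `y`) there is such a set with `m = β log n`, `v = C log n`.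
`Strip S T z z' Y m v`: `Y` is a connected set of hidden faces of the region `S` of `T` which touches the holes of `z` and of `z'`; at most `m` darts of `Y` are glued to hidden darts outside `Y`.
-/

namespace SYS.US

open SST Part Num XP

def Link {D : Type} (T : Tri D) (x y : D) (m v : ℝ) : Prop :=
  ∃ Y : Set D, Fs T Y ∧ DC T Y ∧ x ∈ Y ∧ y ∈ Y ∧ ((bdy T Y).ncard : ℝ) ≤ m ∧ (Y.ncard : ℝ) ≤ v

def Thin (θ β C : ℝ) : Prop := ∀ η : ℝ, 0 < η → ∀ᶠ p in Num.Fth θ,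
  (({q : Tri (Fin (6 * p.1)) × Fin (6 * p.1) × Fin (6 * p.1) | q.1 ∈ Trn p.1 p.2 ∧
    ¬ Link q.1 q.2.1 q.2.2 (β * Real.log p.1) (C * Real.log p.1)}.ncard : ℕ) : ℝ) ≤
    η * (6 * (p.1 : ℝ)) ^ 2 * ((Trn p.1 p.2).ncard : ℕ)

structure Strip {D : Type} (S : Part D) (T : Tri D) (z z' : D) (Y : Set D) (m v : ℝ) : Prop where
  fs : Fs T Y
  dc : DC T Y
  hid : ∀ d ∈ Y, d ∉ S.R
  t1 : ∃ d ∈ S.B, S.s.SameCycle z d ∧ T.a d ∈ Y
  t2 : ∃ d ∈ S.B, S.s.SameCycle z' d ∧ T.a d ∈ Y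
  per : (({d | d ∈ Y ∧ T.a d ∉ Y ∧ T.a d ∉ S.R}.ncard : ℕ) : ℝ) ≤ m
  vol : (Y.ncard : ℝ) ≤ v

end SYS.US
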