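import Pool.Agent.SYS.US.Defs

/-!
# SYS-US-AdjC: number of triangulations in which the two holes of the seed are glued to each other directly

Union bound over the pairs of darts of the two holes, each term by `mrg_card`.
-/

namespace SYS.US

open SST Part Num XP UP

private theorem adj_repl {n : ℕ} {S : Part (Fin (6 * n))} {z z' d e : Fin (6 * n)} {p q F : ℕ}
    (hS : S.Typ [z, z'] [p, q] F 1) (hd : d ∈ S.B) (hzd : S.s.SameCycle z d) (he : e ∈ S.B)
    (hze : S.s.SameCycle z' e) : S.Typ [d, e] [p, q] F 1 := by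
  have h2 := hS.per
  simp only [List.map_cons, List.map_nil, List.cons.injEq, and_true] at h2
  have h1 := typ_perm hS (l' := [z', z]) (List.Perm.swap z' z [])
  have h3 := typ_repl h1 he hze
  have h4 := typ_perm h3 (l' := [z, e]) (List.Perm.swap z e [])
  have h5 := typ_repl h4 hd hzd
  have h6 : S.per e = S.per z' := (per_same S hze).symm
  simp only [List.map_cons, List.map_nil] at h5
  rw [h6, h2.1, h2.2] at h5
  exact h5

private theorem adj_one {n g : ℕ} {S : Part (Fin (6 * n))} {d e : Fin (6 * n)} {p q F : ℕ}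
    (hS : S.Typ [d, e] [p, q] F 1) (hg : 1 ≤ g) (hpq : 2 < p + q) :
    (({T | T ∈ S.Ext g ∧ S.HConn T ∧ T.a d = e}.ncard : ℕ) : ℝ) =
      ((3 * F).factorial : ℝ) * muG {p + q - 2} F (g - 1) := by
  have h := mrg_card (g := g) (h := g - 1) hS hpq (by omega)
  exact h

theorem adj_le {n g : ℕ} (hg : 1 ≤ g) {t : Et} (h1 : 2 ≤ t.1) (h2 : 2 ≤ t.2.1) {S0 : Part (Fin (6 * n))}
    {z z' : Fin (6 * n)} (hR : Reg t S0 z z') :
    (({T | T ∈ S0.Ext g ∧ S0.HConn T ∧ ¬ ∀ d ∈ S0.B, S0.s.SameCycle z d → T.a d ∈ S0.B → ¬ S0.s.SameCycle z' (T.a d)}.ncard : ℕ) : ℝ) ≤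
      ((3 * (2 * n - vE t)).factorial : ℝ) * (t.1 * t.2.1 * muG {t.1 + t.2.1 - 2} (2 * n - vE t) (g - 1)) := by
  classical
  have hz : z ∈ S0.B := hR.typ.hl.1 z (by simp)
  have hz' : z' ∈ S0.B := hR.typ.hl.1 z' (by simp)
  have hper := hR.typ.per
  simp only [List.map_cons, List.map_nil, List.cons.injEq, and_true] at hper
  have hl : (S0.hw z).length = t.1 := by rw [hw_length S0 hz, hper.1]
  have hl' : (S0.hw z').length = t.2.1 := by rw [hw_length S0 hz', hper.2]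
  have hsub : {T | T ∈ S0.Ext g ∧ S0.HConn T ∧
      ¬ ∀ d ∈ S0.B, S0.s.SameCycle z d → T.a d ∈ S0.B → ¬ S0.s.SameCycle z' (T.a d)} ⊆
      ⋃ p ∈ (S0.hw z).toFinset ×ˢ (S0.hw z').toFinset,
        {T | T ∈ S0.Ext g ∧ S0.HConn T ∧ T.a p.1 = p.2} := by
    rintro T ⟨h3, h4, h5⟩
    push Not at h5
    obtain ⟨d, hd, hzd, hTd, hzT⟩ := h5
    rw [Set.mem_iUnion₂]
    refine ⟨(d, T.a d), ?_, h3, h4, rfl⟩
    rw [Finset.mem_product, List.mem_toFinset, List.mem_toFinset]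
    exact ⟨(mem_hw S0 hz).2 ⟨hd, hzd⟩, (mem_hw S0 hz').2 ⟨hTd, hzT⟩⟩
  have hle := (Set.ncard_le_ncard hsub (Set.toFinite _)).trans (Finset.set_ncard_biUnion_le _ _)
  have hsum : (∑ p ∈ (S0.hw z).toFinset ×ˢ (S0.hw z').toFinset,
      (({T | T ∈ S0.Ext g ∧ S0.HConn T ∧ T.a p.1 = p.2}.ncard : ℕ) : ℝ)) =
      ((3 * (2 * n - vE t)).factorial : ℝ) *
        (t.1 * t.2.1 * muG {t.1 + t.2.1 - 2} (2 * n - vE t) (g - 1)) := by
    have hterm : ∀ p ∈ (S0.hw z).toFinset ×ˢ (S0.hw z').toFinset,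
        (({T | T ∈ S0.Ext g ∧ S0.HConn T ∧ T.a p.1 = p.2}.ncard : ℕ) : ℝ) =
        ((3 * (2 * n - vE t)).factorial : ℝ) * muG {t.1 + t.2.1 - 2} (2 * n - vE t) (g - 1) := by
      intro p hp
      rw [Finset.mem_product, List.mem_toFinset, List.mem_toFinset] at hp
      have h3 := (mem_hw S0 hz).1 hp.1
      have h4 := (mem_hw S0 hz').1 hp.2
      exact adj_one (adj_repl hR.typ h3.1 h3.2 h4.1 h4.2) hg (by omega)
    rw [Finset.sum_congr rfl hterm, Finset.sum_const, Finset.card_product,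
      List.toFinset_card_of_nodup (hw_nodup S0 hz), List.toFinset_card_of_nodup (hw_nodup S0 hz'),
      hl, hl', nsmul_eq_mul]
    push_cast
    ring
  rw [← hsum]
  exact_mod_cast hle

end SYS.US
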