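import Pool.Agent.SYS.US.Defs

/-!
# SYS-US-Chi: identification of the hidden sides of two regions with the same perimeters
-/

namespace SYS.US

open SST Part Num XP

section aux

variable {D : Type} [Finite D]

private noncomputable def pd (σ : Equiv.Perm D) (x : D) : ℕ := Function.minimalPeriod σ x

private theorem pd_pos (σ : Equiv.Perm D) (x : D) : 0 < pd σ x := by
  refine Function.IsPeriodicPt.minimalPeriod_pos (n := orderOf σ) (orderOf_pos σ) ?_
  unfold Function.IsPeriodicPt Function.IsFixedPt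
  rw [Equiv.Perm.iterate_eq_pow, pow_orderOf_eq_one]
  rfl

omit [Finite D] in
private theorem pd_mod (σ : Equiv.Perm D) (x : D) (i : ℕ) : (σ ^ (i % pd σ x)) x = (σ ^ i) x := by
  rw [← Equiv.Perm.iterate_eq_pow, ← Equiv.Perm.iterate_eq_pow]
  exact Function.iterate_mod_minimalPeriod_eq

omit [Finite D] in
private theorem pd_inj (σ : Equiv.Perm D) (x : D) {i j : ℕ} (hi : i < pd σ x) (hj : j < pd σ x)
    (h : (σ ^ i) x = (σ ^ j) x) : i = j := by
  rw [← Equiv.Perm.iterate_eq_pow, ← Equiv.Perm.iterate_eq_pow] at h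
  exact Function.iterate_injOn_Iio_minimalPeriod (f := σ) (x := x) hi hj h

private theorem pd_iff (σ : Equiv.Perm D) (x : D) (i j : ℕ) :
    (σ ^ i) x = (σ ^ j) x ↔ i % pd σ x = j % pd σ x := by
  constructor
  · intro h
    rw [← pd_mod σ x i, ← pd_mod σ x j] at h
    exact pd_inj σ x (Nat.mod_lt _ (pd_pos σ x)) (Nat.mod_lt _ (pd_pos σ x)) h
  · intro h
    rw [← pd_mod σ x i, h, pd_mod]

private theorem same_pow (S : Part D) {x d : D} (hx : x ∈ S.B) (hd : d ∈ S.B)
    (h : S.s.SameCycle x d) : ∃ i < pd S.nx x, (S.nx ^ i) x = d := by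
  have h1 : S.nx.SameCycle x d := (ret_same S.s hx hd).2 h
  obtain ⟨i, hi⟩ := h1.exists_nat_pow_eq
  exact ⟨i % pd S.nx x, Nat.mod_lt _ (pd_pos _ _), by rw [pd_mod, hi]⟩

private theorem per_eq (S : Part D) {x : D} (hx : x ∈ S.B) : S.per x = pd S.nx x := by
  have h : S.hole x = (fun i => (S.nx ^ i) x) '' (Finset.range (pd S.nx x) : Set ℕ) := by
    ext e
    constructor
    · rintro ⟨h1, h2⟩
      obtain ⟨i, hi, h⟩ := same_pow S hx h1 h2
      exact ⟨i, Finset.mem_coe.2 (Finset.mem_range.2 hi), h⟩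
    · rintro ⟨i, hi, rfl⟩
      exact nx_pow_same S hx i
  unfold per
  rw [h, Set.InjOn.ncard_image, Set.ncard_coe_finset, Finset.card_range]
  intro i hi j hj hij
  exact pd_inj S.nx x (Finset.mem_range.1 (Finset.mem_coe.1 hi))
    (Finset.mem_range.1 (Finset.mem_coe.1 hj)) hij

end aux

/-- the map of one hole to another hole of the same perimeter -/
private theorem hole_map {D D' : Type} [Finite D] [Finite D'] (S : Part D) (U : Part D') {z : D}
    {w : D'} (hz : z ∈ S.B) (hw : w ∈ U.B) (h : S.per z = U.per w) :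
    ∃ f : D → D', (∀ i : ℕ, f ((S.nx ^ i) z) = (U.nx ^ i) w) ∧
      ∀ i j : ℕ, (U.nx ^ i) w = (U.nx ^ j) w → (S.nx ^ i) z = (S.nx ^ j) z := by
  classical
  have hp : pd S.nx z = pd U.nx w := by rw [← per_eq S hz, ← per_eq U hw, h]
  refine ⟨fun d => if hd : ∃ i : ℕ, (S.nx ^ i) z = d then (U.nx ^ hd.choose) w else w, ?_, ?_⟩
  · intro i
    have hd : ∃ j : ℕ, (S.nx ^ j) z = (S.nx ^ i) z := ⟨i, rfl⟩
    simp only [dif_pos hd]
    rw [pd_iff, ← hp, ← pd_iff]
    exact hd.choose_spec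
  · intro i j hij
    rw [pd_iff, ← hp, ← pd_iff] at hij
    exact hij

theorem exists_chi {n n' F q1 q2 κ κ' : ℕ} {S : Part (Fin (6 * n))} {U : Part (Fin (6 * n'))} {z z' : Fin (6 * n)}
    {w w' : Fin (6 * n')} (hS : S.Typ [z, z'] [q1, q2] F κ) (hU : U.Typ [w, w'] [q1, q2] F κ') :
    ∃ χ : Fin (6 * n) → Fin (6 * n'), Set.InjOn χ S.X ∧ (∀ d, d ∉ S.R → χ d ∉ U.R) ∧ χ '' S.B = U.B ∧
      (∀ d ∈ S.B, U.nx (χ d) = χ (S.nx d)) ∧ χ z = w ∧ χ z' = w' := by
  classical
  have hz : z ∈ S.B := hS.hl.1 z (by simp)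
  have hz' : z' ∈ S.B := hS.hl.1 z' (by simp)
  have hw : w ∈ U.B := hU.hl.1 w (by simp)
  have hw' : w' ∈ U.B := hU.hl.1 w' (by simp)
  have hzz : ¬ S.s.SameCycle z z' := by
    have := hS.hl.2.1
    rw [List.pairwise_cons] at this
    exact this.1 z' (by simp)
  have hww : ¬ U.s.SameCycle w w' := by
    have := hU.hl.2.1
    rw [List.pairwise_cons] at this
    exact this.1 w' (by simp)
  have hpS := hS.per
  have hpU := hU.per
  simp only [List.map_cons, List.map_nil, List.cons.injEq, and_true] at hpS hpU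
  obtain ⟨f, hf, hf'⟩ := hole_map S U hz hw (by rw [hpS.1, hpU.1])
  obtain ⟨g, hg, hg'⟩ := hole_map S U hz' hw' (by rw [hpS.2, hpU.2])
  -- the hidden darts
  have hcard : ∀ {m κ0 : ℕ} {l : List (Fin (6 * m))} {V : Part (Fin (6 * m))},
      V.Typ l [q1, q2] F κ0 → Nat.card {d // d ∉ V.R} = 3 * F := by
    intro m κ0 l V hV
    have h1 := hV.vol
    have h2 := Set.ncard_add_ncard_compl V.R
    have h3 : (V.Rᶜ : Set (Fin (6 * m))).ncard = Nat.card {d // d ∉ V.R} := rfl
    omega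
  have e : {d // d ∉ S.R} ≃ {d // d ∉ U.R} := (Finite.card_eq.1 (by rw [hcard hS, hcard hU])).some
  have hBR : ∀ {m : ℕ} {V : Part (Fin (6 * m))} {d : Fin (6 * m)}, d ∈ V.B → d ∈ V.R := fun h => h.1
  let χ : Fin (6 * n) → Fin (6 * n') := fun d =>
    if d ∈ S.B ∧ S.s.SameCycle z d then f d else if d ∈ S.B then g d else
      if hd : d ∉ S.R then (e ⟨d, hd⟩ : Fin (6 * n')) else w
  have hχz : ∀ i : ℕ, χ ((S.nx ^ i) z) = (U.nx ^ i) w := by
    intro i
    have h1 := nx_pow_same S hz i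
    simp only [χ]
    rw [if_pos h1, hf]
  have hχz' : ∀ i : ℕ, χ ((S.nx ^ i) z') = (U.nx ^ i) w' := by
    intro i
    have h1 := nx_pow_same S hz' i
    have h2 : ¬ ((S.nx ^ i) z' ∈ S.B ∧ S.s.SameCycle z ((S.nx ^ i) z')) :=
      fun h3 => hzz (h3.2.trans h1.2.symm)
    simp only [χ]
    rw [if_neg h2, if_pos h1.1, hg]
  have hχh : ∀ (d : Fin (6 * n)) (hd : d ∉ S.R), χ d = (e ⟨d, hd⟩ : Fin (6 * n')) := by
    intro d hd
    have h1 : d ∉ S.B := fun h => hd (hBR h)
    simp only [χ]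
    rw [if_neg (fun h => h1 h.1), if_neg h1, dif_pos hd]
  have hcov : ∀ d ∈ S.B, (∃ i : ℕ, (S.nx ^ i) z = d) ∨ ∃ i : ℕ, (S.nx ^ i) z' = d := by
    intro d hd
    obtain ⟨x, hx, hxd⟩ := hS.hl.2.2 d hd
    simp only [List.mem_cons, List.not_mem_nil, or_false] at hx
    rcases hx with rfl | rfl
    · obtain ⟨i, -, hi⟩ := same_pow S hz hd hxd
      exact Or.inl ⟨i, hi⟩
    · obtain ⟨i, -, hi⟩ := same_pow S hz' hd hxd
      exact Or.inr ⟨i, hi⟩
  have hcovU : ∀ d ∈ U.B, (∃ i : ℕ, (U.nx ^ i) w = d) ∨ ∃ i : ℕ, (U.nx ^ i) w' = d := by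
    intro d hd
    obtain ⟨x, hx, hxd⟩ := hU.hl.2.2 d hd
    simp only [List.mem_cons, List.not_mem_nil, or_false] at hx
    rcases hx with rfl | rfl
    · obtain ⟨i, -, hi⟩ := same_pow U hw hd hxd
      exact Or.inl ⟨i, hi⟩
    · obtain ⟨i, -, hi⟩ := same_pow U hw' hd hxd
      exact Or.inr ⟨i, hi⟩
  have hχB : ∀ d ∈ S.B, χ d ∈ U.B := by
    intro d hd
    rcases hcov d hd with ⟨i, rfl⟩ | ⟨i, rfl⟩
    · rw [hχz]
      exact (nx_pow_same U hw i).1
    · rw [hχz']
      exact (nx_pow_same U hw' i).1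
  have hχR : ∀ d, d ∉ S.R → χ d ∉ U.R := by
    intro d hd
    rw [hχh d hd]
    exact (e ⟨d, hd⟩).2
  refine ⟨χ, ?_, hχR, ?_, ?_, ?_, ?_⟩
  · -- injectivity
    intro d hd d' hd' hdd
    rcases hd with h1 | h1
    · rcases hd' with h2 | h2
      · rw [hχh d h1, hχh d' h2] at hdd
        have h3 := e.injective (Subtype.ext hdd)
        exact congrArg Subtype.val h3
      · exfalso
        apply hχR d h1
        rw [hdd]
        exact hBR (hχB d' h2)
    · rcases hd' with h2 | h2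
      · exfalso
        apply hχR d' h2
        rw [← hdd]
        exact hBR (hχB d h1)
      · rcases hcov d h1 with ⟨i, rfl⟩ | ⟨i, rfl⟩
        · rcases hcov d' h2 with ⟨j, rfl⟩ | ⟨j, rfl⟩
          · rw [hχz, hχz] at hdd
            exact hf' i j hdd
          · exfalso
            rw [hχz, hχz'] at hdd
            apply hww
            have h3 := (nx_pow_same U hw i).2
            rw [hdd] at h3
            exact h3.trans (nx_pow_same U hw' j).2.symm
        · rcases hcov d' h2 with ⟨j, rfl⟩ | ⟨j, rfl⟩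
          · exfalso
            rw [hχz, hχz'] at hdd
            apply hww
            have h3 := (nx_pow_same U hw j).2
            rw [← hdd] at h3
            exact h3.trans (nx_pow_same U hw' i).2.symm
          · rw [hχz', hχz'] at hdd
            exact hg' i j hdd
  · ext d
    constructor
    · rintro ⟨d', hd', rfl⟩
      exact hχB d' hd'
    · intro hd
      rcases hcovU d hd with ⟨i, rfl⟩ | ⟨i, rfl⟩
      · exact ⟨_, (nx_pow_same S hz i).1, hχz i⟩
      · exact ⟨_, (nx_pow_same S hz' i).1, hχz' i⟩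
  · intro d hd
    rcases hcov d hd with ⟨i, rfl⟩ | ⟨i, rfl⟩
    · have h1 : S.nx ((S.nx ^ i) z) = (S.nx ^ (i + 1)) z := by
        rw [pow_succ', Equiv.Perm.mul_apply]
      rw [h1, hχz, hχz, pow_succ', Equiv.Perm.mul_apply]
    · have h1 : S.nx ((S.nx ^ i) z') = (S.nx ^ (i + 1)) z' := by
        rw [pow_succ', Equiv.Perm.mul_apply]
      rw [h1, hχz', hχz', pow_succ', Equiv.Perm.mul_apply]
  · exact hχz 0
  · exact hχz' 0

end SYS.US
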