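import Pool.Agent.SYS.US.Defs
import Pool.Agent.SYS.UP.RchC

/-!
# SYS-US-Disc: a region of two discs with given perimeters (built by hand from triangles and one gluing)
-/

namespace SYS.US

open SST Part Num XP

def dv : ℕ → ℕ
  | 0 => 0
  | 1 => 1
  | 2 => 2
  | q + 3 => q + 1

theorem dv_par (q : ℕ) : Even (dv q + q) := by
  match q with
  | 0 => exact ⟨0, rfl⟩
  | 1 => exact ⟨1, rfl⟩
  | 2 => exact ⟨2, rfl⟩
  | q + 3 =>
    refine ⟨q + 2, ?_⟩
    show q + 1 + (q + 3) = q + 2 + (q + 2)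
    ring

open Classical in
private theorem ud_swap {D : Type} {Z : Set D} {x y : D} (hx : x ∉ Z) (hy : y ∉ Z) (d : D) :
    Equiv.swap x y d ∈ Z ↔ d ∈ Z := by
  rcases eq_or_ne d x with rfl | h1
  · rw [Equiv.swap_apply_left]
    exact iff_of_false hy hx
  · rcases eq_or_ne d y with rfl | h2
    · rw [Equiv.swap_apply_right]
      exact iff_of_false hx hy
    · rw [Equiv.swap_apply_of_ne_of_ne h1 h2]

open Classical in
private theorem ud_cyc {D : Type} {Z : Set D} {t0 t1 t2 : D} (h0 : t0 ∉ Z) (h1 : t1 ∉ Z) (h2 : t2 ∉ Z) (d : D) :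
    cyc3 t0 t1 t2 d ∈ Z ↔ d ∈ Z := by
  unfold cyc3
  rw [Equiv.Perm.mul_apply, ud_swap h0 h1, ud_swap h1 h2]

/-- invariant of the construction of a new disc with the dart `y` in the complement of `S` -/
private structure DI {D : Type} (S U : Part D) (y w : D) : Prop where
  sub : S.Sub U
  ia : ∀ d, U.a d ∈ S.R ↔ d ∈ S.R
  iff : ∀ d, U.f d ∈ S.R ↔ d ∈ S.R
  yR : y ∈ U.R
  yS : y ∉ S.R
  wB : w ∈ U.B
  wS : w ∉ S.R
  cn : ∀ d ∈ U.R, d ∉ S.R → U.Cn y d

private theorem ud_three {D : Type} [Finite D] {S : Part D} {l : List D} {P : List ℕ} {F κ : ℕ}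
    (hS : S.Typ l P (F + 1) κ) : ∃ t0 t1 t2 : D, t0 ∉ S.R ∧ t1 ∉ S.R ∧ t2 ∉ S.R ∧ t0 ≠ t1 ∧ t1 ≠ t2 ∧ t2 ≠ t0 := by
  have h1 := Set.ncard_add_ncard_compl S.R
  have h2 := hS.vol
  have h3 : 2 < (S.Rᶜ).ncard := by omega
  obtain ⟨a, b, c, ha, hb, hc, hab, hac, hbc⟩ := (Set.two_lt_ncard_iff).1 h3
  exact ⟨a, b, c, ha, hb, hc, hab, hbc, hac.symm⟩

open Classical in
private theorem ud_base {D : Type} [Finite D] {S : Part D} {l : List D} {P : List ℕ} {F κ : ℕ}
    (hS : S.Typ l P (F + 1) κ) : ∃ (U : Part D) (y : D), U.Typ (y :: l) (3 :: P) F κ ∧ DI S U y y := by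
  obtain ⟨t0, t1, t2, h0, h1, h2, h01, h12, h20⟩ := ud_three hS
  obtain ⟨U, hU⟩ : ∃ U, U = S.newTri t0 t1 t2 h0 h1 h2 h01 h12 h20 := ⟨_, rfl⟩
  have hR : U.R = S.R ∪ {t0, t1, t2} := by rw [hU, newTri_R]
  have hB : U.B = S.B ∪ {t0, t1, t2} := by rw [hU, newTri_B]
  have e0 : U.f t0 = t1 := by
    rw [hU]
    have hf : S.f t1 = t1 := not_not.1 h1
    show (S.f * cyc3 t0 t1 t2) t0 = t1
    rw [Equiv.Perm.mul_apply, cyc3, Equiv.Perm.mul_apply, Equiv.swap_apply_of_ne_of_ne h01 h20.symm,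
      Equiv.swap_apply_left, hf]
  have e1 : U.f t1 = t2 := by
    rw [hU]
    have hf : S.f t2 = t2 := not_not.1 h2
    show (S.f * cyc3 t0 t1 t2) t1 = t2
    rw [Equiv.Perm.mul_apply, cyc3, Equiv.Perm.mul_apply, Equiv.swap_apply_left,
      Equiv.swap_apply_of_ne_of_ne h20 h12.symm, hf]
  have c1 : U.Cn t0 t1 := by
    have := cn_f U t0
    rwa [e0] at this
  have c2 : U.Cn t0 t2 := by
    have := cn_f U t1
    rw [e1] at this
    exact cn_trans c1 this
  refine ⟨U, t0, ?_, ?_⟩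
  · rw [hU]
    exact typ_newTri hS h0 h1 h2 h01 h12 h20
  · refine ⟨?_, ?_, ?_, ?_, h0, ?_, h0, ?_⟩
    · rw [hU]
      exact newTri_sub S h0 h1 h2 h01 h12 h20
    · intro d
      rw [hU]
      exact mem_R_a S d
    · intro d
      rw [hU]
      show S.f (cyc3 t0 t1 t2 d) ∈ S.R ↔ _
      rw [mem_R_f, ud_cyc h0 h1 h2]
    · rw [hR]
      right
      simp
    · rw [hB]
      right
      simp
    · intro d hd hd'
      rw [hR] at hd
      rcases hd with hd | hd | hd | hd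
      · exact absurd hd hd'
      · rw [hd]
        exact cn_refl U t0
      · rw [hd]
        exact c1
      · rw [show d = t2 from hd]
        exact c2

open Classical in
private theorem ud_face {D : Type} [Finite D] {S U : Part D} {y w : D} {l : List D} {p : ℕ} {P : List ℕ} {F κ : ℕ}
    (hU : U.Typ (w :: l) (p :: P) (F + 1) κ) (hI : DI S U y w) :
    ∃ (U' : Part D) (w' : D), U'.Typ (w' :: l) ((p + 1) :: P) F κ ∧ DI S U' y w' := by
  obtain ⟨t0, t1, t2, h0, h1, h2, h01, h12, h20⟩ := ud_three hU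
  have hw := hI.wB
  have s0 : t0 ∉ S.R := fun h => h0 (hI.sub.R_sub h)
  have s1 : t1 ∉ S.R := fun h => h1 (hI.sub.R_sub h)
  have s2 : t2 ∉ S.R := fun h => h2 (hI.sub.R_sub h)
  obtain ⟨U', hU'⟩ : ∃ U', U' = U.face w t0 t1 t2 hw h0 h1 h2 h01 h12 h20 := ⟨_, rfl⟩
  have hR : U'.R = U.R ∪ {t0, t1, t2} := by rw [hU', face_R]
  have hB : U'.B = (U.B \ {w}) ∪ {t1, t2} := by rw [hU', face_B]
  have hsub : U.Sub U' := by
    rw [hU']
    exact face_sub U hw h0 h1 h2 h01 h12 h20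
  have ew : U'.a w = t0 := by
    rw [hU']
    have hf : U.f t0 = t0 := not_not.1 h0
    have ha : U.a t0 = t0 := U.af t0 hf
    show (U.a * Equiv.swap w t0) w = t0
    rw [Equiv.Perm.mul_apply, Equiv.swap_apply_left, ha]
  have e0 : U'.f t0 = t1 := by
    rw [hU']
    have hf : U.f t1 = t1 := not_not.1 h1
    show (U.f * cyc3 t0 t1 t2) t0 = t1
    rw [Equiv.Perm.mul_apply, cyc3, Equiv.Perm.mul_apply, Equiv.swap_apply_of_ne_of_ne h01 h20.symm,
      Equiv.swap_apply_left, hf]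
  have e1 : U'.f t1 = t2 := by
    rw [hU']
    have hf : U.f t2 = t2 := not_not.1 h2
    show (U.f * cyc3 t0 t1 t2) t1 = t2
    rw [Equiv.Perm.mul_apply, cyc3, Equiv.Perm.mul_apply, Equiv.swap_apply_left,
      Equiv.swap_apply_of_ne_of_ne h20 h12.symm, hf]
  have cw : U'.Cn y w := cn_sub hsub hI.yR (hI.cn w hw.1 hI.wS)
  have c0 : U'.Cn y t0 := by
    have := cn_a U' w
    rw [ew] at this
    exact cn_trans cw this
  have c1 : U'.Cn y t1 := by
    have := cn_f U' t0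
    rw [e0] at this
    exact cn_trans c0 this
  have c2 : U'.Cn y t2 := by
    have := cn_f U' t1
    rw [e1] at this
    exact cn_trans c1 this
  refine ⟨U', t1, ?_, ?_⟩
  · rw [hU']
    exact typ_face hU hw h0 h1 h2 h01 h12 h20
  · refine ⟨sub_trans hI.sub hsub, ?_, ?_, hsub.R_sub hI.yR, hI.yS, ?_, s1, ?_⟩
    · intro d
      rw [hU']
      show U.a (Equiv.swap w t0 d) ∈ S.R ↔ _
      rw [hI.ia, ud_swap hI.wS s0]
    · intro d
      rw [hU']
      show U.f (cyc3 t0 t1 t2 d) ∈ S.R ↔ _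
      rw [hI.iff, ud_cyc s0 s1 s2]
    · rw [hB]
      right
      simp
    · intro d hd hd'
      rw [hR] at hd
      rcases hd with hd | hd | hd | hd
      · exact cn_sub hsub hI.yR (hI.cn d hd hd')
      · rw [hd]
        exact c0
      · rw [hd]
        exact c1
      · rw [show d = t2 from hd]
        exact c2

private theorem ud_cn_iff {D : Type} {S U : Part D} {y w : D} (hI : DI S U y w) {d e : D} (h : U.Cn d e) :
    d ∈ S.R ↔ e ∈ S.R := by
  induction h with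
  | rel d e h =>
    rcases h with h | h
    · rw [h, hI.ia]
    · rw [h, hI.iff]
  | refl d => exact Iff.rfl
  | symm d e _ ih => exact ih.symm
  | trans d e k _ _ ih1 ih2 => exact ih1.trans ih2

open Classical in
private theorem ud_glue {D : Type} [Finite D] {S U : Part D} {y w : D} {l : List D} {p : ℕ} {P : List ℕ} {F κ : ℕ}
    (hU : U.Typ (w :: l) ((p + 3) :: P) F κ) (hI : DI S U y w) :
    ∃ (U' : Part D) (w' : D), U'.Typ (w' :: l) ((p + 1) :: P) F κ ∧ DI S U' y w' := by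
  have hw := hI.wB
  have hper : U.per w = p + 3 := by
    have h1 := hU.per
    rw [List.map_cons] at h1
    injection h1
  have hlen := hw_length U hw
  obtain ⟨u0, hu0⟩ := hw_cons U hw
  rw [hu0, List.length_cons, hper] at hlen
  obtain ⟨z, u1, rfl⟩ := List.exists_cons_of_length_pos (show 0 < u0.length by omega)
  rw [List.length_cons] at hlen
  obtain ⟨u, y', rfl⟩ : ∃ u y', u1 = u ++ [y'] := by
    rcases List.eq_nil_or_concat u1 with h | ⟨u, y', h⟩
    · rw [h] at hlen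
      simp at hlen
    · exact ⟨u, y', by rw [h, List.concat_eq_append]⟩
  rw [List.length_append, List.length_singleton] at hlen
  have hy'B : y' ∈ U.B ∧ U.s.SameCycle w y' := by
    rw [← mem_hw U hw, hu0]
    simp
  have hzB : z ∈ U.B ∧ U.s.SameCycle w z := by
    rw [← mem_hw U hw, hu0]
    simp
  have hn := hw_nodup U hw
  rw [hu0] at hn
  have hwz : w ≠ z := by
    rintro rfl
    simp at hn
  have hwy : w ≠ y' := by
    rintro rfl
    simp at hn
  have hzy : z ≠ y' := by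
    rintro rfl
    simp at hn
  have sy : y' ∉ S.R := fun h => hI.wS ((ud_cn_iff hI (cn_of_same hy'B.2)).2 h)
  have sz : z ∉ S.R := fun h => hI.wS ((ud_cn_iff hI (cn_of_same hzB.2)).2 h)
  have hwd : U.hw w = w :: (z :: u ++ [y']) := hu0
  have hT := typ_l0 hU hw hy'B.1 hwd
  obtain ⟨U', hU'⟩ : ∃ U', U' = U.glue w y' hw hy'B.1 := ⟨_, rfl⟩
  rw [← hU'] at hT
  have hup : u.length + 1 = p + 1 := by omega
  rw [hup] at hT
  have hsub : U.Sub U' := by
    rw [hU']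
    exact glue_sub U hw hy'B.1
  have hR : U'.R = U.R := by rw [hU', glue_R]
  have hB : U'.B = U.B \ {w, y'} := by rw [hU', glue_B U hw hy'B.1 hwy]
  refine ⟨U', z, hT, sub_trans hI.sub hsub, ?_, ?_, hsub.R_sub hI.yR, hI.yS, ?_, sz, ?_⟩
  · intro d
    rw [hU']
    show U.a (Equiv.swap w y' d) ∈ S.R ↔ _
    rw [hI.ia, ud_swap hI.wS sy]
  · intro d
    rw [hU']
    exact hI.iff d
  · rw [hB]
    refine ⟨hzB.1, ?_⟩
    rintro (h | h)
    · exact hwz h.symm
    · exact hzy h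
  · intro d hd hd'
    rw [hR] at hd
    exact cn_sub hsub hI.yR (hI.cn d hd hd')

private theorem ud_big {D : Type} [Finite D] {S : Part D} {l : List D} {P : List ℕ} {κ : ℕ} (k : ℕ) :
    ∀ F, S.Typ l P (F + (k + 1)) κ → ∃ (U : Part D) (y w : D), U.Typ (w :: l) ((k + 3) :: P) F κ ∧ DI S U y w := by
  induction k with
  | zero =>
    intro F hS
    obtain ⟨U, y, h1, h2⟩ := ud_base hS
    exact ⟨U, y, y, h1, h2⟩
  | succ k ih =>
    intro F hS
    obtain ⟨U, y, w, h1, h2⟩ := ih (F + 1) (by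
      rw [show F + 1 + (k + 1) = F + (k + 1 + 1) by ring]
      exact hS)
    obtain ⟨U', w', h3, h4⟩ := ud_face h1 h2
    exact ⟨U', y, w', h3, h4⟩

private theorem ud_disc {D : Type} [Finite D] {S : Part D} {l : List D} {P : List ℕ} {F κ q : ℕ} (hq : 1 ≤ q)
    (hS : S.Typ l P (F + dv q) κ) : ∃ (U : Part D) (y w : D), U.Typ (w :: l) (q :: P) F κ ∧ DI S U y w := by
  match q, hq, hS with
  | 1, _, hS =>
    obtain ⟨U, y, w, h1, h2⟩ := ud_big 0 F hS
    obtain ⟨U', w', h3, h4⟩ := ud_glue (p := 0) h1 h2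
    exact ⟨U', y, w', h3, h4⟩
  | 2, _, hS =>
    obtain ⟨U, y, w, h1, h2⟩ := ud_big 1 F hS
    obtain ⟨U', w', h3, h4⟩ := ud_glue (p := 1) h1 h2
    exact ⟨U', y, w', h3, h4⟩
  | q + 3, _, hS => exact ud_big q F hS

theorem exists_disc2 {n' q1 q2 F : ℕ} (h1 : 1 ≤ q1) (h2 : 1 ≤ q2) (hn : dv q1 + dv q2 + F = 2 * n') :
    ∃ (U : Part (Fin (6 * n'))) (x y w w' : Fin (6 * n')), U.Typ [w, w'] [q1, q2] F 0 ∧ x ∈ U.R ∧ y ∈ U.R ∧
      U.Cn x w ∧ U.Cn y w' ∧ ¬ U.Cn x y ∧ ∀ d ∈ U.R, U.Cn x d ∨ U.Cn y d := by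
  have hd1 : 1 ≤ dv q1 := by
    match q1, h1 with
    | 1, _ => exact le_refl 1
    | 2, _ => exact (by norm_num : 1 ≤ 2)
    | q + 3, _ => exact Nat.le_add_left 1 q
  have hn' : 1 ≤ n' := by omega
  have hE := typ_emp hn'
  rw [show 2 * n' = (F + dv q2) + dv q1 by omega] at hE
  obtain ⟨U1, x, w, hT1, hI1⟩ := ud_disc h1 hE
  obtain ⟨U, y, w', hT, hI⟩ := ud_disc h2 hT1
  have hp := hT.per
  rw [List.map_cons, List.map_cons, List.map_nil] at hp
  have hp2 : U.per w' = q2 ∧ U.per w = q1 := by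
    injection hp with a b
    injection b with b c
    exact ⟨a, b⟩
  have hT' := typ_perm hT (List.Perm.swap w w' [])
  rw [List.map_cons, List.map_cons, List.map_nil, hp2.1, hp2.2] at hT'
  have hR1 : ∀ d ∈ U1.R, U1.Cn x d := fun d hd => hI1.cn d hd (fun h => h rfl)
  refine ⟨U, x, y, w, w', hT', hI.sub.R_sub hI1.yR, hI.yR, cn_sub hI.sub hI1.yR (hR1 w hI1.wB.1),
    hI.cn w' hI.wB.1 hI.wS, ?_, ?_⟩
  · intro h
    exact hI.yS ((ud_cn_iff hI h).1 hI1.yR)
  · intro d hd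
    by_cases h : d ∈ U1.R
    · exact Or.inl (cn_sub hI.sub hI1.yR (hR1 d h))
    · exact Or.inr (hI.cn d hd h)

end SYS.US
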