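import Pool.Agent.SYS.US.Defs

/-!
# SYS-US-LinkA: a connected set of faces through two discs contains a strip between them

`U` = two components (of `x` and of `y`), holes `w` (component of `x`) and `w'` (component of `y`).
PLAN.  `Y` from `Link`.  Components of `Y \ U.R` under `T.f` and `T.a` (within `Y \ U.R`): relation `EqvGen`; a component `C` satisfies `Fs T C`, `DC T C` (`U.R` and its complement are `T.f`-invariant: `le_f_mem`).  Let `Z = {d ∈ Y | d ∈ U.R, U.Cn x d} ∪ ⋃ {C | C touches the component of x: ∃ d ∈ U.B, Cn x d, T.a d ∈ C}`.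
If no component touches both discs then `Z` is closed under `T.f` and under `T.a` within `Y`: for `d ∈ U.R`, `Cn x d`, `T.a d ∈ Y`: if `d ∉ U.B` then `T.a d = U.a d` is related to `d`; if `d ∈ U.B`: `T.a d ∉ U.R` is in a component which touches disc `x`, or `T.a d ∈ U.B` (`peel`), in the hole of `w` or of `w'` (`HL`), the second is
excluded by `hadj` (`d` is in the hole of `w`: it is in the hole of `w` or `w'`, and the hole of `w'` is in the component of `y`), so `T.a d` is related to `w`, `x`.  For `d ∈ C`: `T.a d ∈ Y` is in `C` or in `U.R`, then in `U.B` (`d = T.a (T.a d) ∉ U.R`), so in the component of `x` (otherwise `C` touches both).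
`DC T Y` gives `Z = Y`, but `y ∈ Y \ Z`: contradiction.  So some `C` touches both (`Cn y d`, `d ∈ U.B` implies that `d` is in the hole of `w'`).  The darts of `C` glued to hidden darts outside `C` are in `bdy T Y` (the component is closed in `Y \ U.R`).
-/

namespace SYS.US

open SST Part Num XP

/-- adjacency inside `H` -/
private def rel {D : Type} (T : Tri D) (H : Set D) (d e : D) : Prop :=
  d ∈ H ∧ e ∈ H ∧ (e = T.f d ∨ e = T.a d)

/-- the component of `d0` in `H` -/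
private def K {D : Type} (T : Tri D) (H : Set D) (d0 : D) : Set D := {d | Relation.EqvGen (rel T H) d0 d}

private theorem K_iff {D : Type} {T : Tri D} {H : Set D} {a b : D} (h : Relation.EqvGen (rel T H) a b) :
    a ∈ H ↔ b ∈ H := by
  induction h with
  | rel a b h => exact ⟨fun _ => h.2.1, fun _ => h.1⟩
  | refl a => exact Iff.rfl
  | symm a b _ ih => exact ih.symm
  | trans a b c _ _ ih1 ih2 => exact ih1.trans ih2

private theorem K_sub {D : Type} {T : Tri D} {H : Set D} {d0 d : D} (h0 : d0 ∈ H) (h : d ∈ K T H d0) : d ∈ H :=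
  (K_iff h).1 h0

private theorem K_a {D : Type} {T : Tri D} {H : Set D} {d0 d : D} (h0 : d0 ∈ H) (h : d ∈ K T H d0)
    (ha : T.a d ∈ H) : T.a d ∈ K T H d0 :=
  Relation.EqvGen.trans _ _ _ h (Relation.EqvGen.rel _ _ ⟨K_sub h0 h, ha, Or.inr rfl⟩)

private theorem K_fs {D : Type} {T : Tri D} {H : Set D} (hH : ∀ d, T.f d ∈ H ↔ d ∈ H) {d0 : D} (h0 : d0 ∈ H) :
    Fs T (K T H d0) := by
  intro d
  constructor
  · intro h
    have h1 : d ∈ H := (hH d).1 (K_sub h0 h)
    exact Relation.EqvGen.trans _ _ _ h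
      (Relation.EqvGen.symm _ _ (Relation.EqvGen.rel _ _ ⟨h1, (hH d).2 h1, Or.inl rfl⟩))
  · intro h
    have h1 : d ∈ H := K_sub h0 h
    exact Relation.EqvGen.trans _ _ _ h (Relation.EqvGen.rel _ _ ⟨h1, (hH d).2 h1, Or.inl rfl⟩)

private theorem K_dc {D : Type} {T : Tri D} {H : Set D} {d0 : D} (h0 : d0 ∈ H) : DC T (K T H d0) := by
  intro Z hZ hne hf ha
  refine Set.Subset.antisymm hZ fun d hd => ?_
  obtain ⟨z, hz⟩ := hne
  have key : ∀ a b, Relation.EqvGen (rel T H) a b → (a ∈ Z ↔ b ∈ Z) := by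
    intro a b h
    induction h with
    | rel a b h =>
      obtain ⟨h1, h2, h3⟩ := h
      rcases h3 with h3 | h3
      · rw [h3]
        refine ⟨hf a, fun h4 => ?_⟩
        have h5 := hf _ (hf _ h4)
        rw [T.fff] at h5
        exact h5
      · have h4 : a = T.a b := by rw [h3, T.aa]
        constructor
        · intro h5
          rw [h3] at h2 ⊢
          exact ha a h5 (K_a h0 (hZ h5) h2)
        · intro h5
          rw [h4] at h1 ⊢
          exact ha b h5 (K_a h0 (hZ h5) h1)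
    | refl a => exact Iff.rfl
    | symm a b _ ih => exact ih.symm
    | trans a b c _ _ ih1 ih2 => exact ih1.trans ih2
  have h1 : Relation.EqvGen (rel T H) z d :=
    Relation.EqvGen.trans _ _ _ (Relation.EqvGen.symm _ _ (hZ hz)) hd
  exact (key z d h1).1 hz

theorem link_cut {D : Type} [Finite D] {U : Part D} {T : Tri D} (hU : U.Le T) {x y w w' : D} (hl : U.HL [w, w'])
    (hx : x ∈ U.R) (hy : y ∈ U.R) (hxw : U.Cn x w) (hyw : U.Cn y w') (hxy : ¬ U.Cn x y)
    (hgen : ∀ d ∈ U.R, U.Cn x d ∨ U.Cn y d)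
    (hadj : ∀ d ∈ U.B, U.s.SameCycle w d → T.a d ∈ U.B → ¬ U.s.SameCycle w' (T.a d)) {m v : ℝ} (h : Link T x y m v) :
    ∃ Y, Strip U T w w' Y m v := by
  obtain ⟨Y, hfs, hdc, hxY, hyY, hper, hvol⟩ := h
  obtain ⟨H, hHd⟩ : ∃ H : Set D, ∀ d, d ∈ H ↔ d ∈ Y ∧ d ∉ U.R := ⟨{d | d ∈ Y ∧ d ∉ U.R}, fun d => Iff.rfl⟩
  have hHf : ∀ d, T.f d ∈ H ↔ d ∈ H := by
    intro d
    rw [hHd, hHd, hfs d, le_f_mem hU d]
  have hwB : w ∈ U.B := hl.1 w (by simp)
  have hcy : ∀ d ∈ U.B, U.s.SameCycle w d ∨ U.s.SameCycle w' d := by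
    intro d hd
    obtain ⟨e, he, h1⟩ := hl.2.2 d hd
    rw [List.mem_cons, List.mem_singleton] at he
    rcases he with rfl | rfl
    · exact Or.inl h1
    · exact Or.inr h1
  have hcx : ∀ d ∈ U.B, U.Cn x d → U.s.SameCycle w d := by
    intro d hd h1
    refine (hcy d hd).resolve_right fun h2 => hxy ?_
    exact cn_trans h1 (cn_symm (cn_trans hyw (cn_of_same h2)))
  have hcy' : ∀ d ∈ U.B, U.Cn y d → U.s.SameCycle w' d := by
    intro d hd h1
    refine (hcy d hd).resolve_left fun h2 => hxy ?_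
    exact cn_trans (cn_trans hxw (cn_of_same h2)) (cn_symm h1)
  have hB : ∀ d ∈ U.R, T.a d ∉ U.R → d ∈ U.B := by
    intro d hd h1
    refine ⟨hd, ?_⟩
    by_contra h2
    apply h1
    rw [hU.2 d h2, U.mem_R_a]
    exact hd
  have hex : ∃ d0 ∈ H, (∃ e ∈ U.B, U.Cn x e ∧ T.a e ∈ K T H d0) ∧ ∃ e ∈ U.B, U.Cn y e ∧ T.a e ∈ K T H d0 := by
    by_contra hno
    have hZ : {d | d ∈ Y ∧ ((d ∈ U.R ∧ U.Cn x d) ∨
        (d ∉ U.R ∧ ∃ e ∈ U.B, U.Cn x e ∧ T.a e ∈ K T H d))} = Y := by
      refine hdc _ (fun d hd => hd.1) ⟨x, hxY, Or.inl ⟨hx, cn_refl U x⟩⟩ ?_ ?_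
      · rintro d ⟨hdY, hd⟩
        refine ⟨(hfs d).2 hdY, ?_⟩
        rcases hd with ⟨h1, h2⟩ | ⟨h1, e, he, h2, h3⟩
        · refine Or.inl ⟨(le_f_mem hU d).2 h1, ?_⟩
          rw [hU.1 d h1]
          exact cn_trans h2 (cn_f U d)
        · refine Or.inr ⟨fun h4 => h1 ((le_f_mem hU d).1 h4), e, he, h2, ?_⟩
          have h4 : d ∈ H := (hHd d).2 ⟨hdY, h1⟩
          exact Relation.EqvGen.trans _ _ _
            (Relation.EqvGen.symm _ _ (Relation.EqvGen.rel _ _ ⟨h4, (hHf d).2 h4, Or.inl rfl⟩)) h3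
      · rintro d ⟨hdY, hd⟩ haY
        refine ⟨haY, ?_⟩
        rcases hd with ⟨h1, h2⟩ | ⟨h1, e, he, h2, h3⟩
        · by_cases h4 : T.a d ∈ U.R
          · refine Or.inl ⟨h4, ?_⟩
            by_cases h5 : U.a d = d
            · have hdB : d ∈ U.B := ⟨h1, h5⟩
              have h6 : T.a d ∈ U.B := by
                rcases peel hU hdB with h7 | h7
                · exact h7.1
                · exact absurd h4 h7
              have h7 := hcx d hdB h2
              have h8 := (hcy _ h6).resolve_right (hadj d hdB h7 h6)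
              exact cn_trans hxw (cn_of_same h8)
            · rw [hU.2 d h5]
              exact cn_trans h2 (cn_a U d)
          · exact Or.inr ⟨h4, d, hB d h1 h4, h2, Relation.EqvGen.refl _⟩
        · have h4 : d ∈ H := (hHd d).2 ⟨hdY, h1⟩
          by_cases h5 : T.a d ∈ U.R
          · have h6 : T.a d ∈ U.B := hB _ h5 (by rw [T.aa]; exact h1)
            rcases hgen _ h5 with h7 | h7
            · exact Or.inl ⟨h5, h7⟩
            · exfalso
              refine hno ⟨d, h4, ⟨e, he, h2, h3⟩, T.a d, h6, h7, ?_⟩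
              rw [T.aa]
              exact Relation.EqvGen.refl _
          · have h6 : T.a d ∈ H := (hHd _).2 ⟨haY, h5⟩
            refine Or.inr ⟨h5, e, he, h2, ?_⟩
            exact Relation.EqvGen.trans _ _ _
              (Relation.EqvGen.symm _ _ (Relation.EqvGen.rel _ _ ⟨h4, h6, Or.inr rfl⟩)) h3
    have h1 : y ∈ {d | d ∈ Y ∧ ((d ∈ U.R ∧ U.Cn x d) ∨
        (d ∉ U.R ∧ ∃ e ∈ U.B, U.Cn x e ∧ T.a e ∈ K T H d))} := by
      rw [hZ]
      exact hyY
    rcases h1.2 with h2 | h2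
    · exact hxy h2.2
    · exact h2.1 hy
  obtain ⟨d0, hd0, ⟨e, he, he1, he2⟩, e', he', he1', he2'⟩ := hex
  have hKH : ∀ d ∈ K T H d0, d ∈ Y ∧ d ∉ U.R := fun d hd => (hHd d).1 (K_sub hd0 hd)
  refine ⟨K T H d0, K_fs hHf hd0, K_dc hd0, fun d hd => (hKH d hd).2, ⟨e, he, hcx e he he1, he2⟩,
    ⟨e', he', hcy' e' he' he1', he2'⟩, ?_, ?_⟩
  · refine le_trans ?_ hper
    have h1 : {d | d ∈ K T H d0 ∧ T.a d ∉ K T H d0 ∧ T.a d ∉ U.R} ⊆ bdy T Y := by
      rintro d ⟨h1, h2, h3⟩
      exact ⟨(hKH d h1).1, fun h4 => h2 (K_a hd0 h1 ((hHd _).2 ⟨h4, h3⟩))⟩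
    exact_mod_cast Set.ncard_le_ncard h1 (Set.toFinite _)
  · refine le_trans ?_ hvol
    have h1 : K T H d0 ⊆ Y := fun d hd => (hKH d hd).1
    exact_mod_cast Set.ncard_le_ncard h1 (Set.toFinite _)

end SYS.US
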