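import Pool.Agent.SYS.US.Defs

/-!
# SYS-US-LinkB: transport of a strip; invariance of `Link` under relabelling
-/

namespace SYS.US

open SST Part Num XP

private theorem a_mem_B {D : Type} {S : Part D} {T : Tri D} (hS : S.Le T) {d : D} (hd : d ∈ S.X) (h : T.a d ∈ S.R) :
    T.a d ∈ S.B := by
  by_contra hB
  have h1 : S.a (T.a d) ≠ T.a d := fun h2 => hB ⟨h, h2⟩
  have h2 := hS.2 _ h1
  rw [T.aa] at h2
  rcases hd with hd | hd
  · apply hd
    rw [h2, S.mem_R_a]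
    exact h
  · have h3 : S.a d = T.a d := by
      rw [h2, S.aa, ← h2]
    rw [hd.2] at h3
    exact T.ane d h3.symm

private theorem same_tr {D E : Type} [Finite D] [Finite E] {S : Part D} {U : Part E} {χ : D → E}
    (hB : χ '' S.B = U.B) (hx : ∀ d ∈ S.B, U.nx (χ d) = χ (S.nx d)) {d e : D} (hd : d ∈ S.B) (he : e ∈ S.B)
    (h : S.s.SameCycle d e) : U.s.SameCycle (χ d) (χ e) := by
  have h1 : S.nx.SameCycle d e := (ret_same S.s hd he).2 h
  obtain ⟨i, hi⟩ := h1.exists_nat_pow_eq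
  have h2 : ∀ i : ℕ, (U.nx ^ i) (χ d) = χ ((S.nx ^ i) d) := by
    intro i
    induction i with
    | zero => rfl
    | succ i ih =>
      rw [pow_succ', pow_succ', Equiv.Perm.mul_apply, Equiv.Perm.mul_apply, ih, hx _ (nx_pow_same S hd i).1]
  have h3 : χ d ∈ U.B := by
    rw [← hB]
    exact ⟨d, hd, rfl⟩
  have h4 := (nx_pow_same U h3 i).2
  rw [h2, hi] at h4
  exact h4

private theorem cyc_tr {D E : Type} [Finite D] [Finite E] {S : Part D} {U : Part E}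
    {z z' : D} {w w' : E} (hSl : S.HL [z, z']) (hUl : U.HL [w, w']) {χ : D → E}
    (hB : χ '' S.B = U.B) (hx : ∀ d ∈ S.B, U.nx (χ d) = χ (S.nx d)) (hz : χ z = w) (hz' : χ z' = w') {d : D}
    (hd : d ∈ S.B) : (U.s.SameCycle w (χ d) → S.s.SameCycle z d) ∧ (U.s.SameCycle w' (χ d) → S.s.SameCycle z' d) := by
  have h1 : z ∈ S.B := hSl.1 z (by simp)
  have h2 : z' ∈ S.B := hSl.1 z' (by simp)
  have h3 : ¬ U.s.SameCycle w w' := by
    have h4 := hUl.2.1
    rw [List.pairwise_cons] at h4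
    exact h4.1 w' (by simp)
  obtain ⟨e, he, h4⟩ := hSl.2.2 d hd
  rw [List.mem_cons, List.mem_singleton] at he
  rcases he with he | he
  · rw [he] at h4
    refine ⟨fun _ => h4, fun h5 => ?_⟩
    have h6 := same_tr hB hx h1 hd h4
    rw [hz] at h6
    exact absurd (h6.trans h5.symm) h3
  · rw [he] at h4
    refine ⟨fun h5 => ?_, fun _ => h4⟩
    have h6 := same_tr hB hx h2 hd h4
    rw [hz'] at h6
    exact absurd (h5.trans h6.symm) h3

theorem strip_tr {D E : Type} [Finite D] [Finite E] {S : Part D} {U : Part E} {T : Tri D} {T' : Tri E} (hS : S.Le T)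
    (hU : U.Le T') {z z' : D} {w w' : E} (hSl : S.HL [z, z']) (hUl : U.HL [w, w']) {χ : D → E} (hχ : Set.InjOn χ S.X)
    (hR : ∀ d, d ∉ S.R → χ d ∉ U.R) (hRR : ∀ e, e ∉ U.R → ∃ d, d ∉ S.R ∧ χ d = e) (hB : χ '' S.B = U.B)
    (hx : ∀ d ∈ S.B, U.nx (χ d) = χ (S.nx d)) (hz : χ z = w) (hz' : χ z' = w')
    (hf : ∀ d, d ∉ S.R → T'.f (χ d) = χ (T.f d)) (ha : ∀ d ∈ S.X, T'.a (χ d) = χ (T.a d)) {Y' : Set E} {m v : ℝ}
    (h : Strip U T' w w' Y' m v) : ∃ Y, Strip S T z z' Y m v := by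
  have hX : ∀ d, d ∉ S.R → d ∈ S.X := fun d hd => Or.inl hd
  have hXB : ∀ d ∈ S.B, d ∈ S.X := fun d hd => Or.inr hd
  have key : ∀ d ∈ S.X, T'.a (χ d) ∉ U.R → T.a d ∉ S.R := by
    intro d hd h1 h2
    apply h1
    rw [ha d hd]
    apply U.B_sub_R
    rw [← hB]
    exact ⟨_, a_mem_B hS hd h2, rfl⟩
  refine ⟨{d | d ∉ S.R ∧ χ d ∈ Y'}, ?_, ?_, fun d hd => hd.1, ?_, ?_, ?_, ?_⟩
  · intro d
    show (T.f d ∉ S.R ∧ χ (T.f d) ∈ Y') ↔ (d ∉ S.R ∧ χ d ∈ Y')
    rw [le_f_mem hS d]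
    constructor
    · rintro ⟨h1, h2⟩
      refine ⟨h1, ?_⟩
      rw [← hf d h1] at h2
      exact (h.fs _).1 h2
    · rintro ⟨h1, h2⟩
      refine ⟨h1, ?_⟩
      rw [← hf d h1]
      exact (h.fs _).2 h2
  · intro Z hZ hne hZf hZa
    have h1 : χ '' Z = Y' := by
      refine h.dc (χ '' Z) ?_ (hne.image χ) ?_ ?_
      · rintro _ ⟨d, hd, rfl⟩
        exact (hZ hd).2
      · rintro _ ⟨d, hd, rfl⟩
        rw [hf d (hZ hd).1]
        exact ⟨_, hZf d hd, rfl⟩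
      · rintro _ ⟨d, hd, rfl⟩ h2
        have h3 := hX d (hZ hd).1
        have h4 := key d h3 (h.hid _ h2)
        rw [ha d h3] at h2 ⊢
        exact ⟨_, hZa d hd ⟨h4, h2⟩, rfl⟩
    refine Set.Subset.antisymm hZ fun d hd => ?_
    have h2 : χ d ∈ χ '' Z := by
      rw [h1]
      exact hd.2
    obtain ⟨e, he, h3⟩ := h2
    rw [← hχ (hX e (hZ he).1) (hX d hd.1) h3]
    exact he
  · obtain ⟨d', hd', h1, h2⟩ := h.t1
    rw [← hB] at hd'
    obtain ⟨d, hd, rfl⟩ := hd'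
    refine ⟨d, hd, (cyc_tr hSl hUl hB hx hz hz' hd).1 h1, key d (hXB d hd) (h.hid _ h2), ?_⟩
    rw [ha d (hXB d hd)] at h2
    exact h2
  · obtain ⟨d', hd', h1, h2⟩ := h.t2
    rw [← hB] at hd'
    obtain ⟨d, hd, rfl⟩ := hd'
    refine ⟨d, hd, (cyc_tr hSl hUl hB hx hz hz' hd).2 h1, key d (hXB d hd) (h.hid _ h2), ?_⟩
    rw [ha d (hXB d hd)] at h2
    exact h2
  · refine le_trans ?_ h.per
    have h1 : {d | d ∈ {d | d ∉ S.R ∧ χ d ∈ Y'} ∧ T.a d ∉ {d | d ∉ S.R ∧ χ d ∈ Y'} ∧ T.a d ∉ S.R}.ncard ≤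
        {d | d ∈ Y' ∧ T'.a d ∉ Y' ∧ T'.a d ∉ U.R}.ncard := by
      refine Set.ncard_le_ncard_of_injOn χ ?_ ?_ (Set.toFinite _)
      · rintro d ⟨h1, h2, h3⟩
        refine ⟨h1.2, ?_, ?_⟩
        · rw [ha d (hX d h1.1)]
          exact fun h4 => h2 ⟨h3, h4⟩
        · rw [ha d (hX d h1.1)]
          exact hR _ h3
      · intro d hd e he
        exact hχ (hX d hd.1.1) (hX e he.1.1)
    exact_mod_cast h1
  · refine le_trans ?_ h.vol
    have h1 : {d | d ∉ S.R ∧ χ d ∈ Y'}.ncard ≤ Y'.ncard := by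
      refine Set.ncard_le_ncard_of_injOn χ ?_ ?_ (Set.toFinite _)
      · rintro d ⟨h1, h2⟩
        exact h2
      · intro d hd e he
        exact hχ (hX d hd.1) (hX e he.1)
    exact_mod_cast h1

/-- The holes correspond. -/
theorem adj_tr {D E : Type} [Finite D] [Finite E] {S : Part D} {U : Part E} {T : Tri D} {T' : Tri E} (hS : S.Le T)
    (hU : U.Le T') {z z' : D} {w w' : E} (hSl : S.HL [z, z']) (hUl : U.HL [w, w']) {χ : D → E} (hχ : Set.InjOn χ S.X)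
    (hR : ∀ d, d ∉ S.R → χ d ∉ U.R) (hB : χ '' S.B = U.B) (hx : ∀ d ∈ S.B, U.nx (χ d) = χ (S.nx d)) (hz : χ z = w)
    (hz' : χ z' = w') (ha : ∀ d ∈ S.X, T'.a (χ d) = χ (T.a d))
    (hadj : ∀ d ∈ S.B, S.s.SameCycle z d → T.a d ∈ S.B → ¬ S.s.SameCycle z' (T.a d)) :
    ∀ d ∈ U.B, U.s.SameCycle w d → T'.a d ∈ U.B → ¬ U.s.SameCycle w' (T'.a d) := by
  intro d' hd' h1 h2 h3
  rw [← hB] at hd'
  obtain ⟨d, hd, rfl⟩ := hd'
  rw [ha d (Or.inr hd)] at h2 h3
  have h4 : T.a d ∈ S.R := by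
    by_contra h5
    exact hR _ h5 (U.B_sub_R h2)
  have h5 := a_mem_B hS (Or.inr hd) h4
  exact hadj d hd ((cyc_tr hSl hUl hB hx hz hz' hd).1 h1) h5 ((cyc_tr hSl hUl hB hx hz hz' h5).2 h3)

private theorem link_one {D : Type} {T T' : Tri D} (π : Equiv.Perm D) (ha : ∀ d, T'.a (π d) = π (T.a d))
    (hf : ∀ d, T'.f (π d) = π (T.f d)) {x y : D} {m v : ℝ} (h : Link T x y m v) : Link T' (π x) (π y) m v := by
  obtain ⟨Y, h1, h2, h3, h4, h5, h6⟩ := h
  have hm : ∀ d, π d ∈ π '' Y ↔ d ∈ Y := fun d => π.injective.mem_set_image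
  refine ⟨π '' Y, ?_, ?_, (hm x).2 h3, (hm y).2 h4, ?_, ?_⟩
  · intro d'
    obtain ⟨d, rfl⟩ := π.surjective d'
    rw [hf, hm, hm]
    exact h1 d
  · intro Z hZ hne hZf hZa
    have e : π '' (π ⁻¹' Z) = Z := Set.image_preimage_eq _ π.surjective
    have h7 : π ⁻¹' Z = Y := by
      refine h2 _ ?_ ?_ ?_ ?_
      · intro d hd
        exact (hm d).1 (hZ hd)
      · rw [← e] at hne
        exact hne.of_image
      · intro d hd
        show π (T.f d) ∈ Z
        rw [← hf]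
        exact hZf _ hd
      · intro d hd h8
        show π (T.a d) ∈ Z
        rw [← ha]
        refine hZa _ hd ?_
        rw [ha, hm]
        exact h8
    rw [← e, h7]
  · have h7 : bdy T' (π '' Y) = π '' bdy T Y := by
      ext d'
      obtain ⟨d, rfl⟩ := π.surjective d'
      show (π d ∈ π '' Y ∧ T'.a (π d) ∉ π '' Y) ↔ _
      rw [hm, ha, hm]
      exact (π.injective.mem_set_image (s := bdy T Y)).symm
    rw [h7, Set.ncard_image_of_injective _ π.injective]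
    exact h5
  · rw [Set.ncard_image_of_injective _ π.injective]
    exact h6

theorem link_map {D : Type} (T : Tri D) (π : Equiv.Perm D) (x y : D) (m v : ℝ) :
    Link (T.map π) (π x) (π y) m v ↔ Link T x y m v := by
  constructor
  · intro h
    have h1 := link_one (T' := T) π.symm (fun d' => ?_) (fun d' => ?_) h
    · rw [Equiv.symm_apply_apply, Equiv.symm_apply_apply] at h1
      exact h1
    · obtain ⟨d, rfl⟩ := π.surjective d'
      rw [Tri.map_a, Equiv.symm_apply_apply, Equiv.symm_apply_apply]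
    · obtain ⟨d, rfl⟩ := π.surjective d'
      rw [Tri.map_f, Equiv.symm_apply_apply, Equiv.symm_apply_apply]
  · intro h
    exact link_one π (fun d => Tri.map_a T π d) (fun d => Tri.map_f T π d) h

end SYS.US
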