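import Pool.Agent.SYS.US.Defs

/-!
# SYS-US-Orb: from one labelled region to all pairs of marked darts

Double count the pairs of a permutation and an element of `A`; a fibre is a set of permutations fixing `U.R`.
-/

namespace SYS.US

open SST Part Num XP

private theorem orb_map_inj {N : ℕ} {T T' : Tri (Fin N)} (π : Equiv.Perm (Fin N))
    (h : T.map π = T'.map π) : T = T' := by
  have h1 : ∀ T : Tri (Fin N), (T.map π).map π.symm = T := by
    intro T
    rw [Tri.map_map]
    refine Tri.ext' ?_ ?_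
    · ext d
      simp [Tri.map]
    · ext d
      simp [Tri.map]
  rw [← h1 T, h, h1 T']

private theorem orb_cn {N : ℕ} {U : Part (Fin N)} {T₁ T₂ : Tri (Fin N)} (h1 : U.Le T₁) (h2 : U.Le T₂)
    {π₁ π₂ : Equiv.Perm (Fin N)} (hT : T₁.map π₁ = T₂.map π₂) {d e : Fin N} (h : U.Cn d e) :
    π₁ d = π₂ d ↔ π₁ e = π₂ e := by
  have h' : Relation.EqvGen (fun d e => e = U.a d ∨ e = U.f d) d e := h
  clear h
  induction h' with
  | rel d e hde =>
    rcases hde with rfl | rfl
    · by_cases h3 : U.a d = d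
      · rw [h3]
      · have h4 : π₁ (U.a d) = (T₂.map π₂).a (π₁ d) := by
          rw [← hT, Tri.map_a, h1.2 d h3]
        have h5 : π₂ (U.a d) = (T₂.map π₂).a (π₂ d) := by
          rw [Tri.map_a, h2.2 d h3]
        rw [h4, h5]
        exact (T₂.map π₂).a.injective.eq_iff.symm
    · by_cases h3 : U.f d = d
      · rw [h3]
      · have h4 : π₁ (U.f d) = (T₂.map π₂).f (π₁ d) := by
          rw [← hT, Tri.map_f, h1.1 d h3]
        have h5 : π₂ (U.f d) = (T₂.map π₂).f (π₂ d) := by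
          rw [Tri.map_f, h2.1 d h3]
        rw [h4, h5]
        exact (T₂.map π₂).f.injective.eq_iff.symm
  | refl d => exact Iff.rfl
  | symm d e _ ih => exact ih.symm
  | trans d e f _ _ ih1 ih2 => exact ih1.trans ih2

private theorem orb_fix {N : ℕ} (R : Set (Fin N)) :
    {σ : Equiv.Perm (Fin N) | ∀ d ∈ R, σ d = d}.ncard = (Rᶜ.ncard).factorial := by
  classical
  have e := Equiv.Perm.subtypeEquivSubtypePerm (fun d : Fin N => d ∈ Rᶜ)
  have h1 : {σ : Equiv.Perm (Fin N) | ∀ d ∈ R, σ d = d}.ncard =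
      Nat.card {f : Equiv.Perm (Fin N) // ∀ a, ¬ a ∈ Rᶜ → f a = a} := by
    show Nat.card {σ : Equiv.Perm (Fin N) // ∀ d ∈ R, σ d = d} = _
    refine Nat.card_congr (Equiv.subtypeEquivRight fun σ => ?_)
    refine forall_congr' fun a => ?_
    rw [Set.mem_compl_iff, not_not]
  rw [h1, ← Nat.card_congr e, Nat.card_perm]
  rfl

theorem orb {N : ℕ} {U : Part (Fin N)} {x y : Fin N} (hgen : ∀ d ∈ U.R, U.Cn x d ∨ U.Cn y d) (A : Set (Tri (Fin N)))
    (hA : ∀ T ∈ A, U.Le T) (Q : Set (Tri (Fin N) × Fin N × Fin N))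
    (hQ : ∀ T ∈ A, ∀ π : Equiv.Perm (Fin N), (T.map π, π x, π y) ∈ Q) :
    A.ncard * N.factorial ≤ (U.Rᶜ.ncard).factorial * Q.ncard := by
  classical
  have hS : ((A.toFinite.toFinset ×ˢ (Finset.univ : Finset (Equiv.Perm (Fin N))))).card =
      A.ncard * N.factorial := by
    rw [Finset.card_product, Finset.card_univ, Fintype.card_perm, Fintype.card_fin,
      Set.ncard_eq_toFinset_card A A.toFinite]
  rw [← hS, Set.ncard_eq_toFinset_card Q Q.toFinite]
  refine Finset.card_le_mul_card_image_of_maps_to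
    (f := fun p : Tri (Fin N) × Equiv.Perm (Fin N) => (p.1.map p.2, p.2 x, p.2 y)) ?_ _ ?_
  · rintro ⟨T, π⟩ hp
    have h1 := (Finset.mem_product.1 hp).1
    exact Q.toFinite.mem_toFinset.2 (hQ T (A.toFinite.mem_toFinset.1 h1) π)
  · intro q _
    rcases Finset.eq_empty_or_nonempty ((A.toFinite.toFinset ×ˢ
      (Finset.univ : Finset (Equiv.Perm (Fin N)))).filter
        fun p => (p.1.map p.2, p.2 x, p.2 y) = q) with h0 | ⟨⟨T₁, π₁⟩, h0⟩
    · rw [h0, Finset.card_empty]
      exact Nat.zero_le _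
    · obtain ⟨h1, h2⟩ := Finset.mem_filter.1 h0
      have hT₁ := A.toFinite.mem_toFinset.1 (Finset.mem_product.1 h1).1
      rw [← orb_fix U.R, Set.ncard_eq_toFinset_card _ (Set.toFinite _)]
      refine Finset.card_le_card_of_injOn (fun p => π₁⁻¹ * p.2) ?_ ?_
      · rintro ⟨T₂, π₂⟩ hp
        obtain ⟨h3, h4⟩ := Finset.mem_filter.1 (Finset.mem_coe.1 hp)
        have hT₂ := A.toFinite.mem_toFinset.1 (Finset.mem_product.1 h3).1
        have h5 : (T₁.map π₁, π₁ x, π₁ y) = (T₂.map π₂, π₂ x, π₂ y) := h2.trans h4.symm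
        have h6 : T₁.map π₁ = T₂.map π₂ := congrArg Prod.fst h5
        have h7 : π₁ x = π₂ x := congrArg (fun p : Tri (Fin N) × Fin N × Fin N => p.2.1) h5
        have h8 : π₁ y = π₂ y := congrArg (fun p : Tri (Fin N) × Fin N × Fin N => p.2.2) h5
        refine Finset.mem_coe.2 ((Set.toFinite _).mem_toFinset.2 ?_)
        intro d hd
        have h9 : π₁ d = π₂ d := by
          rcases hgen d hd with h | h
          · exact (orb_cn (hA T₁ hT₁) (hA T₂ hT₂) h6 h).1 h7
          · exact (orb_cn (hA T₁ hT₁) (hA T₂ hT₂) h6 h).1 h8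
        show π₁⁻¹ (π₂ d) = d
        rw [← h9]
        exact π₁.symm_apply_apply d
      · rintro ⟨T₂, π₂⟩ hp ⟨T₃, π₃⟩ hp' he
        have h3 : π₂ = π₃ := mul_left_cancel he
        subst h3
        obtain ⟨_, h4⟩ := Finset.mem_filter.1 (Finset.mem_coe.1 hp)
        obtain ⟨_, h5⟩ := Finset.mem_filter.1 (Finset.mem_coe.1 hp')
        have h6 : T₂.map π₂ = T₃.map π₂ := congrArg Prod.fst (h4.trans h5.symm)
        rw [orb_map_inj π₂ h6]

end SYS.US
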