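import Pool.Agent.SYS.US.Tr
import Pool.Agent.SYS.US.Chi
import Pool.Agent.SYS.US.Orb
import Pool.Agent.SYS.US.Disc
import Pool.Agent.SYS.US.LinkA
import Pool.Agent.SYS.US.LinkB

/-!
# SYS-US-BadC: number of triangulations over a seed without a strip

The hidden part of a triangulation over the seed is put over two discs with the same perimeters (`exists_disc2`, `exists_chi`, `ext_tr`); a link between the two discs would give a strip (`link_cut`, `strip_tr`), and relabelling gives the marked triangulations without a link (`orb`).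
-/

namespace SYS.US

open SST Part Num XP UP

theorem bad_reg {n n' g : ℕ} (hg : 1 ≤ g) {t : Et} (h1 : 1 ≤ t.1) (h2 : 1 ≤ t.2.1) {S0 : Part (Fin (6 * n))}
    {z z' : Fin (6 * n)} (hR : Reg t S0 z z') (hn : dv t.1 + dv t.2.1 + (2 * n - vE t) = 2 * n') (m v : ℝ) :
    {T | T ∈ S0.Ext g ∧ S0.HConn T ∧ (∀ d ∈ S0.B, S0.s.SameCycle z d → T.a d ∈ S0.B → ¬ S0.s.SameCycle z' (T.a d)) ∧
      ¬ ∃ Y, Strip S0 T z z' Y m v}.ncard * (6 * n').factorial ≤
      (3 * (2 * n - vE t)).factorial * {q : Tri (Fin (6 * n')) × Fin (6 * n') × Fin (6 * n') | q.1 ∈ Trn n' (g - 1) ∧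
        ¬ Link q.1 q.2.1 q.2.2 m v}.ncard := by
  obtain ⟨U, x, y, w, w', hU, hxR, hyR, hxw, hyw, hxy, hgen⟩ := exists_disc2 h1 h2 hn
  obtain ⟨χ, hχ, hχR, hχB, hχn, hχz, hχz'⟩ := exists_chi hR.typ hU
  have hvS := hR.typ.vol
  have hvU := hU.vol
  rw [Nat.card_fin] at hvS hvU
  have hcS : S0.Rᶜ.ncard = 3 * (2 * n - vE t) := by
    have h := Set.ncard_add_ncard_compl S0.R
    rw [Nat.card_fin] at h
    omega
  have hcU : U.Rᶜ.ncard = 3 * (2 * n - vE t) := by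
    have h := Set.ncard_add_ncard_compl U.R
    rw [Nat.card_fin] at h
    omega
  have hsub : S0.Rᶜ ⊆ S0.X := fun d hd => Or.inl hd
  have hRR : ∀ e, e ∉ U.R → ∃ d, d ∉ S0.R ∧ χ d = e := by
    have h : χ '' S0.Rᶜ = U.Rᶜ := by
      refine Set.eq_of_subset_of_ncard_le ?_ ?_ (Set.toFinite _)
      · rintro _ ⟨d, hd, rfl⟩
        exact hχR d hd
      · rw [Set.InjOn.ncard_image (hχ.mono hsub), hcS, hcU]
    intro e he
    have h' : e ∈ χ '' S0.Rᶜ := by rw [h]; exact he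
    obtain ⟨d, hd, hde⟩ := h'
    exact ⟨d, hd, hde⟩
  set Z : Set (Tri (Fin (6 * n))) := {T | T ∈ S0.Ext g ∧ S0.HConn T ∧
    (∀ d ∈ S0.B, S0.s.SameCycle z d → T.a d ∈ S0.B → ¬ S0.s.SameCycle z' (T.a d)) ∧
      ¬ ∃ Y, Strip S0 T z z' Y m v} with hZ
  have hex : ∀ T ∈ Z, ∃ T' ∈ U.Ext (g - 1), U.HConn T' ∧ (∀ d, d ∉ S0.R → T'.f (χ d) = χ (T.f d)) ∧
      ∀ d ∈ S0.X, T'.a (χ d) = χ (T.a d) := fun T hT =>
    ext_tr hR.typ hU (by omega) χ hχ hχR hχB hχn hT.1 hT.2.1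
  let A : Set (Tri (Fin (6 * n'))) := {T' | ∃ T ∈ Z, T' ∈ U.Ext (g - 1) ∧
    (∀ d, d ∉ S0.R → T'.f (χ d) = χ (T.f d)) ∧ ∀ d ∈ S0.X, T'.a (χ d) = χ (T.a d)}
  have hZA : Z.ncard ≤ A.ncard := by
    rcases Set.eq_empty_or_nonempty Z with h0 | ⟨T0, hT0⟩
    · rw [h0, Set.ncard_empty]
      exact Nat.zero_le _
    obtain ⟨T0', _⟩ := hex T0 hT0
    have : Nonempty (Tri (Fin (6 * n'))) := ⟨T0'⟩
    have hex' : ∀ T, ∃ T', T ∈ Z → T' ∈ U.Ext (g - 1) ∧ (∀ d, d ∉ S0.R → T'.f (χ d) = χ (T.f d)) ∧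
        ∀ d ∈ S0.X, T'.a (χ d) = χ (T.a d) := by
      intro T
      by_cases hT : T ∈ Z
      · obtain ⟨T', k1, _, k3, k4⟩ := hex T hT
        exact ⟨T', fun _ => ⟨k1, k3, k4⟩⟩
      · exact ⟨T0', fun h => absurd h hT⟩
    choose φ hφ using hex'
    refine Set.ncard_le_ncard_of_injOn φ ?_ ?_ (Set.toFinite _)
    · intro T hT
      exact ⟨T, hT, hφ T hT⟩
    · intro T1 hT1 T2 hT2 h12
      obtain ⟨_, f1, a1⟩ := hφ T1 hT1
      obtain ⟨_, f2, a2⟩ := hφ T2 hT2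
      have hX : ∀ (T : Tri (Fin (6 * n))), S0.Le T → ∀ d ∈ S0.X, T.a d ∈ S0.X := by
        intro T hT d hd
        by_contra hn'
        have hn1 : T.a d ∈ S0.R ∧ T.a d ∉ S0.B := by
          refine ⟨by_contra fun h => hn' (Or.inl h), fun h => hn' (Or.inr h)⟩
        have hn2 : S0.a (T.a d) ≠ T.a d := fun h => hn1.2 ⟨hn1.1, h⟩
        have h3 := hT.2 _ hn2
        rw [T.aa] at h3
        have h4 : d ∈ S0.R := by rw [h3]; exact (mem_R_a S0 _).2 hn1.1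
        rcases hd with hd | hd
        · exact hd h4
        · have h5 : S0.a d = d := hd.2
          have h6 : S0.a (S0.a (T.a d)) = S0.a d := by rw [← h3]
          rw [S0.aa, h5] at h6
          exact hn1.2 (by rw [h6]; exact hd)
      refine le_antisymm_R hT1.1.2 hT2.1.2 (fun d hd => ?_) fun d hd => ?_
      · have e1 := f1 d hd
        have e2 := f2 d hd
        rw [h12, e2] at e1
        exact (hχ (Or.inl fun h => hd ((le_f_mem hT2.1.2 d).1 h))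
          (Or.inl fun h => hd ((le_f_mem hT1.1.2 d).1 h)) e1).symm
      · have e1 := a1 d hd
        have e2 := a2 d hd
        rw [h12, e2] at e1
        exact (hχ (hX T2 hT2.1.2 d hd) (hX T1 hT1.1.2 d hd) e1).symm
  have hAL : ∀ T' ∈ A, ¬ Link T' x y m v := by
    rintro T' ⟨T, hT, hE, hf, ha⟩ hL
    have hadj := adj_tr hT.1.2 hE.2 hR.typ.hl hU.hl hχ hχR hχB hχn hχz hχz' ha hT.2.2.1
    obtain ⟨Y', hY'⟩ := link_cut hE.2 hU.hl hxR hyR hxw hyw hxy hgen hadj hL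
    exact hT.2.2.2 (strip_tr hT.1.2 hE.2 hR.typ.hl hU.hl hχ hχR hRR hχB hχn hχz hχz' hf ha hY')
  have ho := orb hgen A (fun T' hT' => by obtain ⟨T, _, hE, _⟩ := hT'; exact hE.2)
    {q : Tri (Fin (6 * n')) × Fin (6 * n') × Fin (6 * n') | q.1 ∈ Trn n' (g - 1) ∧
        ¬ Link q.1 q.2.1 q.2.2 m v} (by
      intro T' hT' π
      refine ⟨?_, ?_⟩
      · obtain ⟨T, _, hE, _⟩ := hT'
        exact ⟨(Tri.map_conn T' π).2 hE.1.1, (Tri.map_genus T' π n' (g - 1)).2 hE.1.2⟩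
      · intro hL
        exact hAL T' hT' ((link_map T' π x y m v).1 hL))
  rw [hcU] at ho
  exact le_trans (Nat.mul_le_mul_right _ hZA) ho

end SYS.US
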