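import Pool.Agent.SYS.US.Def2

/-!
# SYS-US-TameM: invariance of `Tame` under relabelling
-/

namespace SYS.US

open SST Part Num XP

theorem rk_zero {D : Type} [Finite D] {T : Tri D} {E : Set D} : CO.rk T E = 0 ↔ CO.Z T E ≤ CO.Bd T := by
  unfold CO.rk CO.VV
  rw [Submodule.finrank_eq_zero, ← LinearMap.le_ker_iff_map, Submodule.ker_mkQ]

section
variable {D : Type} {T T' : Tri D} {π : Equiv.Perm D}

private theorem tm_tl (ha : ∀ d, T'.a (π d) = π (T.a d)) (hf : ∀ d, T'.f (π d) = π (T.f d)) {d e : D}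
    (h : T.tl d = T.tl e) : T'.tl (π d) = T'.tl (π e) := by
  have hs : T'.s = π * T.s * π⁻¹ := by
    apply Equiv.ext
    intro d'
    obtain ⟨d, rfl⟩ := π.surjective d'
    rw [Equiv.Perm.mul_apply, Equiv.Perm.mul_apply, Equiv.Perm.inv_def, Equiv.symm_apply_apply]
    show T'.f (T'.a (π d)) = π (T.f (T.a d))
    rw [ha, hf]
  rw [Tri.tl_eq_iff] at h ⊢
  rw [hs]
  exact h.conj

private theorem tm_sa (ha : ∀ d, T'.a (π d) = π (T.a d)) (d' : D) : T.a (π.symm d') = π.symm (T'.a d') := by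
  obtain ⟨d, rfl⟩ := π.surjective d'
  rw [ha, Equiv.symm_apply_apply, Equiv.symm_apply_apply]

private theorem tm_sf (hf : ∀ d, T'.f (π d) = π (T.f d)) (d' : D) : T.f (π.symm d') = π.symm (T'.f d') := by
  obtain ⟨d, rfl⟩ := π.surjective d'
  rw [hf, Equiv.symm_apply_apply, Equiv.symm_apply_apply]

private theorem tm_tl_symm (ha : ∀ d, T'.a (π d) = π (T.a d)) (hf : ∀ d, T'.f (π d) = π (T.f d)) {d' e' : D}
    (h : T'.tl d' = T'.tl e') : T.tl (π.symm d') = T.tl (π.symm e') :=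
  tm_tl (T := T') (T' := T) (π := π.symm) (tm_sa ha) (tm_sf hf) h

private theorem tm_tl_iff (ha : ∀ d, T'.a (π d) = π (T.a d)) (hf : ∀ d, T'.f (π d) = π (T.f d)) (d e : D) :
    T'.tl (π d) = T'.tl (π e) ↔ T.tl d = T.tl e := by
  constructor
  · intro h
    have h1 := tm_tl_symm ha hf h
    rw [Equiv.symm_apply_apply, Equiv.symm_apply_apply] at h1
    exact h1
  · exact tm_tl ha hf

private theorem tm_star (ha : ∀ d, T'.a (π d) = π (T.a d)) (hf : ∀ d, T'.f (π d) = π (T.f d)) (u d : D) :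
    π d ∈ star T' (π u) ↔ d ∈ star T u := by
  show (T'.tl (π d) = T'.tl (π u) ∨ T'.tl (T'.f (π d)) = T'.tl (π u) ∨ T'.tl (T'.f (T'.f (π d))) = T'.tl (π u)) ↔
    (T.tl d = T.tl u ∨ T.tl (T.f d) = T.tl u ∨ T.tl (T.f (T.f d)) = T.tl u)
  rw [hf, hf, tm_tl_iff ha hf, tm_tl_iff ha hf, tm_tl_iff ha hf]

private theorem tm_bd (ha : ∀ d, T'.a (π d) = π (T.a d)) (hf : ∀ d, T'.f (π d) = π (T.f d)) {E E' : Set D}
    (hE : ∀ d, π d ∈ E' ↔ d ∈ E) (h : CO.Z T E ≤ CO.Bd T) : CO.Z T' E' ≤ CO.Bd T' := by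
  rintro x ⟨⟨h1, h2⟩, h3⟩
  have h4 : (fun d => x (π d)) ∈ CO.Z T E := by
    refine ⟨⟨fun d => ?_, fun d => ?_⟩, fun d hd => ?_⟩
    · show x (π (T.a d)) = -x (π d)
      rw [← ha, h1]
    · show x (π d) + x (π (T.f d)) + x (π (T.f (T.f d))) = 0
      rw [← hf, ← hf, ← hf]
      exact h2 (π d)
    · show x (π d) = 0
      exact h3 _ fun h5 => hd ((hE d).1 h5)
  obtain ⟨g, hg⟩ := h h4
  refine ⟨Quotient.lift (s := Equiv.Perm.SameCycle.setoid T'.s) (fun d' => g (T.tl (π.symm d')))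
    (fun d' e' h5 => congrArg g (tm_tl_symm ha hf (Quotient.sound h5))), fun d' => ?_⟩
  obtain ⟨d, rfl⟩ := π.surjective d'
  have h6 : x (π d) = g (T.hd d) - g (T.tl d) := hg d
  rw [h6]
  show g (T.hd d) - g (T.tl d) = g (T.tl (π.symm (T'.a (π d)))) - g (T.tl (π.symm (π d)))
  rw [ha, Equiv.symm_apply_apply, Equiv.symm_apply_apply]
  rfl

private theorem tm_one [Finite D] (ha : ∀ d, T'.a (π d) = π (T.a d)) (hf : ∀ d, T'.f (π d) = π (T.f d)) {x y : D}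
    {m v : ℝ} (h : Tame T x y m v) : Tame T' (π x) (π y) m v := by
  intro Y' h1 h2 h3 h4 h5 h6 u' hu'
  obtain ⟨u, rfl⟩ := π.surjective u'
  have e : π '' (π ⁻¹' Y') = Y' := Set.image_preimage_eq _ π.surjective
  have k := h (π ⁻¹' Y') ?_ ?_ h3 h4 ?_ ?_ u hu'
  · rw [rk_zero] at k ⊢
    refine tm_bd ha hf (fun d => ?_) k
    show ((π d ∈ Y' ∨ π d ∈ star T' (π u)) ∧ (T'.a (π d) ∈ Y' ∨ T'.a (π d) ∈ star T' (π u))) ↔
      ((π d ∈ Y' ∨ d ∈ star T u) ∧ (π (T.a d) ∈ Y' ∨ T.a d ∈ star T u))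
    rw [ha, tm_star ha hf, tm_star ha hf]
  · intro d
    show π (T.f d) ∈ Y' ↔ π d ∈ Y'
    rw [← hf]
    exact h1 _
  · intro Z hZ hne hZf hZa
    have h7 : π '' Z = Y' := by
      refine h2 _ ?_ (hne.image π) ?_ ?_
      · rintro _ ⟨d, hd, rfl⟩
        exact hZ hd
      · rintro _ ⟨d, hd, rfl⟩
        rw [hf]
        exact ⟨_, hZf d hd, rfl⟩
      · rintro _ ⟨d, hd, rfl⟩ h8
        rw [ha] at h8 ⊢
        exact ⟨_, hZa d hd h8, rfl⟩
    rw [← h7, Set.preimage_image_eq _ π.injective]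
  · have h7 : π '' bdy T (π ⁻¹' Y') = bdy T' Y' := by
      ext d'
      obtain ⟨d, rfl⟩ := π.surjective d'
      rw [π.injective.mem_set_image]
      show (π d ∈ Y' ∧ π (T.a d) ∉ Y') ↔ (π d ∈ Y' ∧ T'.a (π d) ∉ Y')
      rw [ha]
    rw [← h7, Set.ncard_image_of_injective _ π.injective] at h5
    exact h5
  · rw [← e, Set.ncard_image_of_injective _ π.injective] at h6
    exact h6

end

theorem tame_map {D : Type} [Finite D] (T : Tri D) (π : Equiv.Perm D) (x y : D) (m v : ℝ) :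
    Tame (T.map π) (π x) (π y) m v ↔ Tame T x y m v := by
  constructor
  · intro h
    have h1 := tm_one (T' := T) (π := π.symm) (fun d' => ?_) (fun d' => ?_) h
    · rw [Equiv.symm_apply_apply, Equiv.symm_apply_apply] at h1
      exact h1
    · obtain ⟨d, rfl⟩ := π.surjective d'
      rw [Tri.map_a, Equiv.symm_apply_apply, Equiv.symm_apply_apply]
    · obtain ⟨d, rfl⟩ := π.surjective d'
      rw [Tri.map_f, Equiv.symm_apply_apply, Equiv.symm_apply_apply]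
  · intro h
    exact tm_one (fun d => Tri.map_a T π d) (fun d => Tri.map_f T π d) h

end SYS.US
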