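import Pool.Agent.SYS.US.Tr
import Pool.Agent.SYS.US.Chi
import Pool.Agent.SYS.US.Orb
import Pool.Agent.SYS.US.Disc
import Pool.Agent.SYS.US.LinkB
import Pool.Agent.SYS.US.LinkA
import Pool.Agent.SYS.US.LinkC
import Pool.Agent.SYS.TP.Fin
import Pool.Agent.SYS.CO.RkE
import Pool.Agent.SYS.US.TameM

/-!
# SYS-US-BadE: number of triangulations over a seed without a short simple separating essential cycle

The hidden part of a triangulation over the seed is put over two discs with the same perimeters (`exists_disc2`, `exists_chi`, `ext_tr`); a tame link between the two discs gives a short simple separating cycle (`TP.tops`), and relabelling gives the marked triangulations (`orb`).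
-/

namespace SYS.US

open SST Part Num XP UP

/-- A tame link between the two discs gives a short simple separating cycle which is not contractible. -/
theorem tame_ssc {n n' g : ℕ} (hn' : 1 ≤ n') (hg : 1 ≤ g) {T : Tri (Fin (6 * n))} {T' : Tri (Fin (6 * n'))} (hT : T.Conn)
    (hT' : T' ∈ Trn n' g) {S : Part (Fin (6 * n))} {U : Part (Fin (6 * n'))} {χ : Fin (6 * n) → Fin (6 * n')}
    (h : TP.Rep S U T T' χ) {x y w w' : Fin (6 * n')} (hu : Two U x y w w') {z z' : Fin (6 * n)} (hl : S.HL [z, z'])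
    (hz : χ z = w) (hz' : χ z' = w') (hc : S.Con)
    (hadj : ∀ d ∈ S.B, S.s.SameCycle z d → T.a d ∈ S.B → ¬ S.s.SameCycle z' (T.a d)) {m v m2 v2 : ℝ}
    (hL : Link T' x y m v) (htm : Tame T' x y m2 v2) (hm : m + U.B.ncard ≤ m2) (hv : v + U.R.ncard ≤ v2) :
    T.HasSSC (m + S.B.ncard) := by
  have hzB : z ∈ S.B := hl.1 z (by simp)
  have hzB' : z' ∈ S.B := hl.1 z' (by simp)
  have hzz : ¬ S.s.SameCycle z z' := by
    have h4 := hl.2.1
    rw [List.pairwise_cons] at h4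
    exact h4.1 z' (by simp)
  have hwB : w ∈ U.B := hu.hl.1 w (by simp)
  have hwB' : w' ∈ U.B := hu.hl.1 w' (by simp)
  have hadj' := adj_tr h.le h.le' hl hu.hl h.inj h.out h.bd h.nx hz hz' h.a hadj
  obtain ⟨Y', hY'⟩ := link_cut h.le' hu.hl hu.hx hu.hy hu.hxw hu.hyw hu.hxy hu.gen hadj' hL
  have hY := strip_tr2 h.le h.le' hl hu.hl h.inj h.out h.sur h.bd h.nx hz hz' h.f h.a hY'
  have hYY : χ '' {d | d ∉ S.R ∧ χ d ∈ Y'} = Y' := by
    ext e
    constructor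
    · rintro ⟨d, ⟨_, hd⟩, rfl⟩
      exact hd
    · intro he
      obtain ⟨d, hd, rfl⟩ := h.sur e (hY'.hid e he)
      exact ⟨d, ⟨hd, he⟩, rfl⟩
  have hgen : ∀ d ∈ U.R, U.Cn w d ∨ U.Cn w' d := by
    intro d hd
    rcases hu.gen d hd with h1 | h1
    · exact Or.inl (cn_trans (cn_symm hu.hxw) h1)
    · exact Or.inr (cn_trans (cn_symm hu.hyw) h1)
  have hdc := TP.strip_dc2 h.le' hwB hwB' hgen hY'
  have hbd := TP.strip_bdy h.le' hY'
  have hfs : Fs T' (U.R ∪ Y') := by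
    intro d
    rw [Set.mem_union, Set.mem_union, hY'.fs d, le_f_mem h.le' d]
  have hvol : (((U.R ∪ Y').ncard : ℕ) : ℝ) ≤ v2 := by
    have h1 : (((U.R ∪ Y').ncard : ℕ) : ℝ) ≤ (U.R.ncard : ℝ) + (Y'.ncard : ℝ) := by
      exact_mod_cast Set.ncard_union_le _ _
    have h2 := hY'.vol
    linarith
  have hflat : ∀ u ∈ U.R ∪ Y', CO.rk T' (CO.ins T' (U.R ∪ Y' ∪ star T' u)) = 0 :=
    htm (U.R ∪ Y') hfs hdc (Or.inl hu.hx) (Or.inl hu.hy) (hbd.trans hm) hvol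
  have hNe : Nonempty (Fin (6 * n')) := ⟨x⟩
  refine TP.tops hT hT'.1 (n' := n') (g' := g) (by rw [Fintype.card_fin]) hT'.2 hg h hc hzB hzB' hzz hY ?_ ?_ ?_
  · rw [hYY]
    exact hdc
  · rw [hYY]
    intro hun
    have h1 := hflat x (Or.inl hu.hx)
    have h2 : CO.ins T' (U.R ∪ Y' ∪ star T' x) = Set.univ := by
      ext d
      refine ⟨fun _ => Set.mem_univ _, fun _ => ⟨Or.inl ?_, Or.inl ?_⟩⟩
      · rw [hun]
        exact Set.mem_univ _
      · rw [hun]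
        exact Set.mem_univ _
    rw [h2, CO.rk_all hn' hT'] at h1
    omega
  · rw [hYY]
    intro e he
    exact hflat e he.1

theorem bad_reg3 {n n' g : ℕ} (hn' : 1 ≤ n') (hg : 2 ≤ g) {t : Et} (h1 : 1 ≤ t.1) (h2 : 1 ≤ t.2.1) {S0 : Part (Fin (6 * n))}
    {z z' : Fin (6 * n)} (hR : Reg t S0 z z') (hn : dv t.1 + dv t.2.1 + (2 * n - vE t) = 2 * n') {m v m2 v2 : ℝ}
    (hm : m + (t.1 + t.2.1 : ℕ) ≤ m2) (hv : v + (3 * (dv t.1 + dv t.2.1) : ℕ) ≤ v2) :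
    {T | T ∈ S0.Ext g ∧ S0.HConn T ∧ (∀ d ∈ S0.B, S0.s.SameCycle z d → T.a d ∈ S0.B → ¬ S0.s.SameCycle z' (T.a d)) ∧
      ¬ T.HasSSC (m + (t.1 + t.2.1 : ℕ))}.ncard * (6 * n').factorial ≤
      (3 * (2 * n - vE t)).factorial * {q : Tri (Fin (6 * n')) × Fin (6 * n') × Fin (6 * n') | q.1 ∈ Trn n' (g - 1) ∧
        ¬ (Link q.1 q.2.1 q.2.2 m v ∧ Tame q.1 q.2.1 q.2.2 m2 v2)}.ncard := by
  obtain ⟨U, x, y, w, w', hU, hxR, hyR, hxw, hyw, hxy, hgen⟩ := exists_disc2 h1 h2 hn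
  have hTwo : Two U x y w w' := ⟨hU.hl, hxR, hyR, hxw, hyw, hxy, hgen⟩
  obtain ⟨χ, hχ, hχR, hχB, hχn, hχz, hχz'⟩ := exists_chi hR.typ hU
  have hvS := hR.typ.vol
  have hvU := hU.vol
  rw [Nat.card_fin] at hvS hvU
  have hcS : S0.Rᶜ.ncard = 3 * (2 * n - vE t) := by
    have h := Set.ncard_add_ncard_compl S0.R
    rw [Nat.card_fin] at h
    omega
  have hcU : U.Rᶜ.ncard = 3 * (2 * n - vE t) := by
    have h := Set.ncard_add_ncard_compl U.R
    rw [Nat.card_fin] at h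
    omega
  have hUR : U.R.ncard = 3 * (dv t.1 + dv t.2.1) := by omega
  have hUB : U.B.ncard = t.1 + t.2.1 := by
    have h := hl_card hU.hl
    rw [hU.per] at h
    simpa using h
  have hSB : S0.B.ncard = t.1 + t.2.1 := by
    have h := hl_card hR.typ.hl
    rw [hR.typ.per] at h
    simpa using h
  have hsub : S0.Rᶜ ⊆ S0.X := fun d hd => Or.inl hd
  have hRR : ∀ e, e ∉ U.R → ∃ d, d ∉ S0.R ∧ χ d = e := by
    have h : χ '' S0.Rᶜ = U.Rᶜ := by
      refine Set.eq_of_subset_of_ncard_le ?_ ?_ (Set.toFinite _)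
      · rintro _ ⟨d, hd, rfl⟩
        exact hχR d hd
      · rw [Set.InjOn.ncard_image (hχ.mono hsub), hcS, hcU]
    intro e he
    have h' : e ∈ χ '' S0.Rᶜ := by rw [h]; exact he
    obtain ⟨d, hd, hde⟩ := h'
    exact ⟨d, hd, hde⟩
  set Z : Set (Tri (Fin (6 * n))) := {T | T ∈ S0.Ext g ∧ S0.HConn T ∧
    (∀ d ∈ S0.B, S0.s.SameCycle z d → T.a d ∈ S0.B → ¬ S0.s.SameCycle z' (T.a d)) ∧
    ¬ T.HasSSC (m + (t.1 + t.2.1 : ℕ))} with hZ
  have hex : ∀ T ∈ Z, ∃ T' ∈ U.Ext (g - 1), U.HConn T' ∧ (∀ d, d ∉ S0.R → T'.f (χ d) = χ (T.f d)) ∧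
      ∀ d ∈ S0.X, T'.a (χ d) = χ (T.a d) := fun T hT =>
    ext_tr hR.typ hU (by omega) χ hχ hχR hχB hχn hT.1 hT.2.1
  let A : Set (Tri (Fin (6 * n'))) := {T' | ∃ T ∈ Z, T' ∈ U.Ext (g - 1) ∧
    (∀ d, d ∉ S0.R → T'.f (χ d) = χ (T.f d)) ∧ ∀ d ∈ S0.X, T'.a (χ d) = χ (T.a d)}
  have hZA : Z.ncard ≤ A.ncard := by
    rcases Set.eq_empty_or_nonempty Z with h0 | ⟨T0, hT0⟩
    · rw [h0, Set.ncard_empty]
      exact Nat.zero_le _
    obtain ⟨T0', _⟩ := hex T0 hT0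
    have : Nonempty (Tri (Fin (6 * n'))) := ⟨T0'⟩
    have hex' : ∀ T, ∃ T', T ∈ Z → T' ∈ U.Ext (g - 1) ∧ (∀ d, d ∉ S0.R → T'.f (χ d) = χ (T.f d)) ∧
        ∀ d ∈ S0.X, T'.a (χ d) = χ (T.a d) := by
      intro T
      by_cases hT : T ∈ Z
      · obtain ⟨T', k1, _, k3, k4⟩ := hex T hT
        exact ⟨T', fun _ => ⟨k1, k3, k4⟩⟩
      · exact ⟨T0', fun h => absurd h hT⟩
    choose φ hφ using hex'
    refine Set.ncard_le_ncard_of_injOn φ ?_ ?_ (Set.toFinite _)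
    · intro T hT
      exact ⟨T, hT, hφ T hT⟩
    · intro T1 hT1 T2 hT2 h12
      obtain ⟨_, f1, a1⟩ := hφ T1 hT1
      obtain ⟨_, f2, a2⟩ := hφ T2 hT2
      have hX : ∀ (T : Tri (Fin (6 * n))), S0.Le T → ∀ d ∈ S0.X, T.a d ∈ S0.X := by
        intro T hT d hd
        by_contra hn'
        have hn1 : T.a d ∈ S0.R ∧ T.a d ∉ S0.B := by
          refine ⟨by_contra fun h => hn' (Or.inl h), fun h => hn' (Or.inr h)⟩
        have hn2 : S0.a (T.a d) ≠ T.a d := fun h => hn1.2 ⟨hn1.1, h⟩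
        have h3 := hT.2 _ hn2
        rw [T.aa] at h3
        have h4 : d ∈ S0.R := by rw [h3]; exact (mem_R_a S0 _).2 hn1.1
        rcases hd with hd | hd
        · exact hd h4
        · have h5 : S0.a d = d := hd.2
          have h6 : S0.a (S0.a (T.a d)) = S0.a d := by rw [← h3]
          rw [S0.aa, h5] at h6
          exact hn1.2 (by rw [h6]; exact hd)
      refine le_antisymm_R hT1.1.2 hT2.1.2 (fun d hd => ?_) fun d hd => ?_
      · have e1 := f1 d hd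
        have e2 := f2 d hd
        rw [h12, e2] at e1
        exact (hχ (Or.inl fun h => hd ((le_f_mem hT2.1.2 d).1 h))
          (Or.inl fun h => hd ((le_f_mem hT1.1.2 d).1 h)) e1).symm
      · have e1 := a1 d hd
        have e2 := a2 d hd
        rw [h12, e2] at e1
        exact (hχ (hX T2 hT2.1.2 d hd) (hX T1 hT1.1.2 d hd) e1).symm
  have hAL : ∀ T' ∈ A, ¬ (Link T' x y m v ∧ Tame T' x y m2 v2) := by
    rintro T' ⟨T, hT, hE, hf, ha⟩ ⟨hL, hTm⟩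
    have hTw : TP.Rep S0 U T T' χ := ⟨hT.1.2, hE.2, hχ, hχR, hRR, hχB, hχn, hf, ha⟩
    have h3 := tame_ssc hn' (by omega : 1 ≤ g - 1) hT.1.1.1 hE.1 hTw hTwo hR.typ.hl hχz hχz' hR.con hT.2.2.1 hL hTm
      (by rw [hUB]; exact hm) (by rw [hUR]; exact hv)
    rw [hSB] at h3
    exact hT.2.2.2 h3
  have ho := orb hgen A (fun T' hT' => by obtain ⟨T, _, hE, _⟩ := hT'; exact hE.2)
    {q : Tri (Fin (6 * n')) × Fin (6 * n') × Fin (6 * n') | q.1 ∈ Trn n' (g - 1) ∧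
        ¬ (Link q.1 q.2.1 q.2.2 m v ∧ Tame q.1 q.2.1 q.2.2 m2 v2)} (by
      intro T' hT' π
      refine ⟨?_, ?_⟩
      · obtain ⟨T, _, hE, _⟩ := hT'
        exact ⟨(Tri.map_conn T' π).2 hE.1.1, (Tri.map_genus T' π n' (g - 1)).2 hE.1.2⟩
      · rintro ⟨hL, hTm⟩
        exact hAL T' hT' ⟨(link_map T' π x y m v).1 hL, (tame_map T' π x y m2 v2).1 hTm⟩)
  rw [hcU] at ho
  exact le_trans (Nat.mul_le_mul_right _ hZA) ho

end SYS.US
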