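import Pool.Agent.SYS.US.Defs
import Pool.Agent.SYS.UP.Fin

/-!
# SYS-US-NumS: shifts of `n` and `g` by constants
-/

namespace SYS.US

open SST Num UP Filter Topology

private theorem ns_cast {c : ℤ} {n : ℕ} (h : c.natAbs + 1 ≤ n) :
    ((((n : ℤ) + c).toNat : ℕ) : ℝ) = (n : ℝ) + (c : ℝ) := by
  have e2 : ((((n : ℤ) + c).toNat : ℕ) : ℤ) = (n : ℤ) + c := Int.toNat_of_nonneg (by omega)
  have e3 : (((((n : ℤ) + c).toNat : ℕ) : ℤ) : ℝ) = (((n : ℤ) + c : ℤ) : ℝ) := by rw [e2]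
  push_cast at e3
  exact e3

private theorem ns_abs {c : ℤ} {n : ℕ} (h : c.natAbs + 1 ≤ n) :
    0 < (n : ℝ) + (c : ℝ) ∧ (n : ℝ) + (c : ℝ) ≤ 2 * n := by
  have h1 : (0 : ℤ) < (n : ℤ) + c := by omega
  have h2 : (n : ℤ) + c ≤ 2 * n := by omega
  constructor
  · exact_mod_cast h1
  · exact_mod_cast h2

theorem fth_shift (θ : ℝ) (c : ℤ) :
    Tendsto (fun p : ℕ × ℕ => ((((p.1 : ℤ) + c).toNat, p.2 - 1) : ℕ × ℕ)) (Num.Fth θ) (Num.Fth θ) := by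
  have hn : Tendsto (fun p : ℕ × ℕ => (p.1 : ℝ)) (Num.Fth θ) atTop := RB.fst_atTop θ
  have hge : ∀ M : ℕ, ∀ᶠ p : ℕ × ℕ in Num.Fth θ, M ≤ p.1 := fun M => RB.ge_ev θ M
  have hd : Tendsto (fun p : ℕ × ℕ => (p.2 : ℝ) / p.1) (Num.Fth θ) (𝓝 θ) := RB.div_lim θ
  -- `n / (n + c) → 1`
  have hnc : Tendsto (fun p : ℕ × ℕ => (p.1 : ℝ) + (c : ℝ)) (Num.Fth θ) atTop :=
    tendsto_atTop_add_const_right _ _ hn
  have h1 : Tendsto (fun p : ℕ × ℕ => (p.1 : ℝ) / ((p.1 : ℝ) + c)) (Num.Fth θ) (𝓝 1) := by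
    have h2 : Tendsto (fun p : ℕ × ℕ => 1 - (c : ℝ) / ((p.1 : ℝ) + c)) (Num.Fth θ) (𝓝 (1 - 0)) :=
      tendsto_const_nhds.sub (tendsto_const_nhds.div_atTop hnc)
    rw [sub_zero] at h2
    refine h2.congr' ?_
    filter_upwards [hge (c.natAbs + 1)] with p hp
    have h3 := (ns_abs hp).1
    field_simp
    ring
  have h2 : Tendsto (fun p : ℕ × ℕ => (p.2 : ℝ) / ((p.1 : ℝ) + c)) (Num.Fth θ) (𝓝 θ) := by
    have h3 := hd.mul h1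
    rw [mul_one] at h3
    refine h3.congr' ?_
    filter_upwards [hge (c.natAbs + 1)] with p hp
    have h4 := (ns_abs hp).1
    have h5 : (0 : ℝ) < p.1 := by
      have h6 : (1 : ℝ) ≤ p.1 := by exact_mod_cast (le_trans (Nat.le_add_left _ _) hp)
      linarith
    field_simp
  have h3 : Tendsto (fun p : ℕ × ℕ => (p.2 : ℝ) / ((p.1 : ℝ) + c) - 1 / ((p.1 : ℝ) + c))
      (Num.Fth θ) (𝓝 θ) := by
    have h4 := h2.sub (tendsto_const_nhds (x := (1 : ℝ)).div_atTop hnc)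
    rw [sub_zero] at h4
    exact h4
  have h4 : Tendsto (fun p : ℕ × ℕ => (((p.2 - 1 : ℕ) : ℕ) : ℝ) / ((((p.1 : ℤ) + c).toNat : ℕ) : ℝ))
      (Num.Fth θ) (𝓝 θ) := by
    refine tendsto_of_tendsto_of_tendsto_of_le_of_le' h3 h2 ?_ ?_
    · filter_upwards [hge (c.natAbs + 1)] with p hp
      have h4 := (ns_abs hp).1
      rw [ns_cast hp, ← sub_div]
      apply div_le_div_of_nonneg_right _ h4.le
      have h5 : (p.2 : ℝ) ≤ ((p.2 - 1 + 1 : ℕ) : ℝ) := by exact_mod_cast (by omega)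
      push_cast at h5
      linarith
    · filter_upwards [hge (c.natAbs + 1)] with p hp
      have h4 := (ns_abs hp).1
      rw [ns_cast hp]
      apply div_le_div_of_nonneg_right _ h4.le
      exact_mod_cast Nat.sub_le _ _
  have h5 : Tendsto (fun p : ℕ × ℕ => ((p.1 : ℤ) + c).toNat) (Num.Fth θ) atTop := by
    rw [tendsto_atTop]
    intro b
    filter_upwards [hge (b + c.natAbs)] with p hp
    omega
  exact tendsto_inf.2 ⟨tendsto_comap_iff.2 h5, tendsto_comap_iff.2 h4⟩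

theorem nu_shift {θ x : ℝ} (h : Par θ x) (c : ℤ) : ∃ C : ℝ, 0 < C ∧ ∀ᶠ p in Num.Fth θ,
    (6 * ((((p.1 : ℤ) + c).toNat : ℕ) : ℝ)) ^ 2 * SST.nu ((p.1 : ℤ) + c).toNat (p.2 - 1) ≤ C * SST.nu p.1 p.2 := by
  have h1 := nu_sh h (-c) 1
  obtain ⟨L, hL⟩ : ∃ L, L = yy x ^ (-c) * chi x ^ 1 := ⟨_, rfl⟩
  rw [← hL] at h1
  have h2 : L < |L| + 1 := by
    have := le_abs_self L
    linarith
  have h0 : 0 < |L| + 1 := by positivity
  refine ⟨144 * (|L| + 1), by positivity, ?_⟩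
  filter_upwards [h1.eventually_lt_const h2, nu_pos_ev h, RB.ge_ev θ (c.natAbs + 1)] with p h3 h4 h5
  have h6 : (p.1 : ℤ) - -c = (p.1 : ℤ) + c := by ring
  rw [h6, div_lt_iff₀ h4, mul_one] at h3
  rw [ns_cast h5]
  obtain ⟨h7, h8⟩ := ns_abs h5
  have h9 : 0 ≤ SST.nu ((p.1 : ℤ) + c).toNat (p.2 - 1) := nu_nn _ _
  have h10 : (6 * ((p.1 : ℝ) + c)) ^ 2 ≤ 144 * (p.1 : ℝ) ^ 2 := by
    have h11 : 6 * ((p.1 : ℝ) + c) ≤ 12 * p.1 := by linarith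
    calc (6 * ((p.1 : ℝ) + c)) ^ 2 ≤ (12 * (p.1 : ℝ)) ^ 2 := pow_le_pow_left₀ (by positivity) h11 2
      _ = 144 * (p.1 : ℝ) ^ 2 := by ring
  calc (6 * ((p.1 : ℝ) + c)) ^ 2 * SST.nu ((p.1 : ℤ) + c).toNat (p.2 - 1)
      ≤ 144 * (p.1 : ℝ) ^ 2 * SST.nu ((p.1 : ℤ) + c).toNat (p.2 - 1) :=
        mul_le_mul_of_nonneg_right h10 h9
    _ = 144 * (SST.nu ((p.1 : ℤ) + c).toNat (p.2 - 1) * (p.1 : ℝ) ^ 2) := by ring
    _ ≤ 144 * ((|L| + 1) * SST.nu p.1 p.2) := by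
        have := h3.le
        linarith
    _ = 144 * (|L| + 1) * SST.nu p.1 p.2 := by ring

end SYS.US
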