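import Pool.Agent.SYS.US.SeedT
import Pool.Agent.SYS.UP.SysU
import Pool.Agent.SYS.UP.EvE
import Pool.Agent.SYS.UP.EvR

/-!
# SYS-US-Seed: with high probability there is a seed with a strip

PLAN.
* `seed_ev`: exactly as `st2_ev` in `UP/St2.lean`: `evE_le` with `E = Unit`, `Z T S0 z z' _ := ¬ ∃ Y, Strip S0 T z z' Y ..`, `c = η nu`, `seed_reg`; `wE t ≤` a constant: take `η / (1 + wE t)`.  (`S0.Le T`, `HConn` for the event: `ev_reg`.)
* `seeds`: exactly as `up_trn` in `UP/Main.lean` (`sys_u`, `K` with `C / K ≤ η / 3`, finitely many types; `V = 1 + C0 * sc K`; `2 ≤ sc i ≤ t.1`; `ev_reg` for `Reg`, `Le`, `HConn`).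
-/

namespace SYS.US

open SST Part Num XP UP Filter Topology

private theorem sd_fth (θ : ℝ) (N : ℕ) : ∀ᶠ p in Num.Fth θ, N ≤ p.1 := by
  unfold Num.Fth
  exact Filter.Eventually.filter_mono inf_le_left
    ((Filter.eventually_ge_atTop N).comap (Prod.fst : ℕ × ℕ → ℕ))

private theorem sd_nu (n g : ℕ) : 0 ≤ SST.nu n g := by
  unfold SST.nu; positivity

theorem seed_ev {θ x : ℝ} (h : Par θ x) {β C β' C' : ℝ} (hβ : 0 < β) (hC : 0 < C) (hβ' : β < β') (hC' : C < C')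
    (hthin : Thin θ β C) {η : ℝ} (hη : 0 < η) {t : Et} (ht : GoodE t) (ht1 : 2 ≤ t.1) (ht2 : 2 ≤ t.2.1) :
    ∀ᶠ p in Num.Fth θ, (({q : Tri (Fin (6 * p.1)) × Fin (6 * p.1) | q.1 ∈ Trn p.1 p.2 ∧ ∃ S0 z z', Ev q.1 q.2 t S0 z z' ∧
      ¬ ∃ Y, Strip S0 q.1 z z' Y (β' * Real.log p.1) (C' * Real.log p.1)}.ncard : ℕ) : ℝ) ≤
        ((6 * p.1).factorial : ℝ) * (η * SST.nu p.1 p.2) := by
  have hη' : 0 < η / (|wE t| + 1) := by positivity
  filter_upwards [seed_reg h hβ hC hβ' hC' hthin hη' ht1 ht2, sd_fth θ 1, sd_fth θ (vE t)] with p hp hn hv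
  have key := evE_le (g := p.2) (E := Unit) hn ht (show vE t ≤ 2 * p.1 by omega)
    (fun T S0 z z' _ => ¬ ∃ Y, Strip S0 T z z' Y (β' * Real.log p.1) (C' * Real.log p.1))
    (c := η / (|wE t| + 1) * SST.nu p.1 p.2) (mul_nonneg hη'.le (sd_nu _ _)) (by
      intro S0 z z' hR
      refine le_trans ?_ (hp S0 z z' hR)
      have := Set.ncard_le_ncard_of_injOn (s := {q : Tri (Fin (6 * p.1)) × Unit | q.1 ∈ S0.Ext p.2 ∧
        S0.HConn q.1 ∧ ¬ ∃ Y, Strip S0 q.1 z z' Y (β' * Real.log p.1) (C' * Real.log p.1)})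
        (t := {T | T ∈ S0.Ext p.2 ∧ S0.HConn T ∧
          ¬ ∃ Y, Strip S0 T z z' Y (β' * Real.log p.1) (C' * Real.log p.1)})
        Prod.fst (fun q hq => hq) (by
          rintro ⟨a, _⟩ _ ⟨b, _⟩ _ hab
          simp only at hab
          rw [hab]) (Set.toFinite _)
      exact_mod_cast this)
  have h1 := Set.ncard_le_ncard_of_injOn (s := {q : Tri (Fin (6 * p.1)) × Fin (6 * p.1) | q.1 ∈ Trn p.1 p.2 ∧
      ∃ S0 z z', Ev q.1 q.2 t S0 z z' ∧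
        ¬ ∃ Y, Strip S0 q.1 z z' Y (β' * Real.log p.1) (C' * Real.log p.1)})
      (t := {q : Tri (Fin (6 * p.1)) × Fin (6 * p.1) × Unit | q.1 ∈ Trn p.1 p.2 ∧
        ∃ S0 z z', Ev q.1 q.2.1 t S0 z z' ∧
          ¬ ∃ Y, Strip S0 q.1 z z' Y (β' * Real.log p.1) (C' * Real.log p.1)})
      (fun q => (q.1, q.2, ())) (by
        rintro ⟨T, y⟩ ⟨h1, S0, z, z', h2, h3⟩
        exact ⟨h1, S0, z, z', h2, h3⟩) (by
        rintro ⟨a, b⟩ _ ⟨c, d⟩ _ hab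
        simp only [Prod.mk.injEq, and_true] at hab
        obtain ⟨rfl, rfl⟩ := hab
        rfl) (Set.toFinite _)
  have h2 : (({q : Tri (Fin (6 * p.1)) × Fin (6 * p.1) | q.1 ∈ Trn p.1 p.2 ∧
      ∃ S0 z z', Ev q.1 q.2 t S0 z z' ∧
        ¬ ∃ Y, Strip S0 q.1 z z' Y (β' * Real.log p.1) (C' * Real.log p.1)}.ncard : ℕ) : ℝ) ≤
      ((6 * p.1).factorial : ℝ) * wE t * (η / (|wE t| + 1) * SST.nu p.1 p.2) :=
    le_trans (by exact_mod_cast h1) key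
  refine h2.trans ?_
  rw [mul_assoc]
  refine mul_le_mul_of_nonneg_left ?_ (by positivity)
  rw [← mul_assoc]
  refine mul_le_mul_of_nonneg_right ?_ (sd_nu _ _)
  rw [← mul_div_assoc, div_le_iff₀ (by positivity)]
  nlinarith [le_abs_self (wE t), abs_nonneg (wE t)]

/-- There is a seed of size at most `V` with a strip between its two holes. -/
def Sd {n : ℕ} (V : ℕ) (T : Tri (Fin (6 * n))) (m v : ℝ) : Prop :=
  ∃ (t : Et) (S0 : Part (Fin (6 * n))) (z z' : Fin (6 * n)) (Y : Set (Fin (6 * n))), GoodE t ∧ 2 ≤ t.1 ∧ 2 ≤ t.2.1 ∧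
    vE t ≤ V ∧ vE t ≤ 2 * n ∧ t.1 + t.2.1 ≤ V ∧ Reg t S0 z z' ∧ S0.Le T ∧ S0.HConn T ∧ Strip S0 T z z' Y m v

theorem seeds {θ x : ℝ} (h : Par θ x) {β C β' C' : ℝ} (hβ : 0 < β) (hC : 0 < C) (hβ' : β < β') (hC' : C < C')
    (hthin : Thin θ β C) {η : ℝ} (hη : 0 < η) : ∃ V : ℕ, ∀ᶠ p in Num.Fth θ,
    (({T : Tri (Fin (6 * p.1)) | T ∈ Trn p.1 p.2 ∧ ¬ Sd V T (β' * Real.log p.1) (C' * Real.log p.1)}.ncard : ℕ) : ℝ) ≤
      η * ((Trn p.1 p.2).ncard : ℕ) := by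
  classical
  obtain ⟨C0, C1, hC1, hsys⟩ := sys_u h
  obtain ⟨K, hK⟩ := exists_nat_gt (C1 / (η / 3))
  have hK0 : 0 < (K : ℝ) := lt_trans (div_pos hC1 (by linarith)) hK
  have hK1 : 1 ≤ K := by exact_mod_cast hK0
  have hCK : C1 < K * (η / 3) := by
    rwa [div_lt_iff₀ (by linarith)] at hK
  set S : Finset Et := (Finset.range K).biUnion (ES C0) with hS
  have hsc1 : ∀ i, 2 ≤ sc i := by
    intro i
    have : 1 ≤ 4 ^ i := Nat.one_le_pow _ _ (by norm_num)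
    unfold sc
    omega
  have hsc2 : ∀ i, i < K → sc i ≤ sc K := by
    intro i hi
    unfold sc
    exact Nat.mul_le_mul_left 2 (Nat.pow_le_pow_right (by norm_num) hi.le)
  have hSG : ∀ t ∈ S, GoodE t ∧ 2 ≤ t.1 ∧ 2 ≤ t.2.1 ∧ vE t ≤ 1 + (C0 + 4) * sc K ∧
      t.1 + t.2.1 ≤ 1 + (C0 + 4) * sc K := by
    intro t ht
    rw [hS, Finset.mem_biUnion] at ht
    obtain ⟨i, hiK, hi⟩ := ht
    rw [Finset.mem_range] at hiK
    obtain ⟨h1, h2, h3, h4, h5, h6⟩ := mem_EvF.1 hi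
    have h7 := hsc1 i
    have h8 := hsc2 i hiK
    have h9 : C0 * sc i ≤ C0 * sc K := Nat.mul_le_mul_left C0 h8
    have h10 : (C0 + 4) * sc K = C0 * sc K + 4 * sc K := by ring
    refine ⟨h1, by omega, by omega, ?_, by omega⟩
    unfold vE
    omega
  refine ⟨1 + (C0 + 4) * sc K, ?_⟩
  set η' : ℝ := η / (3 * (S.card + 1)) with hη'
  have hη'0 : 0 < η' := by positivity
  have hev : ∀ᶠ p in Num.Fth θ, ∀ t ∈ S, (({q : Tri (Fin (6 * p.1)) × Fin (6 * p.1) | q.1 ∈ Trn p.1 p.2 ∧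
      ∃ S0 z z', Ev q.1 q.2 t S0 z z' ∧
        ¬ ∃ Y, Strip S0 q.1 z z' Y (β' * Real.log p.1) (C' * Real.log p.1)}.ncard : ℕ) : ℝ) ≤
        ((6 * p.1).factorial : ℝ) * (η' * SST.nu p.1 p.2) := by
    rw [Filter.eventually_all_finset]
    exact fun t ht => seed_ev h hβ hC hβ' hC' hthin hη'0 (hSG t ht).1 (hSG t ht).2.1 (hSG t ht).2.2.1
  filter_upwards [hsys K hK1, hev, sd_fth θ 1] with p h1 h2 hn
  have hnu : ((6 * p.1).factorial : ℝ) * SST.nu p.1 p.2 = (Trn p.1 p.2).ncard := by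
    have h3 : ((6 * p.1).factorial : ℝ) ≠ 0 := by exact_mod_cast Nat.factorial_ne_zero _
    rw [SST.nu]
    field_simp
  have h0' : (0 : ℝ) ≤ ((Trn p.1 p.2).ncard : ℝ) := Nat.cast_nonneg _
  set B : Set (Tri (Fin (6 * p.1))) := {T | T ∈ Trn p.1 p.2 ∧
    ¬ Sd (1 + (C0 + 4) * sc K) T (β' * Real.log p.1) (C' * Real.log p.1)} with hB
  set A0 : Set (Tri (Fin (6 * p.1))) := {T | T ∈ Trn p.1 p.2 ∧ ∀ i < K, ∀ y, ¬ EvX (ES C0 i) T y} with hA0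
  let Q : Et → Set (Tri (Fin (6 * p.1)) × Fin (6 * p.1)) := fun t => {q | q.1 ∈ Trn p.1 p.2 ∧
      ∃ S0 z z', Ev q.1 q.2 t S0 z z' ∧
        ¬ ∃ Y, Strip S0 q.1 z z' Y (β' * Real.log p.1) (C' * Real.log p.1)}
  have hsub : B ⊆ A0 ∪ ⋃ t ∈ S, Prod.fst '' Q t := by
    rintro T ⟨hT, hn'⟩
    by_cases h3 : ∀ i < K, ∀ y, ¬ EvX (ES C0 i) T y
    · exact Or.inl ⟨hT, h3⟩
    · right
      push Not at h3
      obtain ⟨i, hi, y, t, ht, S0, z, z', he⟩ := h3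
      have htS : t ∈ S := by
        rw [hS, Finset.mem_biUnion]
        exact ⟨i, Finset.mem_range.2 hi, ht⟩
      obtain ⟨k1, k2, k3, k4, k5⟩ := hSG t htS
      obtain ⟨r1, r2, r3, r4⟩ := ev_reg hn k1 he
      rw [Set.mem_iUnion₂]
      refine ⟨t, htS, (T, y), ⟨hT, S0, z, z', he, ?_⟩, rfl⟩
      rintro ⟨Y, hY⟩
      exact hn' ⟨t, S0, z, z', Y, k1, k2, k3, k4, r2, k5, r1, r3, r4, hY⟩
  have e1 : B.ncard ≤ A0.ncard + ∑ t ∈ S, (Q t).ncard := by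
    refine (Set.ncard_le_ncard hsub (Set.toFinite _)).trans ((Set.ncard_union_le _ _).trans (Nat.add_le_add_left ?_ _))
    refine (Finset.set_ncard_biUnion_le _ _).trans (Finset.sum_le_sum fun t _ => ?_)
    exact Set.ncard_image_le (Set.toFinite _)
  have e2 : (B.ncard : ℝ) ≤ A0.ncard + ∑ t ∈ S, ((Q t).ncard : ℝ) := by exact_mod_cast e1
  have e3 : ∑ t ∈ S, ((Q t).ncard : ℝ) ≤ ∑ _t ∈ S, η' * (Trn p.1 p.2).ncard := by
    refine Finset.sum_le_sum fun t ht => (h2 t ht).trans (le_of_eq ?_)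
    rw [← hnu]
    ring
  rw [Finset.sum_const, nsmul_eq_mul] at e3
  have e4 : (S.card : ℝ) * η' ≤ η / 3 := by
    rw [hη', mul_div_assoc', div_le_iff₀ (by positivity)]
    nlinarith
  have e5 : (A0.ncard : ℝ) ≤ η / 3 * (Trn p.1 p.2).ncard := by
    have h4 : (K : ℝ) * A0.ncard ≤ C1 * (Trn p.1 p.2).ncard := h1
    have h5 : C1 * ((Trn p.1 p.2).ncard : ℝ) ≤ K * (η / 3) * (Trn p.1 p.2).ncard :=
      mul_le_mul_of_nonneg_right hCK.le h0'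
    have h6 : (K : ℝ) * A0.ncard ≤ K * (η / 3 * (Trn p.1 p.2).ncard) := by
      calc (K : ℝ) * A0.ncard ≤ C1 * (Trn p.1 p.2).ncard := h4
        _ ≤ K * (η / 3) * (Trn p.1 p.2).ncard := h5
        _ = K * (η / 3 * (Trn p.1 p.2).ncard) := by ring
    exact le_of_mul_le_mul_left h6 hK0
  have e6 : (S.card : ℝ) * (η' * (Trn p.1 p.2).ncard) ≤ η / 3 * (Trn p.1 p.2).ncard := by
    rw [← mul_assoc]
    exact mul_le_mul_of_nonneg_right e4 h0'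
  have e7 : 0 ≤ η / 3 * ((Trn p.1 p.2).ncard : ℝ) := by positivity
  linarith

end SYS.US
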