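import Pool.Agent.SYS.US.Defs

/-!
# SYS-US-ThinA: links to the faces near a set
-/

namespace SYS.US

open SST Part Num XP

private theorem link_mono' {D : Type} {T : Tri D} {x y : D} {m v m' v' : ℝ} (h : Link T x y m v) (hm : m ≤ m') (hv : v ≤ v') :
    Link T x y m' v' := by
  obtain ⟨Y, h1, h2, h3, h4, h5, h6⟩ := h
  exact ⟨Y, h1, h2, h3, h4, h5.trans hm, h6.trans hv⟩

private theorem link_f {D : Type} {T : Tri D} {x y : D} {m v : ℝ} (h : Link T x (T.f y) m v) : Link T x y m v := by
  obtain ⟨Y, h1, h2, h3, h4, h5, h6⟩ := h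
  exact ⟨Y, h1, h2, h3, (h1 y).1 h4, h5, h6⟩

private theorem link_a {D : Type} [Finite D] {T : Tri D} {x y : D} {m v : ℝ} (h : Link T x (T.a y) m v) :
    Link T x y (m + 1) (v + 3) := by
  obtain ⟨W, h1, h2, h3, h4, h5, h6⟩ := h
  by_cases hy : y ∈ W
  · exact ⟨W, h1, h2, h3, hy, by linarith, by linarith⟩
  obtain ⟨F, hF⟩ : ∃ F : Set D, F = {y, T.f y, T.f (T.f y)} := ⟨_, rfl⟩
  have hmF : ∀ d, d ∈ F ↔ d = y ∨ d = T.f y ∨ d = T.f (T.f y) := by
    intro d
    rw [hF]
    simp
  have hFf : ∀ d, T.f d ∈ F ↔ d ∈ F := by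
    intro d
    rw [hmF, hmF]
    constructor
    · rintro (h | h | h)
      · right; right
        rw [← h, T.fff]
      · left
        exact T.f.injective h
      · right; left
        exact T.f.injective h
    · rintro (h | h | h)
      · right; left
        rw [h]
      · right; right
        rw [h]
      · left
        rw [h, T.fff]
  have hyF : y ∈ F := (hmF y).2 (Or.inl rfl)
  have hFy : ∀ Z : Set D, (∀ d ∈ Z, T.f d ∈ Z) → ∀ d ∈ Z, d ∈ F → y ∈ Z := by
    intro Z hZ d hd hdF
    rcases (hmF d).1 hdF with h | h | h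
    · rwa [← h]
    · have h7 := hZ _ (hZ d hd)
      rwa [h, T.fff] at h7
    · have h7 := hZ d hd
      rwa [h, T.fff] at h7
  refine ⟨W ∪ F, ?_, ?_, Or.inl h3, Or.inr hyF, ?_, ?_⟩
  · intro d
    rw [Set.mem_union, Set.mem_union, h1 d, hFf d]
  · intro Z hZ hne hf ha
    have key : (Z ∩ W).Nonempty → Z = W ∪ F := by
      intro hn
      have h7 : Z ∩ W = W := by
        refine h2 _ Set.inter_subset_right hn ?_ ?_
        · intro d hd
          exact ⟨hf d hd.1, (h1 d).2 hd.2⟩
        · intro d hd hdW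
          exact ⟨ha d hd.1 (Or.inl hdW), hdW⟩
      have h8 : W ⊆ Z := fun d hd => (h7.symm ▸ hd : d ∈ Z ∩ W).1
      have h9 : y ∈ Z := by
        have h10 := ha _ (h8 h4)
        rw [T.aa] at h10
        exact h10 (Or.inr hyF)
      refine Set.Subset.antisymm hZ ?_
      rintro d (hd | hd)
      · exact h8 hd
      · rcases (hmF d).1 hd with h | h | h
        · rwa [h]
        · rw [h]
          exact hf _ h9
        · rw [h]
          exact hf _ (hf _ h9)
    by_cases hn : (Z ∩ W).Nonempty
    · exact key hn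
    · exfalso
      obtain ⟨d, hd⟩ := hne
      have hdF : d ∈ F := by
        rcases hZ hd with h | h
        · exact absurd ⟨d, hd, h⟩ hn
        · exact h
      have h7 := hFy Z hf d hd hdF
      exact hn ⟨T.a y, ha y h7 (Or.inl h4), h4⟩
  · have h7 : bdy T (W ∪ F) ⊆ (bdy T W \ {T.a y}) ∪ {T.f y, T.f (T.f y)} := by
      rintro d ⟨hd, hd'⟩
      rcases hd with h | h
      · left
        refine ⟨⟨h, fun h8 => hd' (Or.inl h8)⟩, ?_⟩
        intro h8
        rw [Set.mem_singleton_iff] at h8
        rw [h8, T.aa] at hd'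
        exact hd' (Or.inr hyF)
      · right
        rcases (hmF d).1 h with h | h | h
        · rw [h] at hd'
          exact absurd (Or.inl h4) hd'
        · rw [h]
          exact Or.inl rfl
        · rw [h]
          exact Or.inr rfl
    have h8 : T.a y ∈ bdy T W := ⟨h4, by rw [T.aa]; exact hy⟩
    have h9 := Set.ncard_le_ncard h7 (Set.toFinite _)
    have h10 := Set.ncard_union_le (bdy T W \ {T.a y}) {T.f y, T.f (T.f y)}
    have h11 := Set.ncard_sdiff_singleton_add_one h8 (Set.toFinite _)
    have h12 : ({T.f y, T.f (T.f y)} : Set D).ncard ≤ 2 := by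
      refine (Set.ncard_insert_le _ _).trans ?_
      rw [Set.ncard_singleton]
    have h13 : (bdy T (W ∪ F)).ncard ≤ (bdy T W).ncard + 1 := by omega
    have h14 : ((bdy T (W ∪ F)).ncard : ℝ) ≤ ((bdy T W).ncard : ℝ) + 1 := by exact_mod_cast h13
    linarith
  · have h7 : F.ncard ≤ 3 := by
      rw [hF]
      refine (Set.ncard_insert_le _ _).trans ?_
      have h12 : ({T.f y, T.f (T.f y)} : Set D).ncard ≤ 2 := by
        refine (Set.ncard_insert_le _ _).trans ?_
        rw [Set.ncard_singleton]
      omega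
    have h8 := Set.ncard_union_le W F
    have h9 : (W ∪ F).ncard ≤ W.ncard + 3 := by omega
    have h10 : ((W ∪ F).ncard : ℝ) ≤ (W.ncard : ℝ) + 3 := by exact_mod_cast h9
    linarith

theorem link_nb {D : Type} [Finite D] (T : Tri D) {x : D} {Y : Set D} {m v : ℝ} (h : ∀ d ∈ Y, Link T x d m v) (k : ℕ) :
    ∀ d ∈ (nb T)^[k] Y, Link T x d (m + k) (v + 3 * k) := by
  induction k with
  | zero =>
    intro d hd
    rw [Function.iterate_zero, id] at hd
    have h1 := h d hd
    simpa using h1
  | succ k ih =>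
    intro d hd
    rw [Function.iterate_succ_apply'] at hd
    have hm : m + ((k + 1 : ℕ) : ℝ) = m + k + 1 := by push_cast; ring
    have hv : v + 3 * ((k + 1 : ℕ) : ℝ) = v + 3 * k + 3 := by push_cast; ring
    rw [hm, hv]
    rcases hd with h1 | h1 | h1 | h1
    · exact link_mono' (ih _ h1) (by linarith) (by linarith)
    · exact link_a (ih _ h1)
    · exact link_f (link_a (ih _ h1))
    · exact link_f (link_f (link_a (ih _ h1)))

theorem link_mono {D : Type} {T : Tri D} {x y : D} {m v m' v' : ℝ} (h : Link T x y m v) (hm : m ≤ m') (hv : v ≤ v') :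
    Link T x y m' v' := link_mono' h hm hv

end SYS.US
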