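import Pool.Agent.SYS.US.BadE
import Pool.Agent.SYS.US.AdjC
import Pool.Agent.SYS.US.ThinE
import Pool.Agent.SYS.US.NumS
import Pool.Agent.SYS.UP.MuNu

/-!
# SYS-US-SeedH: over a seed of a fixed type there is a short simple separating cycle with high probability
-/

namespace SYS.US

open SST Part Num XP UP Filter Topology

theorem ssc_mono4 {D : Type} {T : Tri D} {m m' : ℝ} (h : T.HasSSC m) (hm : m ≤ m') : T.HasSSC m' := by
  obtain ⟨c, h1, h2, h3, h4, h5, h6⟩ := h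
  exact ⟨c, h1, h2, h3, h4, h5, h6.trans hm⟩

private theorem fst_top4 (θ : ℝ) : Tendsto (fun p : ℕ × ℕ => p.1) (Num.Fth θ) atTop := by
  unfold Num.Fth
  exact tendsto_comap.mono_left inf_le_left

private theorem log_top4 (θ : ℝ) : Tendsto (fun p : ℕ × ℕ => Real.log (p.1 : ℝ)) (Num.Fth θ) atTop :=
  Real.tendsto_log_atTop.comp (tendsto_natCast_atTop_atTop.comp (fst_top4 θ))

private theorem add_const4 {b b' : ℝ} (h : b < b') (θ V : ℝ) :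
    ∀ᶠ p in Num.Fth θ, b * Real.log (((p : ℕ × ℕ).1 : ℕ) : ℝ) + V ≤ b' * Real.log (p.1 : ℝ) := by
  filter_upwards [(log_top4 θ).eventually_ge_atTop (V / (b' - b))] with p hp
  have h5 : V ≤ Real.log (p.1 : ℝ) * (b' - b) := (div_le_iff₀ (by linarith)).1 hp
  nlinarith

private theorem log_shift4 {b b' : ℝ} (hb : 0 < b) (h : b < b') (θ : ℝ) (c : ℤ) (V : ℝ) :
    ∀ᶠ p in Num.Fth θ, b * Real.log (((((p : ℕ × ℕ).1 : ℤ) + c).toNat : ℕ) : ℝ) + V ≤ b' * Real.log (p.1 : ℝ) := by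
  filter_upwards [(log_top4 θ).eventually_ge_atTop ((b * Real.log 2 + V) / (b' - b)),
    (fst_top4 θ).eventually_ge_atTop (c.natAbs + 1)] with p hp hp1
  have hp0 : (0 : ℝ) < (p.1 : ℝ) := by
    have : 0 < p.1 := by omega
    exact_mod_cast this
  have h2 : 0 < ((p.1 : ℤ) + c).toNat := by omega
  have h3 : ((p.1 : ℤ) + c).toNat ≤ 2 * p.1 := by omega
  have h4 : Real.log (((((p : ℕ × ℕ).1 : ℤ) + c).toNat : ℕ) : ℝ) ≤ Real.log 2 + Real.log (p.1 : ℝ) := by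
    rw [← Real.log_mul (by norm_num) hp0.ne']
    apply Real.log_le_log
    · exact_mod_cast h2
    · exact_mod_cast h3
  have h5 : b * Real.log 2 + V ≤ Real.log (p.1 : ℝ) * (b' - b) := (div_le_iff₀ (by linarith)).1 hp
  have h6 : b * Real.log (((((p : ℕ × ℕ).1 : ℤ) + c).toNat : ℕ) : ℝ) ≤ b * (Real.log 2 + Real.log (p.1 : ℝ)) :=
    mul_le_mul_of_nonneg_left h4 hb.le
  nlinarith

private theorem reg_par4 {n : ℕ} {t : Et} {S0 : Part (Fin (6 * n))} {z z' : Fin (6 * n)} (h : Reg t S0 z z')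
    (hv : vE t ≤ 2 * n) : Even (vE t + t.1 + t.2.1) := by
  have h1 := h.typ.vol
  have h2 := h.typ.eul
  have h3 : Nat.card (Fin (6 * n)) = 6 * n := Nat.card_fin _
  rw [h3] at h1
  have h4 : [t.1, t.2.1].sum = t.1 + t.2.1 := by simp
  have h5 : [z, z'].length = 2 := rfl
  rw [h4, h5] at h2
  exact ⟨S0.inn + t.1 + t.2.1, by omega⟩

theorem seed_reg4 {θ x : ℝ} (h : Par θ x) {β β' β2 : ℝ} (hβ : 0 < β) (hβ' : β < β') (hβ2 : β < β2)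
    (hthin : ThinE θ β) (htm : ∀ C2 : ℝ, TameW θ β2 C2) {η : ℝ} (hη : 0 < η) {t : Et} (ht1 : 2 ≤ t.1)
    (ht2 : 2 ≤ t.2.1) :
    ∀ᶠ p in Num.Fth θ, ∀ (S0 : Part (Fin (6 * p.1))) (z z' : Fin (6 * p.1)), Reg t S0 z z' →
      (({T | T ∈ S0.Ext p.2 ∧ S0.HConn T ∧ ¬ T.HasSSC (β' * Real.log p.1)}.ncard : ℕ) : ℝ) ≤
        ((3 * (2 * p.1 - vE t)).factorial : ℝ) * (η * SST.nu p.1 p.2) := by
  by_cases hpar : Even (vE t + t.1 + t.2.1)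
  swap
  · filter_upwards [(fst_top4 θ).eventually_ge_atTop (vE t)] with p hp S0 z z' hR
    exact absurd (reg_par4 hR (by omega)) hpar
  have hd1 := dv_par t.1
  have hd2 := dv_par t.2.1
  obtain ⟨c, hc⟩ : ∃ c : ℤ, 2 * c = (dv t.1 : ℤ) + dv t.2.1 - vE t := by
    obtain ⟨a1, ha1⟩ := hpar
    obtain ⟨a2, ha2⟩ := hd1
    obtain ⟨a3, ha3⟩ := hd2
    exact ⟨(a2 : ℤ) + a3 - a1, by omega⟩
  obtain ⟨C₁, hC₁, hnu⟩ := nu_shift h c
  have hη₁ : 0 < η / (4 * C₁) := by positivity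
  obtain ⟨C, hthC⟩ := hthin (η / (4 * C₁)) hη₁
  obtain ⟨C2, hC2⟩ : ∃ C2 : ℝ, C < C2 := ⟨C + 1, by linarith⟩
  have hth := (fth_shift θ c).eventually hthC
  have htmm := (fth_shift θ c).eventually (htm C2 (η / (4 * C₁)) hη₁)
  have hB2 := (fth_shift θ c).eventually (add_const4 hβ2 θ ((t.1 + t.2.1 : ℕ) : ℝ))
  have hV2 := (fth_shift θ c).eventually (add_const4 hC2 θ ((3 * (dv t.1 + dv t.2.1) : ℕ) : ℝ))
  obtain ⟨C₂, hC₂, hmu⟩ := mu_nu h {t.1 + t.2.1 - 2} (by simp)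
    (by
      intro q hq
      rw [Multiset.mem_singleton] at hq
      omega) (vE t) 1
  obtain ⟨M, hM⟩ : ∃ M : ℕ, 2 * ((t.1 : ℝ) * t.2.1 * C₂) / η ≤ M := exists_nat_ge _
  filter_upwards [hnu, hth, htmm, hB2, hV2, log_shift4 hβ hβ' θ c ((t.1 + t.2.1 : ℕ) : ℝ),
    (fst_top4 θ).eventually_ge_atTop (vE t + 1), RB.ge_ev' h.1 2, hmu, nu_pos_ev h, (fst_top4 θ).eventually_ge_atTop M]
    with p hp1 hp2 hp3 hp4 hp5 hp6 hp7 hp9 hp10 hp11 hp12 S0 z z' hR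
  have hp9' : 2 ≤ p.2 := hp9
  have hn0 : (0 : ℝ) < (p.1 : ℝ) := by
    have : 0 < p.1 := by omega
    exact_mod_cast this
  have hnn : dv t.1 + dv t.2.1 + (2 * p.1 - vE t) = 2 * ((p.1 : ℤ) + c).toNat := by omega
  generalize hn' : ((p.1 : ℤ) + c).toNat = n' at *
  have hn1 : 1 ≤ n' := by omega
  have hB := bad_reg3 hn1 hp9' (le_trans one_le_two ht1) (le_trans one_le_two ht2) hR hnn (m := β * Real.log n')
    (v := C * Real.log n') (m2 := β2 * Real.log n') (v2 := C2 * Real.log n') hp4 hp5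
  have hA := adj_le (show 1 ≤ p.2 by omega) ht1 ht2 hR
  set Bd : Set (Tri (Fin (6 * p.1))) := {T | T ∈ S0.Ext p.2 ∧ S0.HConn T ∧
      (∀ d ∈ S0.B, S0.s.SameCycle z d → T.a d ∈ S0.B → ¬ S0.s.SameCycle z' (T.a d)) ∧
      ¬ T.HasSSC (β * Real.log n' + (t.1 + t.2.1 : ℕ))} with hBd
  set Ad : Set (Tri (Fin (6 * p.1))) := {T | T ∈ S0.Ext p.2 ∧ S0.HConn T ∧
      ¬ ∀ d ∈ S0.B, S0.s.SameCycle z d → T.a d ∈ S0.B → ¬ S0.s.SameCycle z' (T.a d)} with hAd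
  have hsub : {T | T ∈ S0.Ext p.2 ∧ S0.HConn T ∧ ¬ T.HasSSC (β' * Real.log p.1)} ⊆ Bd ∪ Ad := by
    rintro T ⟨h1, h2, h3⟩
    by_cases h4 : ∀ d ∈ S0.B, S0.s.SameCycle z d → T.a d ∈ S0.B → ¬ S0.s.SameCycle z' (T.a d)
    · exact Or.inl ⟨h1, h2, h4, fun h5 => h3 (ssc_mono4 h5 hp6)⟩
    · exact Or.inr ⟨h1, h2, h4⟩
  have hcard := (Set.ncard_le_ncard hsub (Set.toFinite _)).trans (Set.ncard_union_le _ _)
  set Q : Set (Tri (Fin (6 * n')) × Fin (6 * n') × Fin (6 * n')) := {q | q.1 ∈ Trn n' (p.2 - 1) ∧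
        ¬ (Link q.1 q.2.1 q.2.2 (β * Real.log n') (C * Real.log n') ∧
          Tame q.1 q.2.1 q.2.2 (β2 * Real.log n') (C2 * Real.log n'))} with hQ
  set Q1 : Set (Tri (Fin (6 * n')) × Fin (6 * n') × Fin (6 * n')) := {q | q.1 ∈ Trn n' (p.2 - 1) ∧
        ¬ Link q.1 q.2.1 q.2.2 (β * Real.log n') (C * Real.log n')} with hQ1
  set Q2 : Set (Tri (Fin (6 * n')) × Fin (6 * n') × Fin (6 * n')) := {q | q.1 ∈ Trn n' (p.2 - 1) ∧
        ¬ Tame q.1 q.2.1 q.2.2 (β2 * Real.log n') (C2 * Real.log n')} with hQ2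
  have hQsub : Q ⊆ Q1 ∪ Q2 := by
    rintro q ⟨h1, h2⟩
    by_cases h3 : Link q.1 q.2.1 q.2.2 (β * Real.log n') (C * Real.log n')
    · exact Or.inr ⟨h1, fun h4 => h2 ⟨h3, h4⟩⟩
    · exact Or.inl ⟨h1, h3⟩
  have hQc : Q.ncard ≤ Q1.ncard + Q2.ncard :=
    (Set.ncard_le_ncard hQsub (Set.toFinite _)).trans (Set.ncard_union_le _ _)
  have hQr : (Q.ncard : ℝ) ≤ (Q1.ncard : ℝ) + (Q2.ncard : ℝ) := by exact_mod_cast hQc
  have hb1 : (Q1.ncard : ℝ) ≤ η / (4 * C₁) * (6 * (n' : ℝ)) ^ 2 * ((Trn n' (p.2 - 1)).ncard : ℕ) := hp2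
  have hb2 : (Q2.ncard : ℝ) ≤ η / (4 * C₁) * (6 * (n' : ℝ)) ^ 2 * ((Trn n' (p.2 - 1)).ncard : ℕ) := hp3
  have hfac : (0 : ℝ) < ((6 * n').factorial : ℝ) := by exact_mod_cast Nat.factorial_pos _
  have hF : (0 : ℝ) < ((3 * (2 * p.1 - vE t)).factorial : ℝ) := by exact_mod_cast Nat.factorial_pos _
  have hnuE : ((Trn n' (p.2 - 1)).ncard : ℝ) = SST.nu n' (p.2 - 1) * ((6 * n').factorial : ℝ) := by
    unfold SST.nu
    rw [div_mul_cancel₀ _ hfac.ne']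
  have h1 : (Bd.ncard : ℝ) * ((6 * n').factorial : ℝ) ≤ ((3 * (2 * p.1 - vE t)).factorial : ℝ) * Q.ncard := by
    exact_mod_cast hB
  have h2 : (Bd.ncard : ℝ) * ((6 * n').factorial : ℝ) ≤
      (((3 * (2 * p.1 - vE t)).factorial : ℝ) * (η / (2 * C₁) * ((6 * (n' : ℝ)) ^ 2 * SST.nu n' (p.2 - 1)))) *
        ((6 * n').factorial : ℝ) := by
    refine h1.trans ?_
    have h3 : (Q.ncard : ℝ) ≤ η / (2 * C₁) * (6 * (n' : ℝ)) ^ 2 * ((Trn n' (p.2 - 1)).ncard : ℕ) := by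
      refine hQr.trans ((add_le_add hb1 hb2).trans (le_of_eq ?_))
      field_simp
      ring
    refine (mul_le_mul_of_nonneg_left h3 hF.le).trans (le_of_eq ?_)
    rw [hnuE]
    ring
  have h3 := le_of_mul_le_mul_right h2 hfac
  have hBr : (Bd.ncard : ℝ) ≤ ((3 * (2 * p.1 - vE t)).factorial : ℝ) * (η / 2 * SST.nu p.1 p.2) := by
    refine h3.trans (mul_le_mul_of_nonneg_left ?_ hF.le)
    calc η / (2 * C₁) * ((6 * (n' : ℝ)) ^ 2 * SST.nu n' (p.2 - 1)) ≤ η / (2 * C₁) * (C₁ * SST.nu p.1 p.2) :=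
          mul_le_mul_of_nonneg_left hp1 (by positivity)
      _ = η / 2 * SST.nu p.1 p.2 := by field_simp
  have hAr : (Ad.ncard : ℝ) ≤ ((3 * (2 * p.1 - vE t)).factorial : ℝ) * (η / 2 * SST.nu p.1 p.2) := by
    refine hA.trans (mul_le_mul_of_nonneg_left ?_ hF.le)
    have h1 : muG {t.1 + t.2.1 - 2} (2 * p.1 - vE t) (p.2 - 1) * (p.1 : ℝ) ≤ C₂ * SST.nu p.1 p.2 := by
      have h2 := hp10
      rw [Multiset.card_singleton, pow_one] at h2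
      have h3 : (muG {t.1 + t.2.1 - 2} (2 * p.1 - vE t) (p.2 - 1) * (p.1 : ℝ)) * (p.1 : ℝ) ≤
          (C₂ * SST.nu p.1 p.2) * (p.1 : ℝ) := by
        calc _ = muG {t.1 + t.2.1 - 2} (2 * p.1 - vE t) (p.2 - 1) * (p.1 : ℝ) ^ (2 * 1) := by ring
          _ ≤ C₂ * (p.1 : ℝ) * SST.nu p.1 p.2 := h2
          _ = _ := by ring
      exact le_of_mul_le_mul_right h3 hn0
    have h4 : 2 * ((t.1 : ℝ) * t.2.1 * C₂) ≤ η * (p.1 : ℝ) := by
      have h5 : (M : ℝ) ≤ (p.1 : ℝ) := by exact_mod_cast hp12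
      have h6 := (div_le_iff₀ hη).1 (hM.trans h5)
      linarith
    have h7 : ((t.1 : ℝ) * t.2.1 * muG {t.1 + t.2.1 - 2} (2 * p.1 - vE t) (p.2 - 1)) * (p.1 : ℝ) ≤
        (η / 2 * SST.nu p.1 p.2) * (p.1 : ℝ) := by
      have h8 : (0 : ℝ) ≤ (t.1 : ℝ) * t.2.1 := by positivity
      calc _ = ((t.1 : ℝ) * t.2.1) * (muG {t.1 + t.2.1 - 2} (2 * p.1 - vE t) (p.2 - 1) * (p.1 : ℝ)) := by ring
        _ ≤ ((t.1 : ℝ) * t.2.1) * (C₂ * SST.nu p.1 p.2) := mul_le_mul_of_nonneg_left h1 h8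
        _ = ((t.1 : ℝ) * t.2.1 * C₂) * SST.nu p.1 p.2 := by ring
        _ ≤ (η / 2 * (p.1 : ℝ)) * SST.nu p.1 p.2 := mul_le_mul_of_nonneg_right (by linarith) hp11.le
        _ = _ := by ring
    exact le_of_mul_le_mul_right h7 hn0
  have hcr : (({T | T ∈ S0.Ext p.2 ∧ S0.HConn T ∧ ¬ T.HasSSC (β' * Real.log p.1)}.ncard : ℕ) : ℝ) ≤
      (Bd.ncard : ℝ) + (Ad.ncard : ℝ) := by exact_mod_cast hcard
  refine hcr.trans ((add_le_add hBr hAr).trans (le_of_eq ?_))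
  ring

end SYS.US
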