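import Pool.Agent.SYS.US.BadC
import Pool.Agent.SYS.US.AdjC
import Pool.Agent.SYS.US.NumS
import Pool.Agent.SYS.UP.MuNu

/-!
# SYS-US-SeedT: over a seed of a fixed type there is a strip with high probability

PLAN.  Let `v = vE t`.  If a region exists (`Reg`, `v ≤ 2n`) then `v + t.1 + t.2.1` is even (field `eul` of `typ`: `3 v + 12 = 6 inn + 3 (t.1 + t.2.1) + 12`), so `v + dv t.1 + dv t.2.1` is even (`dv_par`): `c := (dv t.1 + dv t.2.1 - v)/2 : ℤ`, `n' = (n + c).toNat` satisfies `dv t.1 + dv t.2.1 + (2n - v) = 2 n'` eventually.  If the parity is wrong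
there is no region and nothing to prove.  `bad_reg` with `m = β' log n`, `v = C' log n`: eventually `β log n' ≤ β' log n`, `C log n' ≤ C' log n` (`n' = n + O(1)`, `β < β'`, `0 ≤ β`..; `Link` is monotone in `m`, `v`), `Thin` at `(n', g - 1)` (`fth_shift`) with `η₁ = η / (2 C₁)`, `C₁` from `nu_shift`:
`#bad (6n')! ≤ (3F)! η₁ (6n')² #Trn n' (g-1) = (3F)! η₁ (6n')² (6n')! nu n' (g-1)`.  `adj_le` and `mu_nu` for `{t.1 + t.2.1 - 2}`, `j = 1`: `muG n² ≤ C₂ n nu`, so the second part is `≤ (3F)! t.1 t.2.1 C₂ nu / n ≤ (3F)! (η/2) nu`.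
-/

namespace SYS.US

open SST Part Num XP UP Filter Topology

private theorem link_mono {D : Type} {T : Tri D} {x y : D} {m v m' v' : ℝ} (hm : m ≤ m') (hv : v ≤ v')
    (h : Link T x y m v) : Link T x y m' v' := by
  obtain ⟨Y, h1, h2, h3, h4, h5, h6⟩ := h
  exact ⟨Y, h1, h2, h3, h4, h5.trans hm, h6.trans hv⟩

private theorem fst_top (θ : ℝ) : Tendsto (fun p : ℕ × ℕ => p.1) (Num.Fth θ) atTop := by
  unfold Num.Fth
  exact tendsto_comap.mono_left inf_le_left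

private theorem log_shift {b b' : ℝ} (hb : 0 < b) (h : b < b') (θ : ℝ) (c : ℤ) :
    ∀ᶠ p in Num.Fth θ, b * Real.log (((((p : ℕ × ℕ).1 : ℤ) + c).toNat : ℕ) : ℝ) ≤ b' * Real.log (p.1 : ℝ) := by
  have h1 : Tendsto (fun p : ℕ × ℕ => Real.log (p.1 : ℝ)) (Num.Fth θ) atTop :=
    Real.tendsto_log_atTop.comp (tendsto_natCast_atTop_atTop.comp (fst_top θ))
  filter_upwards [h1.eventually_ge_atTop (b * Real.log 2 / (b' - b)), (fst_top θ).eventually_ge_atTop (c.natAbs + 1)]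
    with p hp hp1
  have hp0 : (0 : ℝ) < (p.1 : ℝ) := by
    have : 0 < p.1 := by omega
    exact_mod_cast this
  have h2 : 0 < ((p.1 : ℤ) + c).toNat := by omega
  have h3 : ((p.1 : ℤ) + c).toNat ≤ 2 * p.1 := by omega
  have h4 : Real.log (((((p : ℕ × ℕ).1 : ℤ) + c).toNat : ℕ) : ℝ) ≤ Real.log 2 + Real.log (p.1 : ℝ) := by
    rw [← Real.log_mul (by norm_num) hp0.ne']
    apply Real.log_le_log
    · exact_mod_cast h2
    · exact_mod_cast h3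
  have h5 : b * Real.log 2 ≤ Real.log (p.1 : ℝ) * (b' - b) := (div_le_iff₀ (by linarith)).1 hp
  calc b * Real.log (((((p : ℕ × ℕ).1 : ℤ) + c).toNat : ℕ) : ℝ) ≤ b * (Real.log 2 + Real.log (p.1 : ℝ)) :=
        mul_le_mul_of_nonneg_left h4 hb.le
    _ ≤ b' * Real.log (p.1 : ℝ) := by nlinarith

private theorem reg_par {n : ℕ} {t : Et} {S0 : Part (Fin (6 * n))} {z z' : Fin (6 * n)} (h : Reg t S0 z z')
    (hv : vE t ≤ 2 * n) : Even (vE t + t.1 + t.2.1) := by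
  have h1 := h.typ.vol
  have h2 := h.typ.eul
  have h3 : Nat.card (Fin (6 * n)) = 6 * n := Nat.card_fin _
  rw [h3] at h1
  have h4 : [t.1, t.2.1].sum = t.1 + t.2.1 := by simp
  have h5 : [z, z'].length = 2 := rfl
  rw [h4, h5] at h2
  exact ⟨S0.inn + t.1 + t.2.1, by omega⟩

theorem seed_reg {θ x : ℝ} (h : Par θ x) {β C β' C' : ℝ} (hβ : 0 < β) (hC : 0 < C) (hβ' : β < β') (hC' : C < C')
    (hthin : Thin θ β C) {η : ℝ} (hη : 0 < η) {t : Et} (ht1 : 2 ≤ t.1) (ht2 : 2 ≤ t.2.1) :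
    ∀ᶠ p in Num.Fth θ, ∀ (S0 : Part (Fin (6 * p.1))) (z z' : Fin (6 * p.1)), Reg t S0 z z' →
      (({T | T ∈ S0.Ext p.2 ∧ S0.HConn T ∧ ¬ ∃ Y, Strip S0 T z z' Y (β' * Real.log p.1) (C' * Real.log p.1)}.ncard : ℕ) : ℝ) ≤
        ((3 * (2 * p.1 - vE t)).factorial : ℝ) * (η * SST.nu p.1 p.2) := by
  by_cases hpar : Even (vE t + t.1 + t.2.1)
  swap
  · filter_upwards [(fst_top θ).eventually_ge_atTop (vE t)] with p hp S0 z z' hR
    exact absurd (reg_par hR (by omega)) hpar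
  have hd1 := dv_par t.1
  have hd2 := dv_par t.2.1
  obtain ⟨c, hc⟩ : ∃ c : ℤ, 2 * c = (dv t.1 : ℤ) + dv t.2.1 - vE t := by
    obtain ⟨a1, ha1⟩ := hpar
    obtain ⟨a2, ha2⟩ := hd1
    obtain ⟨a3, ha3⟩ := hd2
    exact ⟨(a2 : ℤ) + a3 - a1, by omega⟩
  obtain ⟨C₁, hC₁, hnu⟩ := nu_shift h c
  have hη₁ : 0 < η / (2 * C₁) := by positivity
  have hth := (fth_shift θ c).eventually (hthin (η / (2 * C₁)) hη₁)
  obtain ⟨C₂, hC₂, hmu⟩ := mu_nu h {t.1 + t.2.1 - 2} (by simp)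
    (by
      intro q hq
      rw [Multiset.mem_singleton] at hq
      omega) (vE t) 1
  obtain ⟨M, hM⟩ : ∃ M : ℕ, 2 * ((t.1 : ℝ) * t.2.1 * C₂) / η ≤ M := exists_nat_ge _
  filter_upwards [hnu, hth, hmu, nu_pos_ev h, log_shift hβ hβ' θ c, log_shift hC hC' θ c,
    (fst_top θ).eventually_ge_atTop (vE t + 1), (fst_top θ).eventually_ge_atTop M, RB.ge_ev' h.1 1]
    with p hp1 hp2 hp3 hp4 hp5 hp6 hp7 hp8 hp9 S0 z z' hR
  have hp9' : 1 ≤ p.2 := hp9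
  have hn0 : (0 : ℝ) < (p.1 : ℝ) := by
    have : 0 < p.1 := by omega
    exact_mod_cast this
  have hnn : dv t.1 + dv t.2.1 + (2 * p.1 - vE t) = 2 * ((p.1 : ℤ) + c).toNat := by omega
  generalize hn' : ((p.1 : ℤ) + c).toNat = n' at *
  have hB := bad_reg hp9' (by omega : 1 ≤ t.1) (by omega : 1 ≤ t.2.1) hR hnn (β' * Real.log p.1) (C' * Real.log p.1)
  have hA := adj_le hp9' ht1 ht2 hR
  set Bd : Set (Tri (Fin (6 * p.1))) := {T | T ∈ S0.Ext p.2 ∧ S0.HConn T ∧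
      (∀ d ∈ S0.B, S0.s.SameCycle z d → T.a d ∈ S0.B → ¬ S0.s.SameCycle z' (T.a d)) ∧
      ¬ ∃ Y, Strip S0 T z z' Y (β' * Real.log p.1) (C' * Real.log p.1)} with hBd
  set Ad : Set (Tri (Fin (6 * p.1))) := {T | T ∈ S0.Ext p.2 ∧ S0.HConn T ∧
      ¬ ∀ d ∈ S0.B, S0.s.SameCycle z d → T.a d ∈ S0.B → ¬ S0.s.SameCycle z' (T.a d)} with hAd
  have hsub : {T | T ∈ S0.Ext p.2 ∧ S0.HConn T ∧ ¬ ∃ Y, Strip S0 T z z' Y (β' * Real.log p.1) (C' * Real.log p.1)} ⊆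
      Bd ∪ Ad := by
    rintro T ⟨h1, h2, h3⟩
    by_cases h4 : ∀ d ∈ S0.B, S0.s.SameCycle z d → T.a d ∈ S0.B → ¬ S0.s.SameCycle z' (T.a d)
    · exact Or.inl ⟨h1, h2, h4, h3⟩
    · exact Or.inr ⟨h1, h2, h4⟩
  have hcard : {T | T ∈ S0.Ext p.2 ∧ S0.HConn T ∧ ¬ ∃ Y, Strip S0 T z z' Y (β' * Real.log p.1) (C' * Real.log p.1)}.ncard ≤
      Bd.ncard + Ad.ncard := (Set.ncard_le_ncard hsub (Set.toFinite _)).trans (Set.ncard_union_le _ _)
  have hsub2 : {q : Tri (Fin (6 * n')) × Fin (6 * n') × Fin (6 * n') | q.1 ∈ Trn n' (p.2 - 1) ∧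
        ¬ Link q.1 q.2.1 q.2.2 (β' * Real.log p.1) (C' * Real.log p.1)} ⊆
      {q : Tri (Fin (6 * n')) × Fin (6 * n') × Fin (6 * n') | q.1 ∈ Trn n' (p.2 - 1) ∧
        ¬ Link q.1 q.2.1 q.2.2 (β * Real.log n') (C * Real.log n')} := by
    rintro q ⟨h1, h2⟩
    exact ⟨h1, fun h3 => h2 (link_mono hp5 hp6 h3)⟩
  have hcard2 := Set.ncard_le_ncard hsub2 (Set.toFinite _)
  set Q1 := {q : Tri (Fin (6 * n')) × Fin (6 * n') × Fin (6 * n') | q.1 ∈ Trn n' (p.2 - 1) ∧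
        ¬ Link q.1 q.2.1 q.2.2 (β' * Real.log p.1) (C' * Real.log p.1)}.ncard with hQ1
  have hQ2 : (Q1 : ℝ) ≤ η / (2 * C₁) * (6 * (n' : ℝ)) ^ 2 * ((Trn n' (p.2 - 1)).ncard : ℕ) :=
    le_trans (by exact_mod_cast hcard2) hp2
  have hfac : (0 : ℝ) < ((6 * n').factorial : ℝ) := by exact_mod_cast Nat.factorial_pos _
  have hF : (0 : ℝ) < ((3 * (2 * p.1 - vE t)).factorial : ℝ) := by exact_mod_cast Nat.factorial_pos _
  have hnuE : ((Trn n' (p.2 - 1)).ncard : ℝ) = SST.nu n' (p.2 - 1) * ((6 * n').factorial : ℝ) := by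
    unfold SST.nu
    rw [div_mul_cancel₀ _ hfac.ne']
  have hBr : (Bd.ncard : ℝ) ≤ ((3 * (2 * p.1 - vE t)).factorial : ℝ) * (η / 2 * SST.nu p.1 p.2) := by
    have h1 : (Bd.ncard : ℝ) * ((6 * n').factorial : ℝ) ≤ ((3 * (2 * p.1 - vE t)).factorial : ℝ) * Q1 := by
      exact_mod_cast hB
    have h2 : (Bd.ncard : ℝ) * ((6 * n').factorial : ℝ) ≤
        (((3 * (2 * p.1 - vE t)).factorial : ℝ) * (η / (2 * C₁) * ((6 * (n' : ℝ)) ^ 2 * SST.nu n' (p.2 - 1)))) *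
          ((6 * n').factorial : ℝ) := by
      refine h1.trans ?_
      refine (mul_le_mul_of_nonneg_left hQ2 hF.le).trans (le_of_eq ?_)
      rw [hnuE]
      ring
    have h3 := le_of_mul_le_mul_right h2 hfac
    refine h3.trans (mul_le_mul_of_nonneg_left ?_ hF.le)
    calc η / (2 * C₁) * ((6 * (n' : ℝ)) ^ 2 * SST.nu n' (p.2 - 1)) ≤ η / (2 * C₁) * (C₁ * SST.nu p.1 p.2) :=
          mul_le_mul_of_nonneg_left hp1 hη₁.le
      _ = η / 2 * SST.nu p.1 p.2 := by field_simp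
  have hAr : (Ad.ncard : ℝ) ≤ ((3 * (2 * p.1 - vE t)).factorial : ℝ) * (η / 2 * SST.nu p.1 p.2) := by
    refine hA.trans (mul_le_mul_of_nonneg_left ?_ hF.le)
    have h1 : muG {t.1 + t.2.1 - 2} (2 * p.1 - vE t) (p.2 - 1) * (p.1 : ℝ) ≤ C₂ * SST.nu p.1 p.2 := by
      have h2 := hp3
      rw [Multiset.card_singleton, pow_one] at h2
      have h3 : (muG {t.1 + t.2.1 - 2} (2 * p.1 - vE t) (p.2 - 1) * (p.1 : ℝ)) * (p.1 : ℝ) ≤
          (C₂ * SST.nu p.1 p.2) * (p.1 : ℝ) := by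
        calc _ = muG {t.1 + t.2.1 - 2} (2 * p.1 - vE t) (p.2 - 1) * (p.1 : ℝ) ^ (2 * 1) := by ring
          _ ≤ C₂ * (p.1 : ℝ) * SST.nu p.1 p.2 := h2
          _ = _ := by ring
      exact le_of_mul_le_mul_right h3 hn0
    have h4 : 2 * ((t.1 : ℝ) * t.2.1 * C₂) ≤ η * (p.1 : ℝ) := by
      have h5 : (M : ℝ) ≤ (p.1 : ℝ) := by exact_mod_cast hp8
      have h6 := (div_le_iff₀ hη).1 (hM.trans h5)
      linarith
    have h7 : ((t.1 : ℝ) * t.2.1 * muG {t.1 + t.2.1 - 2} (2 * p.1 - vE t) (p.2 - 1)) * (p.1 : ℝ) ≤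
        (η / 2 * SST.nu p.1 p.2) * (p.1 : ℝ) := by
      have h8 : (0 : ℝ) ≤ (t.1 : ℝ) * t.2.1 := by positivity
      calc _ = ((t.1 : ℝ) * t.2.1) * (muG {t.1 + t.2.1 - 2} (2 * p.1 - vE t) (p.2 - 1) * (p.1 : ℝ)) := by ring
        _ ≤ ((t.1 : ℝ) * t.2.1) * (C₂ * SST.nu p.1 p.2) := mul_le_mul_of_nonneg_left h1 h8
        _ = ((t.1 : ℝ) * t.2.1 * C₂) * SST.nu p.1 p.2 := by ring
        _ ≤ (η / 2 * (p.1 : ℝ)) * SST.nu p.1 p.2 := mul_le_mul_of_nonneg_right (by linarith) hp4.le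
        _ = _ := by ring
    exact le_of_mul_le_mul_right h7 hn0
  have hcr : (({T | T ∈ S0.Ext p.2 ∧ S0.HConn T ∧ ¬ ∃ Y, Strip S0 T z z' Y (β' * Real.log p.1) (C' * Real.log p.1)}.ncard : ℕ) : ℝ) ≤
      (Bd.ncard : ℝ) + (Ad.ncard : ℝ) := by exact_mod_cast hcard
  refine hcr.trans ((add_le_add hBr hAr).trans (le_of_eq ?_))
  ring

end SYS.US
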