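import Pool.Agent.SYS.US.Def2
import Pool.Agent.SYS.CO.Bas
import Pool.Agent.SYS.RB.Win

/-!
# SYS-US-TamA: almost all pairs are tame (from (B2) and (B3))

The faces at a vertex are connected, they have at most `3 dg` darts, and adding them to a set of faces
creates at most `dg` boundary darts.  So a pair which is not tame is in one of the events (B2), (B3).
-/

namespace SYS.US

open SST Part Num XP Filter Topology

/-- The darts with the tail of `u`. -/
private def crn {D : Type} (T : Tri D) (u : D) : Set D := {d | T.tl d = T.tl u}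

private theorem star_cases {D : Type} {T : Tri D} {u d : D} (h : d ∈ star T u) :
    d ∈ crn T u ∨ T.f d ∈ crn T u ∨ T.f (T.f d) ∈ crn T u := h

theorem star_bdy {D : Type} [Finite D] (T : Tri D) {Y : Set D} (hY : Fs T Y) (u : D) :
    (bdy T (Y ∪ star T u)).ncard ≤ (bdy T Y).ncard + dg T u := by
  have h1 : bdy T (Y ∪ star T u) ⊆ bdy T Y ∪ T.f '' crn T u := by
    rintro d ⟨hd, had⟩
    have ha1 : T.a d ∉ Y := fun h => had (Or.inl h)
    have ha2 : T.a d ∉ star T u := fun h => had (Or.inr h)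
    rcases hd with hd | hd
    · exact Or.inl ⟨hd, ha1⟩
    · rcases star_cases hd with h | h | h
      · exfalso
        apply ha2
        refine Or.inr (Or.inl ?_)
        rw [← T.s_apply, T.tl_s]
        exact h
      · exfalso
        apply ha2
        refine Or.inl ?_
        have h2 : T.tl (T.f d) = T.tl (T.a d) := T.tl_f d
        rw [← h2]
        exact h
      · exact Or.inr ⟨T.f (T.f d), h, T.fff d⟩
  have h2 := Set.ncard_le_ncard h1 (Set.toFinite _)
  have h3 := Set.ncard_union_le (bdy T Y) (T.f '' crn T u)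
  have h4 : (T.f '' crn T u).ncard ≤ dg T u := Set.ncard_image_le (Set.toFinite _)
  omega

theorem star_card {D : Type} [Finite D] (T : Tri D) (u : D) : (star T u).ncard ≤ 3 * dg T u := by
  have h1 : star T u ⊆ crn T u ∪ (T.f '' crn T u ∪ T.f '' (T.f '' crn T u)) := by
    intro d hd
    rcases star_cases hd with h | h | h
    · exact Or.inl h
    · exact Or.inr (Or.inr ⟨_, ⟨_, h, rfl⟩, T.fff d⟩)
    · exact Or.inr (Or.inl ⟨_, h, T.fff d⟩)
  have h2 := Set.ncard_le_ncard h1 (Set.toFinite _)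
  have h3 := Set.ncard_union_le (crn T u) (T.f '' crn T u ∪ T.f '' (T.f '' crn T u))
  have h4 := Set.ncard_union_le (T.f '' crn T u) (T.f '' (T.f '' crn T u))
  have h5 : (T.f '' crn T u).ncard ≤ dg T u := Set.ncard_image_le (Set.toFinite _)
  have h6 : (T.f '' (T.f '' crn T u)).ncard ≤ (T.f '' crn T u).ncard := Set.ncard_image_le (Set.toFinite _)
  have h7 : (crn T u).ncard = dg T u := rfl
  omega

theorem star_fs {D : Type} (T : Tri D) (u : D) : Fs T (star T u) := by
  intro d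
  constructor
  · rintro (h | h | h)
    · exact Or.inr (Or.inl h)
    · exact Or.inr (Or.inr h)
    · rw [T.fff] at h
      exact Or.inl h
  · rintro (h | h | h)
    · refine Or.inr (Or.inr ?_)
      rw [T.fff]
      exact h
    · exact Or.inl h
    · exact Or.inr (Or.inl h)

theorem star_dc {D : Type} [Finite D] (T : Tri D) {Y : Set D} (hY : Fs T Y) (hd : DC T Y) {u : D} (hu : u ∈ Y) :
    DC T (Y ∪ star T u) := by
  intro Z hZ hne hf ha
  have hfb : ∀ d, T.f d ∈ Z → d ∈ Z := by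
    intro d h
    have h1 := hf _ (hf _ h)
    rwa [T.fff] at h1
  -- closed under the rotation
  have hs : ∀ d ∈ Z, T.tl d = T.tl u → T.s d ∈ Z := by
    intro d h h1
    refine hf _ (ha d h (Or.inr (Or.inr (Or.inl ?_))))
    rw [← T.s_apply, T.tl_s]
    exact h1
  have hpow : ∀ d ∈ Z, T.tl d = T.tl u → ∀ k : ℕ, (T.s ^ k) d ∈ Z ∧ T.tl ((T.s ^ k) d) = T.tl u := by
    intro d h h1 k
    induction k with
    | zero => exact ⟨h, h1⟩
    | succ k ih =>
      rw [pow_succ', Equiv.Perm.mul_apply, T.tl_s]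
      exact ⟨hs _ ih.1 ih.2, ih.2⟩
  have hA : ∀ d ∈ Z, d ∈ crn T u → crn T u ⊆ Z := by
    intro d h h1 e he
    have h2 : T.s.SameCycle d e := (T.tl_eq_iff d e).1 (h1.trans he.symm)
    obtain ⟨k, hk⟩ := h2.exists_nat_pow_eq
    rw [← hk]
    exact (hpow d h h1 k).1
  have hst : ∀ d ∈ Z, d ∈ star T u → crn T u ⊆ Z := by
    intro d h h1
    rcases star_cases h1 with h2 | h2 | h2
    · exact hA d h h2
    · exact hA _ (hf d h) h2
    · exact hA _ (hf _ (hf d h)) h2
  have hYZ : (Z ∩ Y).Nonempty → Y ⊆ Z := by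
    intro h
    have h1 := hd (Z ∩ Y) Set.inter_subset_right h (fun d h => ⟨hf d h.1, (hY d).2 h.2⟩)
      (fun d h h' => ⟨ha d h.1 (Or.inl h'), h'⟩)
    intro y hy
    rw [← h1] at hy
    exact hy.1
  have hall : Y ⊆ Z ∧ crn T u ⊆ Z := by
    obtain ⟨d, hdZ⟩ := hne
    rcases hZ hdZ with h | h
    · have h1 := hYZ ⟨d, hdZ, h⟩
      exact ⟨h1, hA u (h1 hu) rfl⟩
    · have h1 := hst d hdZ h
      exact ⟨hYZ ⟨u, h1 rfl, hu⟩, h1⟩
  refine Set.Subset.antisymm hZ ?_
  rintro d (h | h)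
  · exact hall.1 h
  · rcases star_cases h with h2 | h2 | h2
    · exact hall.2 h2
    · exact hfb d (hall.2 h2)
    · exact hfb d (hfb _ (hall.2 h2))

private theorem not_tame {D : Type} [Finite D] {T : Tri D} {x y : D} {s C e L : ℝ}
    (h : ¬ Tame T x y (s * L) (C * L)) :
    (∃ Y : Set D, Fs T Y ∧ DC T Y ∧ x ∈ Y ∧ y ∈ Y ∧ ((bdy T Y).ncard : ℝ) ≤ (s + e) * L ∧
      (Y.ncard : ℝ) ≤ (C + 3 * e) * L ∧ 1 ≤ CO.rk T (CO.ins T Y)) ∨
    ∃ Y : Set D, Fs T Y ∧ DC T Y ∧ x ∈ Y ∧ y ∈ Y ∧ ((bdy T Y).ncard : ℝ) ≤ s * L ∧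
      (Y.ncard : ℝ) ≤ C * L ∧ ∃ u ∈ Y, e * L ≤ (dg T u : ℝ) := by
  unfold Tame at h
  push Not at h
  obtain ⟨Y, h1, h2, h3, h4, h5, h6, u, h7, h8⟩ := h
  by_cases h9 : e * L ≤ (dg T u : ℝ)
  · exact Or.inr ⟨Y, h1, h2, h3, h4, h5, h6, u, h7, h9⟩
  · rw [not_le] at h9
    left
    refine ⟨Y ∪ star T u, fun d => ?_, star_dc T h1 h2 h7, Or.inl h3, Or.inl h4, ?_, ?_, Nat.one_le_iff_ne_zero.2 h8⟩
    · rw [Set.mem_union, Set.mem_union, h1 d, star_fs T u d]
    · have h10 : ((bdy T (Y ∪ star T u)).ncard : ℝ) ≤ (bdy T Y).ncard + dg T u := by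
        exact_mod_cast star_bdy T h1 u
      linarith
    · have h10 : ((Y ∪ star T u).ncard : ℝ) ≤ Y.ncard + 3 * dg T u := by
        have h11 := Set.ncard_union_le Y (star T u)
        have h12 := star_card T u
        exact_mod_cast (by omega : (Y ∪ star T u).ncard ≤ Y.ncard + 3 * dg T u)
      linarith

theorem tame_of {θ s C e : ℝ} (h2 : B2 θ (s + e) (C + 3 * e)) (h3 : B3 θ s C e) : TameW θ s C := by
  intro η hη
  filter_upwards [h2 (η / 2) (half_pos hη), h3 (η / 2) (half_pos hη)] with p hp2 hp3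
  refine le_trans ?_ (le_trans (add_le_add hp2 hp3) (le_of_eq (by ring)))
  rw [← Nat.cast_add, Nat.cast_le]
  refine (Set.ncard_le_ncard ?_ (Set.toFinite _)).trans (Set.ncard_union_le _ _)
  rintro q ⟨hq1, hq2⟩
  rcases not_tame (e := e) hq2 with h | h
  · exact Or.inl ⟨hq1, h⟩
  · exact Or.inr ⟨hq1, h⟩

end SYS.US
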