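import Pool.Agent.SYS.US.Grw
import Pool.Agent.SYS.US.ThinA
import Pool.Agent.SYS.XP.Main

/-!
# SYS-US-ThinB: TYP* from the growth (GRW) and the expansion (EXP)

PLAN.  Given `η`: `exp_main` with `η₁ = η` (its `η * q.1` is at most `(η/3) (6 n)`), `δ = η / 3`: `C₁`.  `e := min (1/4) (ε / (8 (C₁ + 1)))`, `k := ⌈C₁ (e log n + 1)⌉₊`: `3 k ≤ ε log n` eventually.  `Grw` with this `e` and `η / 3`.
The bad triples `(T, x, y)`: `T` bad for EXP (`≤ δ #Trn`, times `(6n)²`); `(T, x)` bad for GRW (`≤ (η/3) (6n) #Trn`, times `6n`); otherwise `y ∉ (nb T)^[k] Y` (`link_nb`, `link_mono`): at most `η n ≤ (η/3) (6n)` darts `y` for each `(T, x)`.  `RB.Fth = Num.Fth` (`rfl`, see `UP/Inp.lean`: `Fth_eq`).  Sum `≤ η (6n)² #Trn`.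
-/

namespace SYS.US

open SST Part Num XP Filter Topology

private theorem cnt {α : Type} [Finite α] {N : ℕ} (S A : Set α) (B : Set (α × Fin N))
    (P : α → Fin N → Fin N → Prop) {r : ℝ} (hr : 0 ≤ r)
    (h : ∀ T ∈ S, T ∉ A → ∀ x, (T, x) ∉ B → (({y | ¬ P T x y}.ncard : ℕ) : ℝ) ≤ r) :
    (({q : α × Fin N × Fin N | q.1 ∈ S ∧ ¬ P q.1 q.2.1 q.2.2}.ncard : ℕ) : ℝ) ≤
      A.ncard * (N : ℝ) ^ 2 + B.ncard * (N : ℝ) + S.ncard * (N : ℝ) * r := by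
  classical
  have hsub : {q : α × Fin N × Fin N | q.1 ∈ S ∧ ¬ P q.1 q.2.1 q.2.2} ⊆
      (A ×ˢ (Set.univ : Set (Fin N × Fin N)) ∪
        (fun p : (α × Fin N) × Fin N => (p.1.1, p.1.2, p.2)) '' (B ×ˢ (Set.univ : Set (Fin N)))) ∪
      {q : α × Fin N × Fin N | q.1 ∈ S ∧ q.1 ∉ A ∧ (q.1, q.2.1) ∉ B ∧ ¬ P q.1 q.2.1 q.2.2} := by
    rintro ⟨T, x, y⟩ ⟨h1, h2⟩
    by_cases hA : T ∈ A
    · exact Or.inl (Or.inl ⟨hA, Set.mem_univ _⟩)
    · by_cases hB : (T, x) ∈ B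
      · exact Or.inl (Or.inr ⟨((T, x), y), ⟨hB, Set.mem_univ _⟩, rfl⟩)
      · exact Or.inr ⟨h1, hA, hB, h2⟩
  have c1 : (A ×ˢ (Set.univ : Set (Fin N × Fin N))).ncard = A.ncard * N ^ 2 := by
    rw [Set.ncard_prod, Set.ncard_univ, Nat.card_prod, Nat.card_eq_fintype_card, Fintype.card_fin]
    ring
  have c2 : ((fun p : (α × Fin N) × Fin N => (p.1.1, p.1.2, p.2)) ''
      (B ×ˢ (Set.univ : Set (Fin N)))).ncard ≤ B.ncard * N := by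
    refine le_trans (Set.ncard_image_le (Set.toFinite _)) ?_
    rw [Set.ncard_prod, Set.ncard_univ, Nat.card_eq_fintype_card, Fintype.card_fin]
  have c3 : ({q : α × Fin N × Fin N | q.1 ∈ S ∧ q.1 ∉ A ∧ (q.1, q.2.1) ∉ B ∧
      ¬ P q.1 q.2.1 q.2.2}).ncard ≤ ⌊r⌋₊ * (S.ncard * N) := by
    have hfin : ({q : α × Fin N × Fin N | q.1 ∈ S ∧ q.1 ∉ A ∧ (q.1, q.2.1) ∉ B ∧
      ¬ P q.1 q.2.1 q.2.2}).Finite := Set.toFinite _
    rw [Set.ncard_eq_toFinset_card _ hfin]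
    refine le_trans (Finset.card_le_mul_card_image (f := fun q : α × Fin N × Fin N => (q.1, q.2.1))
      hfin.toFinset ⌊r⌋₊ ?_) ?_
    · rintro ⟨T, x⟩ hTx
      rw [Finset.mem_image] at hTx
      obtain ⟨⟨T', x', y'⟩, hq, he⟩ := hTx
      have he' : T' = T ∧ x' = x := by
        simpa using he
      obtain ⟨e1, e2⟩ := he'
      subst e1 e2
      rw [Set.Finite.mem_toFinset] at hq
      obtain ⟨q1, q2, q3, q4⟩ := hq
      have hle := h T' q1 q2 x' q3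
      have hle2 : {y | ¬ P T' x' y}.ncard ≤ ⌊r⌋₊ := Nat.le_floor hle
      refine le_trans ?_ hle2
      rw [← Set.ncard_coe_finset]
      refine Set.ncard_le_ncard_of_injOn (fun q : α × Fin N × Fin N => q.2.2) ?_ ?_ (Set.toFinite _)
      · rintro ⟨T1, x1, y1⟩ hm
        rw [Finset.mem_coe, Finset.mem_filter, Set.Finite.mem_toFinset] at hm
        obtain ⟨⟨_, _, _, m4⟩, m5⟩ := hm
        have m6 : T1 = T' ∧ x1 = x' := by
          simpa using m5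
        obtain ⟨e1, e2⟩ := m6
        subst e1 e2
        exact m4
      · rintro ⟨T1, x1, y1⟩ hm ⟨T2, x2, y2⟩ hm' hy
        rw [Finset.mem_coe, Finset.mem_filter] at hm hm'
        have m6 : T1 = T' ∧ x1 = x' := by
          simpa using hm.2
        have m7 : T2 = T' ∧ x2 = x' := by
          simpa using hm'.2
        have hy' : y1 = y2 := hy
        rw [m6.1, m6.2, m7.1, m7.2, hy']
    · refine Nat.mul_le_mul_left _ ?_
      rw [← Set.ncard_coe_finset]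
      have c4 : (S ×ˢ (Set.univ : Set (Fin N))).ncard = S.ncard * N := by
        rw [Set.ncard_prod, Set.ncard_univ, Nat.card_eq_fintype_card, Fintype.card_fin]
      rw [← c4]
      refine Set.ncard_le_ncard ?_ (Set.toFinite _)
      intro p hp
      rw [Finset.mem_coe, Finset.mem_image] at hp
      obtain ⟨q, hq, rfl⟩ := hp
      rw [Set.Finite.mem_toFinset] at hq
      exact ⟨hq.1, Set.mem_univ _⟩
  have htot : {q : α × Fin N × Fin N | q.1 ∈ S ∧ ¬ P q.1 q.2.1 q.2.2}.ncard ≤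
      A.ncard * N ^ 2 + B.ncard * N + ⌊r⌋₊ * (S.ncard * N) := by
    refine le_trans (Set.ncard_le_ncard hsub (Set.toFinite _)) ?_
    refine le_trans (Set.ncard_union_le _ _) ?_
    have h5 := Set.ncard_union_le (A ×ˢ (Set.univ : Set (Fin N × Fin N)))
      ((fun p : (α × Fin N) × Fin N => (p.1.1, p.1.2, p.2)) '' (B ×ˢ (Set.univ : Set (Fin N))))
    omega
  have h6 : ((⌊r⌋₊ : ℕ) : ℝ) ≤ r := Nat.floor_le hr
  have h7 : (({q : α × Fin N × Fin N | q.1 ∈ S ∧ ¬ P q.1 q.2.1 q.2.2}.ncard : ℕ) : ℝ) ≤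
      A.ncard * (N : ℝ) ^ 2 + B.ncard * (N : ℝ) + (⌊r⌋₊ : ℝ) * (S.ncard * (N : ℝ)) := by
    exact_mod_cast htot
  have h8 : (⌊r⌋₊ : ℝ) * (S.ncard * (N : ℝ)) ≤ r * (S.ncard * (N : ℝ)) :=
    mul_le_mul_of_nonneg_right h6 (by positivity)
  linarith

theorem thin_of {θ x : ℝ} (h : Par θ x) {β C : ℝ} (hg : ∀ e : ℝ, 0 < e → e < 1 / 2 → Grw θ β C e) {ε : ℝ} (hε : 0 < ε) :
    Thin θ (β + ε) (C + ε) := by
  intro η hη
  obtain ⟨C₁, hC₁, hexp⟩ := exp_main h (η := η) (δ := η / 3) hη (by positivity)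
  obtain ⟨e, he0, he1, he2⟩ : ∃ e : ℝ, 0 < e ∧ e < 1 / 2 ∧ C₁ * e ≤ ε / 8 := by
    refine ⟨min (1 / 4) (ε / (8 * (C₁ + 1))), by positivity, ?_, ?_⟩
    · exact lt_of_le_of_lt (min_le_left _ _) (by norm_num)
    · calc C₁ * min (1 / 4) (ε / (8 * (C₁ + 1))) ≤ C₁ * (ε / (8 * (C₁ + 1))) :=
            mul_le_mul_of_nonneg_left (min_le_right _ _) hC₁.le
        _ = (ε / 8) * (C₁ / (C₁ + 1)) := by
            field_simp
        _ ≤ (ε / 8) * 1 := by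
            refine mul_le_mul_of_nonneg_left ?_ (by positivity)
            rw [div_le_one (by positivity)]
            linarith
        _ = ε / 8 := mul_one _
  have hlog : ∀ᶠ p in Num.Fth θ, (3 * C₁ + 3) * (8 / (5 * ε)) ≤ Real.log (p.1 : ℝ) := by
    have h1 : Tendsto (fun p : ℕ × ℕ => Real.log (p.1 : ℝ)) (Num.Fth θ) atTop :=
      Real.tendsto_log_atTop.comp (tendsto_natCast_atTop_atTop.comp (RB.fst_nat_atTop θ))
    exact h1.eventually_ge_atTop _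
  have hexp' := hexp e he0 he1
  have hgr := hg e he0 he1 (η / 3) (by positivity)
  have hge : ∀ᶠ p in Num.Fth θ, 1 ≤ p.1 := RB.ge_ev θ 1
  have hexp2 : ∀ᶠ q in Num.Fth θ,
      (({T : Tri (Fin (6 * q.1)) | T ∈ Trn q.1 q.2 ∧ ¬ ∀ Y : Set (Fin (6 * q.1)), Fs T Y → DC T Y →
        (q.1 : ℝ) ^ (1 - 2 * e) ≤ Y.ncard → ∀ k : ℕ, C₁ * (e * Real.log q.1 + 1) ≤ k →
          (((((nb T)^[k] Y)ᶜ.ncard : ℕ)) : ℝ) ≤ η * q.1}.ncard : ℕ) : ℝ) ≤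
          (η / 3) * (Trn q.1 q.2).ncard := hexp'
  filter_upwards [hlog, hexp2, hgr, hge] with p hp1 hp2 hp3 hp4
  have hn : (0 : ℝ) < p.1 := by exact_mod_cast hp4
  have hn1 : (1 : ℝ) ≤ p.1 := by exact_mod_cast hp4
  have hln : 0 ≤ Real.log (p.1 : ℝ) := Real.log_nonneg hn1
  set k : ℕ := ⌈C₁ * (e * Real.log p.1 + 1)⌉₊ with hk
  have hk1 : C₁ * (e * Real.log p.1 + 1) ≤ k := Nat.le_ceil _
  have hk2 : (k : ℝ) ≤ C₁ * (e * Real.log p.1 + 1) + 1 := by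
    have h0 : 0 ≤ C₁ * (e * Real.log p.1 + 1) := by positivity
    exact (Nat.ceil_lt_add_one h0).le
  have hk3 : 3 * (k : ℝ) ≤ ε * Real.log p.1 := by
    have h1 : C₁ * e * Real.log p.1 ≤ ε / 8 * Real.log p.1 :=
      mul_le_mul_of_nonneg_right he2 hln
    have h2 : (3 * C₁ + 3) ≤ (5 * ε / 8) * Real.log p.1 := by
      have h3 := mul_le_mul_of_nonneg_left hp1 (show 0 ≤ 5 * ε / 8 by positivity)
      have h4 : 5 * ε / 8 * ((3 * C₁ + 3) * (8 / (5 * ε))) = 3 * C₁ + 3 := by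
        field_simp
      linarith
    nlinarith
  have hk4 : (k : ℝ) ≤ ε * Real.log p.1 := by
    have : (0 : ℝ) ≤ k := Nat.cast_nonneg k
    linarith
  have hc := cnt (N := 6 * p.1) (Trn p.1 p.2)
    {T : Tri (Fin (6 * p.1)) | T ∈ Trn p.1 p.2 ∧ ¬ ∀ Y : Set (Fin (6 * p.1)), Fs T Y → DC T Y →
        (p.1 : ℝ) ^ (1 - 2 * e) ≤ Y.ncard → ∀ k : ℕ, C₁ * (e * Real.log p.1 + 1) ≤ k →
          (((((nb T)^[k] Y)ᶜ.ncard : ℕ)) : ℝ) ≤ η * p.1}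
    {q : Tri (Fin (6 * p.1)) × Fin (6 * p.1) | q.1 ∈ Trn p.1 p.2 ∧
    ¬ ∃ Y : Set (Fin (6 * p.1)), Fs q.1 Y ∧ DC q.1 Y ∧ (p.1 : ℝ) ^ (1 - 2 * e) ≤ Y.ncard ∧
      ∀ d ∈ Y, Link q.1 q.2 d (β * Real.log p.1) (C * Real.log p.1)}
    (fun T x y => Link T x y ((β + ε) * Real.log p.1) ((C + ε) * Real.log p.1))
    (r := η * p.1) (by positivity) ?_
  · refine le_trans hc ?_
    set a : ℝ := ((({T : Tri (Fin (6 * p.1)) | T ∈ Trn p.1 p.2 ∧ ¬ ∀ Y : Set (Fin (6 * p.1)), Fs T Y → DC T Y →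
        (p.1 : ℝ) ^ (1 - 2 * e) ≤ Y.ncard → ∀ k : ℕ, C₁ * (e * Real.log p.1 + 1) ≤ k →
          (((((nb T)^[k] Y)ᶜ.ncard : ℕ)) : ℝ) ≤ η * p.1}).ncard : ℕ) : ℝ) with ha
    set b : ℝ := ((({q : Tri (Fin (6 * p.1)) × Fin (6 * p.1) | q.1 ∈ Trn p.1 p.2 ∧
    ¬ ∃ Y : Set (Fin (6 * p.1)), Fs q.1 Y ∧ DC q.1 Y ∧ (p.1 : ℝ) ^ (1 - 2 * e) ≤ Y.ncard ∧
      ∀ d ∈ Y, Link q.1 q.2 d (β * Real.log p.1) (C * Real.log p.1)}).ncard : ℕ) : ℝ) with hb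
    set t : ℝ := (((Trn p.1 p.2).ncard : ℕ) : ℝ) with ht
    have ht0 : 0 ≤ t := Nat.cast_nonneg _
    push_cast
    have h1 : a * (6 * (p.1 : ℝ)) ^ 2 ≤ (η / 3 * t) * (6 * (p.1 : ℝ)) ^ 2 :=
      mul_le_mul_of_nonneg_right hp2 (by positivity)
    have h2 : b * (6 * (p.1 : ℝ)) ≤ (η / 3 * (6 * (p.1 : ℝ)) * t) * (6 * (p.1 : ℝ)) :=
      mul_le_mul_of_nonneg_right hp3 (by positivity)
    have h3 : η * (6 * (p.1 : ℝ)) ^ 2 * t = (η / 3 * t) * (6 * (p.1 : ℝ)) ^ 2 +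
        (η / 3 * (6 * (p.1 : ℝ)) * t) * (6 * (p.1 : ℝ)) + 12 * (η * (p.1 : ℝ) ^ 2 * t) := by
      ring
    have h4 : t * (6 * (p.1 : ℝ)) * (η * (p.1 : ℝ)) = 6 * (η * (p.1 : ℝ) ^ 2 * t) := by
      ring
    have h5 : 0 ≤ η * (p.1 : ℝ) ^ 2 * t := by positivity
    linarith
  · intro T hT hTA z hz
    have hA : ∀ Y : Set (Fin (6 * p.1)), Fs T Y → DC T Y →
        (p.1 : ℝ) ^ (1 - 2 * e) ≤ Y.ncard → ∀ k : ℕ, C₁ * (e * Real.log p.1 + 1) ≤ k →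
          (((((nb T)^[k] Y)ᶜ.ncard : ℕ)) : ℝ) ≤ η * p.1 := by
      by_contra hcon
      exact hTA ⟨hT, hcon⟩
    obtain ⟨Y, y1, y2, y3, y4⟩ : ∃ Y : Set (Fin (6 * p.1)), Fs T Y ∧ DC T Y ∧
        (p.1 : ℝ) ^ (1 - 2 * e) ≤ Y.ncard ∧
        ∀ d ∈ Y, Link T z d (β * Real.log p.1) (C * Real.log p.1) := by
      by_contra hcon
      exact hz ⟨hT, hcon⟩
    refine le_trans ?_ (hA Y y1 y2 y3 k hk1)
    rw [Nat.cast_le]
    refine Set.ncard_le_ncard ?_ (Set.toFinite _)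
    intro y hy hyn
    refine hy (link_mono (link_nb T y4 k y hyn) ?_ ?_)
    · have : (β + ε) * Real.log (p.1 : ℝ) = β * Real.log p.1 + ε * Real.log p.1 := by ring
      linarith
    · have : (C + ε) * Real.log (p.1 : ℝ) = C * Real.log p.1 + ε * Real.log p.1 := by ring
      linarith

end SYS.US
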