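import Pool.Agent.SYS.US.Defs
import Pool.Agent.SYS.Reg.FilT

/-!
# SYS-US-Tr: the same hidden part over two regions

`χ` identifies the hidden darts and the boundary darts of `S` with those of `U`.  Every triangulation over
`S` gives one over `U` (same hidden part); genus `g' - κ' = g - κ`.
-/

namespace SYS.US

open SST SYS.Part SYS.Num XP

section
variable {D : Type} [Finite D]

private theorem tr_Rf {S : Part D} {T : Tri D} (hle : S.Le T) (d : D) : T.f d ∈ S.R ↔ d ∈ S.R := by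
  have h1 : ∀ d ∈ S.R, T.f d ∈ S.R := by
    intro d hd
    rw [hle.1 d hd, S.mem_R_f]
    exact hd
  refine ⟨fun h => ?_, h1 d⟩
  have h2 := h1 _ (h1 _ h)
  rw [T.fff] at h2
  exact h2

private theorem tr_ofTri_R (T : Tri D) : (ofTri T).R = Set.univ := by
  rw [Set.eq_univ_iff_forall]
  exact fun d => T.fne d

private theorem tr_ofTri_B (T : Tri D) : (ofTri T).B = ∅ := by
  rw [Set.eq_empty_iff_forall_notMem]
  exact fun d hd => T.ane d hd.2

/-- a set closed under the steps contains everything hidden-connected to one of its darts -/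
private theorem tr_closed {S : Part D} {T : Tri D} (hle : S.Le T) {Z : Set D}
    (hZ : ∀ d ∈ Z, T.a d ∈ Z ∧ (d ∉ S.R → T.f d ∈ Z) ∧ (d ∈ S.B → S.nx d ∈ Z)) {d e : D} (hd : d ∈ Z)
    (h : S.Hc T d e) : e ∈ Z := by
  have key : d ∈ Z ↔ e ∈ Z := by
    refine hc_ind (S := S) (T := T) (fun d e => d ∈ Z ↔ e ∈ Z) (fun _ => Iff.rfl) (fun _ _ h => h.symm)
      (fun _ _ _ h1 h2 => h1.trans h2) ?_ ?_ ?_ h
    · intro d _
      refine ⟨fun hd => (hZ d hd).1, fun hd => ?_⟩
      have := (hZ _ hd).1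
      rw [T.aa] at this
      exact this
    · intro d hdR
      refine ⟨fun hd => (hZ d hd).2.1 hdR, fun hd => ?_⟩
      have h1 : T.f d ∉ S.R := fun h' => hdR ((tr_Rf hle d).1 h')
      have h2 : T.f (T.f d) ∉ S.R := fun h' => h1 ((tr_Rf hle _).1 h')
      have h3 := (hZ _ ((hZ _ hd).2.1 h1)).2.1 h2
      rw [T.fff] at h3
      exact h3
    · intro d hdB
      refine ⟨fun hd => (hZ d hd).2.2 hdB, fun hd => ?_⟩
      have h1 : ∀ k : ℕ, (S.nx ^ (k + 1)) d ∈ Z ∧ (S.nx ^ (k + 1)) d ∈ S.B := by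
        intro k
        induction k with
        | zero =>
          rw [zero_add, pow_one]
          exact ⟨hd, S.nx_mem.2 hdB⟩
        | succ k ih =>
          rw [pow_succ', Equiv.Perm.mul_apply]
          exact ⟨(hZ _ ih.1).2.2 ih.2, S.nx_mem.2 ih.2⟩
      obtain ⟨m, hm, hm1⟩ := (isOfFinOrder_iff_pow_eq_one.1 (isOfFinOrder_of_finite S.nx))
      have h2 := (h1 (m - 1)).1
      rw [Nat.sub_add_cancel hm, hm1] at h2
      exact h2
  exact key.1 hd

private theorem tr_cn {S : Part D} {T : Tri D} (hle : S.Le T) {Z : Set D} (hZ : ∀ d ∈ Z, T.a d ∈ Z ∧ T.f d ∈ Z) {d e : D}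
    (h : S.Cn d e) : d ∈ Z ↔ e ∈ Z := by
  have hf : ∀ d, d ∈ Z ↔ T.f d ∈ Z := by
    intro d
    refine ⟨fun hd => (hZ d hd).2, fun hd => ?_⟩
    have := (hZ _ (hZ _ hd).2).2
    rw [T.fff] at this
    exact this
  have ha : ∀ d, d ∈ Z ↔ T.a d ∈ Z := by
    intro d
    refine ⟨fun hd => (hZ d hd).1, fun hd => ?_⟩
    have := (hZ _ hd).1
    rw [T.aa] at this
    exact this
  unfold Cn at h
  induction h with
  | rel u v huv =>
    rcases huv with huv | huv
    · by_cases h1 : S.a u = u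
      · rw [huv, h1]
      · rw [huv, ← hle.2 u h1]
        exact ha u
    · by_cases h1 : S.f u = u
      · rw [huv, h1]
      · rw [huv, ← hle.1 u h1]
        exact hf u
  | refl u => exact Iff.rfl
  | symm u v _ ih => exact ih.symm
  | trans u v w _ _ ih1 ih2 => exact ih1.trans ih2

private theorem tr_conn {S : Part D} {T : Tri D} (hle : S.Le T) (hc : S.HConn T)
    (tc : ∀ d ∈ S.R, ∃ e ∈ S.B, S.Cn d e) : T.Conn := by
  intro Z hne hZ
  have h1 : ∃ x ∈ Z, x ∈ S.X := by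
    obtain ⟨d, hd⟩ := hne
    by_cases hR : d ∈ S.R
    · obtain ⟨e, he, hde⟩ := tc d hR
      exact ⟨e, (tr_cn hle hZ hde).1 hd, Or.inr he⟩
    · exact ⟨d, hd, Or.inl hR⟩
  obtain ⟨x, hxZ, hxX⟩ := h1
  have h2 : ∀ e ∈ S.X, e ∈ Z := by
    intro e he
    refine tr_closed hle (Z := Z) ?_ hxZ (hc x hxX e he)
    intro d hd
    refine ⟨(hZ d hd).1, fun _ => (hZ d hd).2, fun hB => ?_⟩
    have h3 := (nx_pow_same S hB 1).2
    rw [pow_one] at h3
    exact (tr_cn hle hZ (cn_of_same h3)).1 hd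
  rw [Set.eq_univ_iff_forall]
  intro d
  by_cases hR : d ∈ S.R
  · obtain ⟨e, he, hde⟩ := tc d hR
    exact (tr_cn hle hZ hde).2 (h2 e (Or.inr he))
  · exact h2 d (Or.inl hR)

end

theorem ext_tr {n n' g g' F κ κ' : ℕ} {S : Part (Fin (6 * n))} {U : Part (Fin (6 * n'))} {l : List (Fin (6 * n))}
    {l' : List (Fin (6 * n'))} {P : List ℕ} (hS : S.Typ l P F κ) (hU : U.Typ l' P F κ') (hg : g + κ' = g' + κ)
    (χ : Fin (6 * n) → Fin (6 * n')) (hχ : Set.InjOn χ S.X) (hR : ∀ d, d ∉ S.R → χ d ∉ U.R) (hB : χ '' S.B = U.B)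
    (hx : ∀ d ∈ S.B, U.nx (χ d) = χ (S.nx d)) {T : Tri (Fin (6 * n))} (hT : T ∈ S.Ext g) (hc : S.HConn T) :
    ∃ T' ∈ U.Ext g', U.HConn T' ∧ (∀ d, d ∉ S.R → T'.f (χ d) = χ (T.f d)) ∧ ∀ d ∈ S.X, T'.a (χ d) = χ (T.a d) := by
  have hnn : ¬ (n + 2 < S.inn + 2 * g) := by
    intro h
    have h1 := ext_card_none S h
    rw [h1] at hT
    exact hT
  obtain ⟨hTn, hle⟩ := hT
  have hgen := hTn.2
  unfold Tri.Genus at hgen
  have hvS := hS.vol
  have hvU := hU.vol
  rw [Nat.card_fin] at hvS hvU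
  have heS := hS.eul
  have heU := hU.eul
  have hlS : l.length = P.length := by rw [← hS.per, List.length_map]
  have hlU : l'.length = P.length := by rw [← hU.per, List.length_map]
  have hXS : ((ofTri T).R \ S.R) ∪ S.B = S.X := by
    rw [tr_ofTri_R]
    ext d
    constructor
    · rintro (hd | hd)
      · exact Or.inl hd.2
      · exact Or.inr hd
    · rintro (hd | hd)
      · exact Or.inl ⟨Set.mem_univ d, hd⟩
      · exact Or.inr hd
  have hfil : S.FillBy (ofTri T) S.B F (Nat.card T.V - S.inn) := by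
    refine ⟨hle, ?_, ?_, ?_, ?_⟩
    · rw [tr_ofTri_B, Set.sdiff_self]
    · rw [tr_ofTri_R, Set.ncard_univ, Nat.card_fin, hvS]
    · rw [inn_tri]
      omega
    · intro Z hZX hne hZ
      refine Set.Subset.antisymm hZX ?_
      obtain ⟨x, hx⟩ := hne
      rw [hXS] at hZX ⊢
      intro e he
      exact tr_closed hle (Z := Z) hZ hx (hc x (hZX hx) e he)
  have hHS : S.HUn S.B := ⟨fun _ h => h, fun _ _ e he _ => he⟩
  have hHU : U.HUn (χ '' S.B) := by
    rw [hB]
    exact ⟨fun _ h => h, fun _ _ e he _ => he⟩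
  obtain ⟨S', h1, h2, h3, h4⟩ := fil_tr (T := U) hHS hfil χ (by rw [hXS]; exact hχ) (fun d hd => hR d hd.2) hHU hx
  have hR' : S'.R = Set.univ := by
    apply Set.eq_of_subset_of_ncard_le (Set.subset_univ _) _ (Set.toFinite _)
    rw [h1.R, Set.ncard_univ, Nat.card_fin, hvU]
  have hB' : S'.B = ∅ := by
    rw [h1.B, hB, Set.sdiff_self]
  have hfne : ∀ d, S'.f d ≠ d := fun d => by
    have : d ∈ S'.R := by rw [hR']; exact Set.mem_univ d
    exact this
  have hane : ∀ d, S'.a d ≠ d := fun d hd => by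
    have : d ∈ S'.B := ⟨hfne d, hd⟩
    rw [hB'] at this
    exact this
  let T' : Tri (Fin (6 * n')) := ⟨S'.a, S'.f, S'.aa, hane, S'.fff, hfne⟩
  have hT' : ofTri T' = S' := Part.ext' rfl rfl
  have hle' : U.Le T' := h1.sub
  have hX' : (S'.R \ U.R) ∪ (χ '' S.B) = U.X := by
    rw [hB]
    ext d
    constructor
    · rintro (hd | hd)
      · exact Or.inl hd.2
      · exact Or.inr hd
    · rintro (hd | hd)
      · exact Or.inl ⟨hfne d, hd⟩
      · exact Or.inr hd
  have hc' : U.HConn T' := by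
    intro d hd e he
    have k1 := h1.conn {e | e ∈ U.X ∧ U.Hc T' d e} (by rw [hX']; exact fun x hx => hx.1) ⟨d, hd, hc_refl U T' d⟩ (by
      rintro x ⟨hx, hdx⟩
      refine ⟨⟨(X_a hle' x).2 hx, hc_trans hdx (hc_a hx)⟩, ?_, ?_⟩
      · intro hxR
        refine ⟨Or.inl ?_, hc_trans hdx (hc_f hxR)⟩
        intro h'
        exact hxR ((tr_Rf hle' x).1 h')
      · intro hxB
        exact ⟨Or.inr (U.nx_mem.2 hxB), hc_trans hdx (hc_nx hxB)⟩)
    rw [hX'] at k1
    have k2 : e ∈ {e | e ∈ U.X ∧ U.Hc T' d e} := by rw [k1]; exact he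
    exact k2.2
  refine ⟨T', ⟨⟨tr_conn hle' hc' hU.tc, ?_⟩, hle'⟩, hc', ?_, ?_⟩
  · unfold Tri.Genus
    have k1 := inn_tri T'
    rw [hT', h1.inn] at k1
    omega
  · intro d hd
    exact h3 d ⟨by rw [tr_ofTri_R]; exact Set.mem_univ d, hd⟩
  · intro d hd
    refine h4 d ?_
    rw [hXS]
    exact hd

end SYS.US
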