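import Pool.Agent.SYS.US.Seed
import Pool.Agent.SYS.T1

/-!
# SYS-US-Up: assembly of the upper bound for the simple separating systole

`G p T`: the properties of `T` used in block TOPS (LOW*(3), AREA*), true with high probability.
-/

namespace SYS.US

open SST Part Num XP UP Filter Topology

theorem up_gen {θ x : ℝ} (h : Par θ x) {β C : ℝ} (hβ : 0 < β) (hC : 0 < C) (hthin : Thin θ β C) {ε : ℝ} (hε : 0 < ε)
    (G : ∀ p : ℕ × ℕ, Tri (Fin (6 * p.1)) → Prop)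
    (hG : ∀ η : ℝ, 0 < η → ∀ᶠ p in Num.Fth θ,
      (({T : Tri (Fin (6 * p.1)) | T ∈ Trn p.1 p.2 ∧ ¬ G p T}.ncard : ℕ) : ℝ) ≤ η * ((Trn p.1 p.2).ncard : ℕ))
    (htops : ∀ V : ℕ, ∀ᶠ p in Num.Fth θ, ∀ T : Tri (Fin (6 * p.1)), T ∈ Trn p.1 p.2 → G p T →
      Sd V T ((β + ε / 2) * Real.log p.1) ((C + 1) * Real.log p.1) → T.HasSSC ((β + ε) * Real.log p.1)) :
    Tendsto (PSS (β + ε)) (Num.Fth θ) (𝓝 1) := by
  classical
  rw [Metric.tendsto_nhds]
  intro η hη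
  obtain ⟨V, hV⟩ := seeds h hβ hC (show β < β + ε / 2 by linarith) (show C < C + 1 by linarith) hthin
    (show 0 < η / 3 by linarith)
  have h1 : ∀ᶠ p in Num.Fth θ, 1 ≤ p.1 := by
    have h4 : Tendsto (fun p : ℕ × ℕ => p.1) (Num.Fth θ) atTop := tendsto_comap.mono_left inf_le_left
    exact h4.eventually (eventually_ge_atTop 1)
  filter_upwards [hV, hG (η / 3) (by linarith), htops V, nu_pos_ev h, h1] with p a1 a2 a3 a4 a5
  have hpos : (0 : ℝ) < ((Trn p.1 p.2).ncard : ℝ) := by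
    rcases Nat.eq_zero_or_pos (Trn p.1 p.2).ncard with h0 | h0
    · exfalso
      rw [SST.nu] at a4
      simp only [h0, Nat.cast_zero, zero_div, lt_irrefl] at a4
    · exact_mod_cast h0
  set A : Set (Tri (Fin (6 * p.1))) := {T | T ∈ Trn p.1 p.2 ∧ T.HasSSC ((β + ε) * Real.log p.1)} with hA
  set B : Set (Tri (Fin (6 * p.1))) := {T | T ∈ Trn p.1 p.2 ∧ ¬ T.HasSSC ((β + ε) * Real.log p.1)} with hB
  have e1 : PSS (β + ε) p = (A.ncard : ℝ) / (Trn p.1 p.2).ncard := ratio_eq a5 _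
  have e2 : A.ncard + B.ncard = (Trn p.1 p.2).ncard := by
    rw [← Set.ncard_union_eq ?_ (Set.toFinite _) (Set.toFinite _)]
    · congr 1
      ext T
      simp only [hA, hB, Set.mem_union, Set.mem_setOf_eq]
      tauto
    · rw [Set.disjoint_left]
      rintro T ⟨-, a⟩ ⟨-, b⟩
      exact b a
  have hsub : B ⊆ {T : Tri (Fin (6 * p.1)) | T ∈ Trn p.1 p.2 ∧ ¬ G p T} ∪
      {T : Tri (Fin (6 * p.1)) | T ∈ Trn p.1 p.2 ∧
        ¬ Sd V T ((β + ε / 2) * Real.log p.1) ((C + 1) * Real.log p.1)} := by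
    rintro T ⟨hT, hn⟩
    by_cases hg : G p T
    · right
      exact ⟨hT, fun hs => hn (a3 T hT hg hs)⟩
    · left
      exact ⟨hT, hg⟩
  have e3 : (B.ncard : ℝ) ≤ ({T : Tri (Fin (6 * p.1)) | T ∈ Trn p.1 p.2 ∧ ¬ G p T}.ncard : ℝ) +
      ({T : Tri (Fin (6 * p.1)) | T ∈ Trn p.1 p.2 ∧
        ¬ Sd V T ((β + ε / 2) * Real.log p.1) ((C + 1) * Real.log p.1)}.ncard : ℝ) := by
    exact_mod_cast (Set.ncard_le_ncard hsub (Set.toFinite _)).trans (Set.ncard_union_le _ _)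
  have e4 : (B.ncard : ℝ) ≤ 2 * η / 3 * (Trn p.1 p.2).ncard := by
    refine e3.trans ((add_le_add a2 a1).trans (le_of_eq ?_))
    ring
  rw [e1, Real.dist_eq]
  have e5 : (A.ncard : ℝ) / (Trn p.1 p.2).ncard - 1 = -((B.ncard : ℝ) / (Trn p.1 p.2).ncard) := by
    rw [div_sub_one hpos.ne', ← neg_div]
    congr 1
    rw [← e2]
    push_cast
    ring
  rw [e5, abs_neg, abs_of_nonneg (by positivity), div_lt_iff₀ hpos]
  have e6 : 0 < η * ((Trn p.1 p.2).ncard : ℝ) := by positivity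
  linarith

end SYS.US
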