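import Pool.Agent.SYS.US.SeedG
import Pool.Agent.SYS.US.TamA
import Pool.Agent.SYS.US.ThinB
import Pool.Agent.SYS.T1
import Pool.Agent.SYS.UP.MainF

/-!
# SYS-US-Up3: assembly of the upper bound for the simple separating systole
-/

namespace SYS.US

open SST Part Num XP UP Filter Topology

theorem up3 {θ x : ℝ} (h : Par θ x) {β C β2 C2 : ℝ} (hβ : 0 < β) (hβ2 : β < β2) (hC2 : C < C2) (hthin : Thin θ β C)
    (htm : TameW θ β2 C2) {c : ℝ} (hc : β < c) : Tendsto (PSS c) (Num.Fth θ) (𝓝 1) := by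
  classical
  rw [Metric.tendsto_nhds]
  intro η hη
  have h1 : ∀ᶠ p in Num.Fth θ, 1 ≤ p.1 := RB.ge_ev θ 1
  filter_upwards [sscs h hβ hc hβ2 hC2 hthin htm (show 0 < η / 2 by linarith), nu_pos_ev h, h1] with p a1 a4 a5
  have hpos : (0 : ℝ) < ((Trn p.1 p.2).ncard : ℝ) := by
    rcases Nat.eq_zero_or_pos (Trn p.1 p.2).ncard with h0 | h0
    · exfalso
      rw [SST.nu] at a4
      simp only [h0, Nat.cast_zero, zero_div, lt_irrefl] at a4
    · exact_mod_cast h0
  set A : Set (Tri (Fin (6 * p.1))) := {T | T ∈ Trn p.1 p.2 ∧ T.HasSSC (c * Real.log p.1)} with hA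
  set B : Set (Tri (Fin (6 * p.1))) := {T | T ∈ Trn p.1 p.2 ∧ ¬ T.HasSSC (c * Real.log p.1)} with hB
  have e1 : PSS c p = (A.ncard : ℝ) / (Trn p.1 p.2).ncard := ratio_eq a5 _
  have e2 : A.ncard + B.ncard = (Trn p.1 p.2).ncard := by
    rw [← Set.ncard_union_eq ?_ (Set.toFinite _) (Set.toFinite _)]
    · congr 1
      ext T
      simp only [hA, hB, Set.mem_union, Set.mem_setOf_eq]
      tauto
    · rw [Set.disjoint_left]
      rintro T ⟨-, a⟩ ⟨-, b⟩
      exact b a
  have e3 : (B.ncard : ℝ) ≤ η / 2 * (Trn p.1 p.2).ncard := a1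
  rw [e1, Real.dist_eq]
  have e5 : (A.ncard : ℝ) / (Trn p.1 p.2).ncard - 1 = -((B.ncard : ℝ) / (Trn p.1 p.2).ncard) := by
    rw [div_sub_one hpos.ne', ← neg_div]
    congr 1
    rw [← e2]
    push_cast
    ring
  rw [e5, abs_neg, abs_of_nonneg (by positivity), div_lt_iff₀ hpos]
  have e6 : 0 < η * ((Trn p.1 p.2).ncard : ℝ) := by positivity
  linarith

/-- UP* from GRW, (B2), (B3). -/
theorem up_star3 {θ x : ℝ} (h : Par θ x) {β C β2 C2 e : ℝ} (hβ : 0 < β) (hβ2 : β < β2) (hC2 : C < C2)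
    (hg : ∀ e' : ℝ, 0 < e' → e' < 1 / 2 → Grw θ β C e') (h2 : B2 θ (β2 + e) (C2 + 3 * e)) (h3 : B3 θ β2 C2 e)
    {c : ℝ} (hc : β < c) : Tendsto (PSS c) (Num.Fth θ) (𝓝 1) := by
  obtain ⟨ε, hε, e1, e2, e3⟩ : ∃ ε : ℝ, 0 < ε ∧ β + ε < β2 ∧ C + ε < C2 ∧ β + ε < c := by
    refine ⟨min (β2 - β) (min (C2 - C) (c - β)) / 2, ?_, ?_, ?_, ?_⟩
    · have : 0 < min (β2 - β) (min (C2 - C) (c - β)) := lt_min (by linarith) (lt_min (by linarith) (by linarith))
      linarith
    · have h0 : 0 < min (β2 - β) (min (C2 - C) (c - β)) := lt_min (by linarith) (lt_min (by linarith) (by linarith))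
      have := min_le_left (β2 - β) (min (C2 - C) (c - β))
      linarith
    · have h0 : 0 < min (β2 - β) (min (C2 - C) (c - β)) := lt_min (by linarith) (lt_min (by linarith) (by linarith))
      have := (min_le_right (β2 - β) (min (C2 - C) (c - β))).trans (min_le_left _ _)
      linarith
    · have h0 : 0 < min (β2 - β) (min (C2 - C) (c - β)) := lt_min (by linarith) (lt_min (by linarith) (by linarith))
      have := (min_le_right (β2 - β) (min (C2 - C) (c - β))).trans (min_le_right _ _)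
      linarith
  exact up3 h (show 0 < β + ε by linarith) e1 e2 (thin_of h hg hε) (tame_of h2 h3) e3

end SYS.US
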