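import Pool.Agent.SYS.US.Def2
import Pool.Agent.SYS.LA.ArS
import Pool.Agent.SYS.RB.Win

/-!
# SYS-US-Vol: the volume bound in (B2) and (B3) is irrelevant

`ar_star`: with probability at least `1 - 1 / n` a connected set of faces with at most `L log n` boundary darts has at most `C1 log n` darts or a very small complement.
-/

namespace SYS.US

open SST Part Num XP Filter Topology

private theorem vol_ev (θ L C1 C2 η : ℝ) (hη : 0 < η) : ∀ᶠ p in Num.Fth θ, 1 ≤ p.1 ∧ 0 ≤ Real.log p.1 ∧ (1 : ℝ) ≤ η * p.1 ∧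
    C2 * Real.log p.1 + L * Real.log p.1 * (C1 * Real.log p.1) < 6 * (p.1 : ℝ) := by
  have ht : Tendsto (fun p : ℕ × ℕ => (p.1 : ℝ)) (Num.Fth θ) atTop := by
    have h1 : Tendsto (fun p : ℕ × ℕ => p.1) (Num.Fth θ) atTop := by
      unfold Num.Fth
      exact tendsto_comap.mono_left inf_le_left
    exact tendsto_natCast_atTop_atTop.comp h1
  have h2 : ∀ᶠ r : ℝ in atTop, C2 * Real.log r + L * Real.log r * (C1 * Real.log r) < 6 * r := by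
    have e1 : (fun r : ℝ => C2 * Real.log r) =o[atTop] (fun r : ℝ => r) := by
      exact (Real.isLittleO_log_id_atTop).const_mul_left C2
    have e2 : (fun r : ℝ => Real.log r ^ 2) =o[atTop] (fun r : ℝ => r) := by
      have := Real.isLittleO_pow_log_id_atTop (n := 2)
      exact this
    have e3 : (fun r : ℝ => L * C1 * Real.log r ^ 2) =o[atTop] (fun r : ℝ => r) := e2.const_mul_left _
    have e4 := (e1.add e3).def (show (0 : ℝ) < 1 by norm_num)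
    filter_upwards [e4, eventually_gt_atTop (0 : ℝ)] with r hr hr0
    rw [one_mul, Real.norm_eq_abs, Real.norm_eq_abs, abs_of_pos hr0] at hr
    have h3 := (le_abs_self _).trans hr
    have h4 : C2 * Real.log r + L * Real.log r * (C1 * Real.log r) = C2 * Real.log r + L * C1 * Real.log r ^ 2 := by ring
    rw [h4]
    linarith
  filter_upwards [ht.eventually h2, ht.eventually (eventually_ge_atTop (1 / η)), RB.ge_ev θ 1] with p h3 h4 h5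
  refine ⟨h5, Real.log_nonneg (by exact_mod_cast h5), ?_, h3⟩
  rw [div_le_iff₀ hη] at h4
  linarith

private theorem vol_cnt {n g : ℕ} (A : Set (Tri (Fin (6 * n)))) (P Q : Tri (Fin (6 * n)) → Fin (6 * n) → Fin (6 * n) → Prop)
    (h : ∀ T ∈ Trn n g, T ∉ A → ∀ x y, P T x y → Q T x y) :
    {q : Tri (Fin (6 * n)) × Fin (6 * n) × Fin (6 * n) | q.1 ∈ Trn n g ∧ P q.1 q.2.1 q.2.2}.ncard ≤
      {q : Tri (Fin (6 * n)) × Fin (6 * n) × Fin (6 * n) | q.1 ∈ Trn n g ∧ Q q.1 q.2.1 q.2.2}.ncard +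
        {T | T ∈ Trn n g ∧ T ∈ A}.ncard * (6 * n) ^ 2 := by
  have hsub : {q : Tri (Fin (6 * n)) × Fin (6 * n) × Fin (6 * n) | q.1 ∈ Trn n g ∧ P q.1 q.2.1 q.2.2} ⊆
      {q : Tri (Fin (6 * n)) × Fin (6 * n) × Fin (6 * n) | q.1 ∈ Trn n g ∧ Q q.1 q.2.1 q.2.2} ∪
        {T | T ∈ Trn n g ∧ T ∈ A} ×ˢ (Set.univ : Set (Fin (6 * n) × Fin (6 * n))) := by
    rintro q ⟨h1, h2⟩
    by_cases h3 : q.1 ∈ A
    · exact Or.inr ⟨⟨h1, h3⟩, Set.mem_univ _⟩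
    · exact Or.inl ⟨h1, h _ h1 h3 _ _ h2⟩
  refine (Set.ncard_le_ncard hsub (Set.toFinite _)).trans ((Set.ncard_union_le _ _).trans (Nat.add_le_add_left ?_ _))
  rw [Set.ncard_prod, Set.ncard_univ, Nat.card_prod, Nat.card_fin]
  exact le_of_eq (by ring)

theorem rare_vol {θ x : ℝ} (h : Par θ x) (L : ℝ) (hL : 0 < L) : ∃ C1 : ℝ, 0 < C1 ∧ ∀ (s C2 : ℝ), s ≤ L →
    ∀ R : ∀ p : ℕ × ℕ, Tri (Fin (6 * p.1)) → Fin (6 * p.1) → Fin (6 * p.1) → Set (Fin (6 * p.1)) → Prop,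
      (Rare θ fun p T x y => ∃ Y : Set (Fin (6 * p.1)), Fs T Y ∧ DC T Y ∧ x ∈ Y ∧ y ∈ Y ∧
        ((bdy T Y).ncard : ℝ) ≤ s * Real.log p.1 ∧ (Y.ncard : ℝ) ≤ C1 * Real.log p.1 ∧ R p T x y Y) →
      Rare θ fun p T x y => ∃ Y : Set (Fin (6 * p.1)), Fs T Y ∧ DC T Y ∧ x ∈ Y ∧ y ∈ Y ∧
        ((bdy T Y).ncard : ℝ) ≤ s * Real.log p.1 ∧ (Y.ncard : ℝ) ≤ C2 * Real.log p.1 ∧ R p T x y Y := by
  obtain ⟨C1, hC1, har⟩ := ar_star h L hL
  refine ⟨C1, hC1, fun s C2 hs R hR η hη => ?_⟩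
  have har' : ∀ᶠ q in Num.Fth θ, (q.1 : ℝ) * (({T : Tri (Fin (6 * q.1)) | T ∈ Trn q.1 q.2 ∧
      ¬ ArS T (L * Real.log q.1) (C1 * Real.log q.1)}.ncard : ℕ) : ℝ) ≤ (Trn q.1 q.2).ncard := har
  filter_upwards [hR (η / 2) (by linarith), har', vol_ev θ L C1 C2 (η / 2) (by linarith)] with p h1 h2 h3
  obtain ⟨h4, h5, h6, h7⟩ := h3
  have hc := vol_cnt (n := p.1) (g := p.2) {T | ¬ ArS T (L * Real.log p.1) (C1 * Real.log p.1)}
    (fun T x y => ∃ Y : Set (Fin (6 * p.1)), Fs T Y ∧ DC T Y ∧ x ∈ Y ∧ y ∈ Y ∧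
        ((bdy T Y).ncard : ℝ) ≤ s * Real.log p.1 ∧ (Y.ncard : ℝ) ≤ C2 * Real.log p.1 ∧ R p T x y Y)
    (fun T x y => ∃ Y : Set (Fin (6 * p.1)), Fs T Y ∧ DC T Y ∧ x ∈ Y ∧ y ∈ Y ∧
        ((bdy T Y).ncard : ℝ) ≤ s * Real.log p.1 ∧ (Y.ncard : ℝ) ≤ C1 * Real.log p.1 ∧ R p T x y Y) (by
      rintro T hT hA a b ⟨Y, y1, y2, y3, y4, y5, y6, y7⟩
      have hA' : ArS T (L * Real.log p.1) (C1 * Real.log p.1) := not_not.1 hA
      have hsL : s * Real.log p.1 ≤ L * Real.log p.1 := mul_le_mul_of_nonneg_right hs h5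
      refine ⟨Y, y1, y2, y3, y4, y5, ?_, y7⟩
      rcases hA'.ar2 Y y1 y2 (y5.trans hsL) with h8 | h8
      · exact h8
      · exfalso
        have h9 := Set.ncard_add_ncard_compl Y
        rw [Nat.card_fin] at h9
        have h10 : (Y.ncard : ℝ) + (Yᶜ.ncard : ℝ) = 6 * (p.1 : ℝ) := by exact_mod_cast h9
        linarith)
  set t : ℝ := (((Trn p.1 p.2).ncard : ℕ) : ℝ) with ht
  have ht0 : 0 ≤ t := Nat.cast_nonneg _
  set a : ℝ := (({T : Tri (Fin (6 * p.1)) | T ∈ Trn p.1 p.2 ∧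
      ¬ ArS T (L * Real.log p.1) (C1 * Real.log p.1)}.ncard : ℕ) : ℝ) with ha
  have ha0 : 0 ≤ a := Nat.cast_nonneg _
  have hn0 : (0 : ℝ) < (p.1 : ℝ) := by exact_mod_cast h4
  have ha2 : a ≤ η / 2 * t := by
    have e1 : a ≤ a * (η / 2 * p.1) := by nlinarith
    have e2 : a * (η / 2 * p.1) = η / 2 * (p.1 * a) := by ring
    have e3 : η / 2 * (p.1 * a) ≤ η / 2 * t := mul_le_mul_of_nonneg_left h2 (by linarith)
    linarith
  have hc2 := (Nat.cast_le (α := ℝ)).2 hc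
  refine hc2.trans ?_
  push_cast
  have h8 : a * (6 * (p.1 : ℝ)) ^ 2 ≤ η / 2 * t * (6 * (p.1 : ℝ)) ^ 2 := mul_le_mul_of_nonneg_right ha2 (by positivity)
  have h9 : η * (6 * (p.1 : ℝ)) ^ 2 * t = η / 2 * (6 * (p.1 : ℝ)) ^ 2 * t + η / 2 * t * (6 * (p.1 : ℝ)) ^ 2 := by ring
  rw [h9]
  exact add_le_add h1 h8

theorem b_vol {θ x : ℝ} (h : Par θ x) (L : ℝ) (hL : 0 < L) : ∃ C1 : ℝ, 0 < C1 ∧ ∀ s C2 : ℝ, s ≤ L →
    (B2 θ s C1 → B2 θ s C2) ∧ ∀ e : ℝ, B3 θ s C1 e → B3 θ s C2 e := by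
  obtain ⟨C1, hC1, hr⟩ := rare_vol h L hL
  refine ⟨C1, hC1, fun s C2 hs => ⟨fun h2 => ?_, fun e h3 => ?_⟩⟩
  · exact hr s C2 hs (fun p T _ _ Y => 1 ≤ CO.rk T (CO.ins T Y)) h2
  · exact hr s C2 hs (fun p T _ _ Y => ∃ u ∈ Y, e * Real.log p.1 ≤ (dg T u : ℝ)) h3

end SYS.US
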